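import Pool.Agent.FDR.SL.Defs

/-!
# SCHW: Schwarz's lemma
-/

open scoped BigOperators Polynomial Topology
open Metric Filter Asymptotics

namespace Pool.Agent.FDR.SL.SCHW

open Pool.Agent.FDR

noncomputable section

/-- the order of vanishing from the asymptotic bound -/
theorem le_order {g : ℂ → ℂ} {m : ℂ} {k : ℕ} (hg : AnalyticAt ℂ g m)
    (h : (fun t : ℂ => g (m + t)) =O[𝓝 0] (fun t => ‖t‖ ^ k)) :
    (k : ℕ∞) ≤ analyticOrderAt g m := by
  by_cases htop : analyticOrderAt g m = ⊤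
  · rw [htop]
    exact le_top
  obtain ⟨φ, hφ, hφ0, hgφ⟩ := (hg.analyticOrderAt_ne_top).mp htop
  set n := analyticOrderNatAt g m with hn
  have hn' : analyticOrderAt g m = (n : ℕ∞) := by
    rw [hn, Nat.cast_analyticOrderNatAt htop]
  rw [hn', Nat.cast_le]
  by_contra hlt
  push Not at hlt
  apply hφ0
  obtain ⟨C, hC⟩ := h.bound
  -- `g (m + t) = t ^ n * φ (m + t)`
  have h1 : ∀ᶠ t in 𝓝 (0 : ℂ), g (m + t) = t ^ n * φ (m + t) := by
    have h2 : Tendsto (fun t : ℂ => m + t) (𝓝 0) (𝓝 m) := by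
      have : Continuous (fun t : ℂ => m + t) := by fun_prop
      simpa using this.tendsto 0
    filter_upwards [h2.eventually hgφ] with t ht
    rw [ht]
    simp
  have h3 : ∀ᶠ t in 𝓝[≠] (0 : ℂ), ‖φ (m + t)‖ ≤ C * ‖t‖ ^ (k - n) := by
    filter_upwards [hC.filter_mono nhdsWithin_le_nhds, h1.filter_mono nhdsWithin_le_nhds,
      self_mem_nhdsWithin] with t ht1 ht2 ht3
    have ht0 : 0 < ‖t‖ := norm_pos_iff.mpr ht3
    rw [ht2, norm_mul, norm_pow, norm_pow, norm_norm] at ht1
    have h4 : ‖t‖ ^ k = ‖t‖ ^ n * ‖t‖ ^ (k - n) := by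
      rw [← pow_add]
      congr 1
      omega
    rw [h4] at ht1
    have h5 : ‖t‖ ^ n * ‖φ (m + t)‖ ≤ ‖t‖ ^ n * (C * ‖t‖ ^ (k - n)) := by
      calc _ ≤ _ := ht1
        _ = _ := by ring
    exact le_of_mul_le_mul_left h5 (pow_pos ht0 n)
  have h6 : Tendsto (fun t : ℂ => ‖φ (m + t)‖) (𝓝[≠] 0) (𝓝 ‖φ m‖) := by
    have h7 : ContinuousAt (fun t : ℂ => φ (m + t)) 0 := by
      apply ContinuousAt.comp
      · simpa using hφ.continuousAt
      · fun_prop
    have h8 := h7.norm.tendsto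
    simp only [add_zero] at h8
    exact h8.mono_left nhdsWithin_le_nhds
  have h9 : Tendsto (fun t : ℂ => C * ‖t‖ ^ (k - n)) (𝓝[≠] 0) (𝓝 0) := by
    have h10 : Continuous (fun t : ℂ => C * ‖t‖ ^ (k - n)) := by fun_prop
    have h11 := h10.tendsto 0
    have h12 : C * ‖(0 : ℂ)‖ ^ (k - n) = 0 := by
      rw [norm_zero, zero_pow (by omega), mul_zero]
    rw [h12] at h11
    exact h11.mono_left nhdsWithin_le_nhds
  have h13 := le_of_tendsto_of_tendsto h6 h9 h3
  exact norm_le_zero_iff.mp h13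

/-- dividing by `(t - m) ^ k` -/
theorem div_pow {g : ℂ → ℂ} {R : ℝ} (hg : AnalyticOnNhd ℂ g (ball 0 R)) {m : ℂ}
    (hm : m ∈ ball (0 : ℂ) R) {k : ℕ} (h : (k : ℕ∞) ≤ analyticOrderAt g m) :
    ∃ h : ℂ → ℂ, AnalyticOnNhd ℂ h (ball 0 R) ∧ ∀ t ∈ ball (0 : ℂ) R, g t = (t - m) ^ k * h t := by
  classical
  obtain ⟨φ, hφ, hgφ⟩ := (natCast_le_analyticOrderAt (hg m hm)).mp h
  simp only [smul_eq_mul] at hgφ
  refine ⟨Function.update (fun t => g t / (t - m) ^ k) m (φ m), ?_, ?_⟩
  · intro t ht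
    by_cases htm : t = m
    · rw [htm]
      apply hφ.congr
      filter_upwards [hgφ] with z hz
      by_cases hzm : z = m
      · rw [hzm, Function.update_self]
      · rw [Function.update_of_ne hzm, hz, mul_div_cancel_left₀]
        exact pow_ne_zero _ (sub_ne_zero.mpr hzm)
    · have h1 : AnalyticAt ℂ (fun t => g t / (t - m) ^ k) t := by
        apply (hg t ht).div
        · fun_prop
        · exact pow_ne_zero _ (sub_ne_zero.mpr htm)
      apply h1.congr
      filter_upwards [isOpen_ne.mem_nhds htm] with z hz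
      rw [Function.update_of_ne hz]
  · intro t _
    by_cases htm : t = m
    · subst htm
      rw [Function.update_self, hgφ.self_of_nhds]
    · rw [Function.update_of_ne htm, mul_div_cancel₀]
      exact pow_ne_zero _ (sub_ne_zero.mpr htm)

theorem div_prod {R : ℝ} {k : ℕ} (F : Finset ℂ) : ∀ {g : ℂ → ℂ},
    AnalyticOnNhd ℂ g (ball 0 R) → (∀ m ∈ F, m ∈ ball (0 : ℂ) R) →
    (∀ m ∈ F, (k : ℕ∞) ≤ analyticOrderAt g m) →
    ∃ h : ℂ → ℂ, AnalyticOnNhd ℂ h (ball 0 R) ∧
      ∀ t ∈ ball (0 : ℂ) R, g t = (∏ m ∈ F, (t - m) ^ k) * h t := by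
  classical
  induction F using Finset.induction_on with
  | empty =>
    intro g hg _ _
    exact ⟨g, hg, fun t _ => by simp⟩
  | insert a F ha ih =>
    intro g hg hF hord
    obtain ⟨g1, hg1, hgg1⟩ := div_pow hg (hF a (Finset.mem_insert_self a F))
      (hord a (Finset.mem_insert_self a F))
    have h1 : ∀ m ∈ F, (k : ℕ∞) ≤ analyticOrderAt g1 m := by
      intro m hm
      have hmR := hF m (Finset.mem_insert_of_mem hm)
      have h2 := hord m (Finset.mem_insert_of_mem hm)
      have h3 : g =ᶠ[𝓝 m] ((fun t => (t - a) ^ k) * g1) := by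
        filter_upwards [isOpen_ball.mem_nhds hmR] with t ht
        exact hgg1 t ht
      have h4 : AnalyticAt ℂ (fun t : ℂ => (t - a) ^ k) m := by fun_prop
      have h5 : analyticOrderAt (fun t : ℂ => (t - a) ^ k) m = 0 := by
        rw [h4.analyticOrderAt_eq_zero]
        apply pow_ne_zero
        rw [sub_ne_zero]
        rintro rfl
        exact ha hm
      rw [analyticOrderAt_congr h3, analyticOrderAt_mul h4 (hg1 m hmR), h5, zero_add] at h2
      exact h2
    obtain ⟨h, hh, hgh⟩ := ih hg1 (fun m hm => hF m (Finset.mem_insert_of_mem hm)) h1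
    refine ⟨h, hh, ?_⟩
    intro t ht
    rw [hgg1 t ht, hgh t ht, Finset.prod_insert ha, mul_assoc]

theorem iteratedDeriv_pow_mul (k : ℕ) : ∀ {u : ℂ → ℂ}, AnalyticAt ℂ u 0 →
    iteratedDeriv k (fun t => t ^ k * u t) 0 = k.factorial * u 0 := by
  induction k with
  | zero =>
    intro u _
    simp
  | succ k ih =>
    intro u hu
    have h1 : (fun t => t ^ k * ((k + 1 : ℕ) * u t + t * deriv u t)) =ᶠ[𝓝 0]
        deriv (fun t : ℂ => t ^ (k + 1) * u t) := by
      filter_upwards [hu.eventually_analyticAt] with t ht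
      have h2 : HasDerivAt (fun t : ℂ => t ^ (k + 1) * u t)
          (((k + 1 : ℕ) * t ^ (k + 1 - 1)) * u t + t ^ (k + 1) * deriv u t) t :=
        (hasDerivAt_pow (k + 1) t).mul ht.differentiableAt.hasDerivAt
      rw [h2.deriv, Nat.add_sub_cancel, pow_succ]
      ring
    have h3 : AnalyticAt ℂ (fun t => ((k + 1 : ℕ) : ℂ) * u t + t * deriv u t) 0 := by
      exact (analyticAt_const.mul hu).add (analyticAt_id.mul hu.deriv)
    rw [iteratedDeriv_succ', ← h1.iteratedDeriv_eq k, ih h3, Nat.factorial_succ]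
    push_cast
    ring

theorem thm_SCHW : Stmt_Schw := by
  classical
  intro g N k B hg hB hz
  have hRpos : (0 : ℝ) < 4 * N + 1 := by positivity
  have h0 : (0 : ℂ) ∈ ball (0 : ℂ) (4 * N + 1 : ℝ) := mem_ball_self hRpos
  have hB0 : 0 ≤ B := (norm_nonneg _).trans (hB 0 h0)
  set S : Finset ℤ := Finset.Icc (-(N : ℤ)) N with hS
  have hSmem : ∀ m ∈ S, |m| ≤ N := by
    intro m hm
    rw [hS, Finset.mem_Icc] at hm
    exact abs_le.mpr hm
  have hnormm : ∀ m : ℤ, |m| ≤ N → ‖(m : ℂ)‖ ≤ N := by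
    intro m hm
    rw [Complex.norm_intCast]
    exact_mod_cast hm
  have hball : ∀ m : ℤ, |m| ≤ N → (m : ℂ) ∈ ball (0 : ℂ) (4 * N + 1 : ℝ) := by
    intro m hm
    rw [mem_ball_zero_iff]
    have := hnormm m hm
    have : (0 : ℝ) ≤ N := Nat.cast_nonneg N
    linarith
  -- division
  obtain ⟨h, hh, hgh⟩ : ∃ h : ℂ → ℂ, AnalyticOnNhd ℂ h (ball 0 (4 * N + 1)) ∧
      ∀ t ∈ ball (0 : ℂ) (4 * N + 1 : ℝ), g t = (∏ m ∈ S, (t - (m : ℂ)) ^ k) * h t := by
    have h1 := div_prod (k := k) (S.image (fun m : ℤ => (m : ℂ))) hg (by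
      intro m hm
      obtain ⟨m', hm', rfl⟩ := Finset.mem_image.mp hm
      exact hball m' (hSmem m' hm')) (by
      intro m hm
      obtain ⟨m', hm', rfl⟩ := Finset.mem_image.mp hm
      exact le_order (hg _ (hball m' (hSmem m' hm'))) (hz m' (hSmem m' hm')))
    obtain ⟨h, hh, hgh⟩ := h1
    refine ⟨h, hh, ?_⟩
    intro t ht
    rw [hgh t ht, Finset.prod_image (fun a _ b _ hab => Int.cast_injective hab)]
  have hcard : S.card = 2 * N + 1 := by
    rw [hS, Int.card_Icc]
    omega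
  have h0S : (0 : ℤ) ∈ S := by
    rw [hS, Finset.mem_Icc]
    constructor <;> omega
  -- the maximum principle
  have hmax : ∀ r : ℝ, (N : ℝ) < r → r < 4 * N + 1 →
      (r - N) ^ (k * (2 * N + 1)) * ‖h 0‖ ≤ B := by
    intro r hr1 hr2
    have hr0 : 0 < r := lt_of_le_of_lt (Nat.cast_nonneg N) hr1
    have hrN : 0 < r - N := by linarith
    have hpow : 0 < (r - N) ^ (k * (2 * N + 1)) := pow_pos hrN _
    have hsub : closedBall (0 : ℂ) r ⊆ ball 0 (4 * N + 1 : ℝ) := closedBall_subset_ball hr2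
    have hd : DiffContOnCl ℂ h (ball 0 r) := by
      apply DifferentiableOn.diffContOnCl
      rw [closure_ball (0 : ℂ) hr0.ne']
      exact hh.differentiableOn.mono hsub
    have hfr : ∀ t ∈ frontier (ball (0 : ℂ) r), ‖h t‖ ≤ B / (r - N) ^ (k * (2 * N + 1)) := by
      intro t ht
      rw [frontier_ball (0 : ℂ) hr0.ne', mem_sphere_zero_iff_norm] at ht
      have htb : t ∈ ball (0 : ℂ) (4 * N + 1 : ℝ) := by
        rw [mem_ball_zero_iff, ht]
        exact hr2
      rw [le_div_iff₀ hpow, mul_comm]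
      refine le_trans ?_ (hB t htb)
      rw [hgh t htb, norm_mul]
      apply mul_le_mul_of_nonneg_right _ (norm_nonneg _)
      rw [norm_prod]
      calc (r - N) ^ (k * (2 * N + 1)) = ∏ m ∈ S, (r - N) ^ k := by
            rw [Finset.prod_const, hcard, pow_mul]
        _ ≤ ∏ m ∈ S, ‖(t - (m : ℂ)) ^ k‖ := by
            apply Finset.prod_le_prod
            · intro m _
              positivity
            · intro m hm
              rw [norm_pow]
              apply pow_le_pow_left₀ hrN.le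
              have h1 := norm_sub_norm_le t (m : ℂ)
              have h2 := hnormm m (hSmem m hm)
              rw [ht] at h1
              linarith
    have h1 := Complex.norm_le_of_forall_mem_frontier_norm_le isBounded_ball hd hfr
      (subset_closure (mem_ball_self hr0))
    rw [le_div_iff₀ hpow] at h1
    linarith
  have hmax' : (3 * N + 1 : ℝ) ^ (k * (2 * N + 1)) * ‖h 0‖ ≤ B := by
    have h1 : Tendsto (fun r : ℝ => (r - N) ^ (k * (2 * N + 1)) * ‖h 0‖)
        (𝓝[<] (4 * N + 1 : ℝ)) (𝓝 ((3 * N + 1 : ℝ) ^ (k * (2 * N + 1)) * ‖h 0‖)) := by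
      have h2 : Continuous (fun r : ℝ => (r - N) ^ (k * (2 * N + 1)) * ‖h 0‖) := by fun_prop
      have h3 := h2.tendsto (4 * N + 1 : ℝ)
      have h4 : (4 * N + 1 - N : ℝ) = 3 * N + 1 := by ring
      rw [h4] at h3
      exact h3.mono_left nhdsWithin_le_nhds
    apply le_of_tendsto h1
    have h5 : (N : ℝ) < 4 * N + 1 := by
      have : (0 : ℝ) ≤ N := Nat.cast_nonneg N
      linarith
    filter_upwards [self_mem_nhdsWithin, (Ioo_mem_nhdsLT h5)] with r _ hr2
    exact hmax r hr2.1 hr2.2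
  -- the derivative
  set u : ℂ → ℂ := fun t => (∏ m ∈ S.erase 0, (t - (m : ℂ)) ^ k) * h t with hu
  have huan : AnalyticAt ℂ u 0 := by
    apply AnalyticAt.mul
    · apply Finset.analyticAt_fun_prod
      intro m _
      fun_prop
    · exact hh 0 h0
  have hgu : g =ᶠ[𝓝 0] fun t => t ^ k * u t := by
    filter_upwards [isOpen_ball.mem_nhds h0] with t ht
    rw [hgh t ht, hu, ← Finset.mul_prod_erase S _ h0S, Int.cast_zero, sub_zero, mul_assoc]
  rw [hgu.iteratedDeriv_eq k, iteratedDeriv_pow_mul k huan, norm_mul, Complex.norm_natCast,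
    mul_assoc]
  apply mul_le_mul_of_nonneg_left _ (Nat.cast_nonneg _)
  have hN0 : (0 : ℝ) ≤ N := Nat.cast_nonneg N
  have hu0 : ‖u 0‖ ≤ (N : ℝ) ^ (k * (2 * N)) * ‖h 0‖ := by
    rw [hu]
    simp only
    rw [norm_mul]
    apply mul_le_mul_of_nonneg_right _ (norm_nonneg _)
    rw [norm_prod]
    calc ∏ m ∈ S.erase 0, ‖((0 : ℂ) - (m : ℂ)) ^ k‖ ≤ ∏ m ∈ S.erase 0, (N : ℝ) ^ k := by
          apply Finset.prod_le_prod
          · intro m _
            positivity
          · intro m hm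
            rw [norm_pow, zero_sub, norm_neg]
            exact pow_le_pow_left₀ (norm_nonneg _)
              (hnormm m (hSmem m (Finset.mem_of_mem_erase hm))) k
      _ = (N : ℝ) ^ (k * (2 * N)) := by
          rw [Finset.prod_const, Finset.card_erase_of_mem h0S, hcard, Nat.add_sub_cancel,
            ← pow_mul]
  have he : (N : ℝ) ≤ Real.exp (-1) * (3 * N + 1) := by
    have h1 : Real.exp 1 < 3 := Real.exp_one_lt_d9.trans (by norm_num)
    have h2 : Real.exp (-1) * Real.exp 1 = 1 := by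
      rw [← Real.exp_add]
      simp
    have h3 : 0 < Real.exp (-1) := Real.exp_pos _
    have h4 : 1 ≤ Real.exp (-1) * 3 := by
      calc (1 : ℝ) = Real.exp (-1) * Real.exp 1 := h2.symm
        _ ≤ Real.exp (-1) * 3 := mul_le_mul_of_nonneg_left h1.le h3.le
    nlinarith
  have hexp : Real.exp (-(2 * N * k)) = Real.exp (-1) ^ (k * (2 * N)) := by
    rw [← Real.exp_nat_mul]
    congr 1
    push_cast
    ring
  calc ‖u 0‖ ≤ (N : ℝ) ^ (k * (2 * N)) * ‖h 0‖ := hu0
    _ ≤ (Real.exp (-1) * (3 * N + 1)) ^ (k * (2 * N)) * ‖h 0‖ := by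
        apply mul_le_mul_of_nonneg_right _ (norm_nonneg _)
        exact pow_le_pow_left₀ hN0 he _
    _ = Real.exp (-(2 * N * k)) * ((3 * N + 1 : ℝ) ^ (k * (2 * N)) * ‖h 0‖) := by
        rw [mul_pow, hexp, mul_assoc]
    _ ≤ Real.exp (-(2 * N * k)) * ((3 * N + 1 : ℝ) ^ (k * (2 * N + 1)) * ‖h 0‖) := by
        apply mul_le_mul_of_nonneg_left _ (Real.exp_pos _).le
        apply mul_le_mul_of_nonneg_right _ (norm_nonneg _)
        apply pow_le_pow_right₀
        · linarith
        · apply Nat.mul_le_mul_left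
          omega
    _ ≤ Real.exp (-(2 * N * k)) * B := mul_le_mul_of_nonneg_left hmax' (Real.exp_pos _).le
    _ = B * Real.exp (-(2 * N * k)) := mul_comm _ _

end

end Pool.Agent.FDR.SL.SCHW
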