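import Pool.Agent.FDR.SL.Defs

namespace Pool.Agent.FDR.SL.AIMINOR

theorem thm_AIMINOR : Stmt_AIMinor := by
  classical
  intro g d B hB
  set f : Fin g → Module.Dual ℂ (Fin d → ℂ) := fun i => (LinearMap.proj i).comp B with hf
  obtain ⟨κ, a, ha, hspan, hli⟩ := exists_linearIndependent' ℂ f
  have : Finite κ := Finite.of_injective a ha
  have : Fintype κ := Fintype.ofFinite κ
  set W : Submodule ℂ (Module.Dual ℂ (Fin d → ℂ)) := Submodule.span ℂ (Set.range f) with hW
  have hco : W.dualCoannihilator = ⊥ := by
    rw [Submodule.eq_bot_iff]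
    intro w hw
    rw [Submodule.mem_dualCoannihilator] at hw
    apply hB
    rw [map_zero]
    funext i
    exact hw (f i) (Submodule.subset_span ⟨i, rfl⟩)
  have hrank : Module.finrank ℂ W = d := by
    have h1 := Subspace.finrank_add_finrank_dualCoannihilator_eq W
    rw [hco, finrank_bot, add_zero] at h1
    simpa using h1
  have hcard : Fintype.card κ = d := by
    have h2 := finrank_span_eq_card hli
    rw [hspan] at h2
    rw [← h2]
    exact hrank
  let e : Fin d ≃ κ := (Fintype.equivFinOfCardEq hcard).symm
  refine ⟨fun s => a (e s), fun s t h => e.injective (ha h), ?_⟩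
  intro w w' hww
  have h0 : ∀ s, f (a (e s)) (w - w') = 0 := by
    intro s
    have h1 := congrFun hww s
    simp only at h1
    change B (w - w') (a (e s)) = 0
    rw [map_sub, Pi.sub_apply, h1, sub_self]
  have h3 : ∀ φ ∈ W, φ (w - w') = 0 := by
    intro φ hφ
    rw [← hspan] at hφ
    induction hφ using Submodule.span_induction with
    | mem x hx =>
      obtain ⟨k, rfl⟩ := hx
      have := h0 (e.symm k)
      rw [Equiv.apply_symm_apply] at this
      exact this
    | zero => simp
    | add x y _ _ hx hy => rw [LinearMap.add_apply, hx, hy, add_zero]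
    | smul c x _ hx => rw [LinearMap.smul_apply, hx, smul_zero]
  have h4 : w - w' = 0 := by
    apply hB
    rw [map_zero]
    funext i
    exact h3 (f i) (Submodule.subset_span ⟨i, rfl⟩)
  exact sub_eq_zero.mp h4

end Pool.Agent.FDR.SL.AIMINOR
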