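import Pool.Agent.FDR.SL.Defs

/-!
# FDR / SL module BOUND: conjugates and denominators of the values of iterated derivations

Every polynomial `F` over `K` is majorised by `B * (1 + X_1 + ... + X_n) ^ k`; this majoration is
compatible with sums, products and partial derivatives.
-/

open scoped BigOperators Topology
open Metric Filter

namespace Pool.Agent.FDR.SL.BOUND

open MvPolynomial

noncomputable section

variable {n : ℕ}

/-! ### The majorising polynomial -/

/-- nonnegative coefficients -/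
def NN (F : MvPolynomial (Fin n) ℝ) : Prop := ∀ s, 0 ≤ coeff s F

theorem NN.add {F G : MvPolynomial (Fin n) ℝ} (hF : NN F) (hG : NN G) : NN (F + G) := by
  intro s
  rw [coeff_add]
  exact add_nonneg (hF s) (hG s)

theorem NN.mul {F G : MvPolynomial (Fin n) ℝ} (hF : NN F) (hG : NN G) : NN (F * G) := by
  intro s
  rw [coeff_mul]
  exact Finset.sum_nonneg fun x _ => mul_nonneg (hF _) (hG _)

theorem NN.one : NN (1 : MvPolynomial (Fin n) ℝ) := by
  intro s
  rw [coeff_one]
  split_ifs <;> norm_num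

theorem NN.X (i : Fin n) : NN (X i : MvPolynomial (Fin n) ℝ) := by
  intro s
  rw [coeff_X']
  split_ifs <;> norm_num

theorem NN.sum {κ : Type} (t : Finset κ) (F : κ → MvPolynomial (Fin n) ℝ)
    (h : ∀ i ∈ t, NN (F i)) : NN (∑ i ∈ t, F i) := by
  intro s
  rw [coeff_sum]
  exact Finset.sum_nonneg fun i hi => h i hi s

theorem NN.pow {F : MvPolynomial (Fin n) ℝ} (hF : NN F) (k : ℕ) : NN (F ^ k) := by
  induction k with
  | zero => rw [pow_zero]; exact NN.one
  | succ k ih => rw [pow_succ]; exact ih.mul hF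

/-- `1 + X_1 + ... + X_n` -/
def Lam (n : ℕ) : MvPolynomial (Fin n) ℝ := 1 + ∑ i, X i

theorem NN.Lam : NN (Lam n) := NN.one.add (NN.sum _ _ fun i _ => NN.X i)

theorem Lam_pow_succ (k : ℕ) (s : Fin n →₀ ℕ) :
    coeff s (Lam n ^ k) ≤ coeff s (Lam n ^ (k + 1)) := by
  have h : Lam n ^ (k + 1) = Lam n ^ k + Lam n ^ k * ∑ i, X i := by
    rw [pow_succ]
    conv_lhs => rw [show Lam n ^ k * Lam n = Lam n ^ k * (1 + ∑ i, X i) from rfl]
    rw [mul_add, mul_one]
  rw [h, coeff_add]
  have h2 := ((NN.Lam (n := n)).pow k).mul (NN.sum Finset.univ _ fun i _ => NN.X i) s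
  linarith

theorem Lam_pow_mono {k k' : ℕ} (h : k ≤ k') (s : Fin n →₀ ℕ) :
    coeff s (Lam n ^ k) ≤ coeff s (Lam n ^ k') := by
  induction h with
  | refl => exact le_rfl
  | step _ ih => exact ih.trans (Lam_pow_succ _ s)

theorem pderiv_Lam (i : Fin n) : pderiv i (Lam n) = 1 := by
  unfold Lam
  rw [map_add, pderiv_one, map_sum, zero_add]
  rw [Finset.sum_eq_single i]
  · exact pderiv_X_self i
  · intro j _ hj
    exact pderiv_X_of_ne hj
  · intro h
    exact absurd (Finset.mem_univ i) h

theorem coeff_Lam_pderiv (i : Fin n) (k : ℕ) (s : Fin n →₀ ℕ) :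
    coeff (s + Finsupp.single i 1) (Lam n ^ k) * (s i + 1) ≤ k * coeff s (Lam n ^ k) := by
  rw [← coeff_pderiv, pderiv_pow, pderiv_Lam, mul_one]
  rw [show ((k : MvPolynomial (Fin n) ℝ)) = C (k : ℝ) by rw [map_natCast], coeff_C_mul]
  exact mul_le_mul_of_nonneg_left (Lam_pow_mono (Nat.sub_le k 1) s) (Nat.cast_nonneg k)

theorem coeff_Lam_eq_zero (k : ℕ) : ∀ s : Fin n →₀ ℕ, k < ∑ i, s i → coeff s (Lam n ^ k) = 0 := by
  intro s hs
  by_contra h
  have h1 : s ∈ (Lam n ^ k).support := mem_support_iff.mpr h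
  have h2 := le_totalDegree h1
  have h3 : (Lam n ^ k).totalDegree ≤ k * (Lam n).totalDegree := totalDegree_pow _ _
  have h4 : (Lam n).totalDegree ≤ 1 := by
    unfold Lam
    refine (totalDegree_add _ _).trans (max_le ?_ ?_)
    · rw [totalDegree_one]; exact Nat.zero_le 1
    · refine (totalDegree_finsetSum _ _).trans (Finset.sup_le fun i _ => ?_)
      exact (totalDegree_X i).le
  have h5 : (s.sum fun _ e => e) = ∑ i, s i := Finsupp.sum_fintype _ _ fun _ => rfl
  rw [h5] at h2
  have h6 : k * (Lam n).totalDegree ≤ k * 1 := Nat.mul_le_mul_left k h4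
  omega

/-! ### Majoration and denominators -/

variable {K : Type} [Field K]

/-- `F` is majorised by `B * Lam ^ k` (for all embeddings) and `D ^ k` is a denominator of its
coefficients. -/
structure Good (D : ℕ) (F : MvPolynomial (Fin n) K) (B : ℝ) (k : ℕ) : Prop where
  maj : ∀ σ : K →+* ℂ, ∀ s, ‖σ (coeff s F)‖ ≤ B * coeff s (Lam n ^ k)
  int : ∀ s, IsIntegral ℤ ((D : K) ^ k * coeff s F)

theorem natCast_integral (D : ℕ) : IsIntegral ℤ (D : K) := by
  have := isIntegral_algebraMap (R := ℤ) (A := K) (x := (D : ℤ))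
  simpa using this

theorem Good.mono {D : ℕ} {F : MvPolynomial (Fin n) K} {B B' : ℝ} {k k' : ℕ}
    (h : Good D F B k) (hB : B ≤ B') (hB0 : 0 ≤ B') (hk : k ≤ k') : Good D F B' k' where
  maj σ s := by
    refine (h.maj σ s).trans ?_
    have h1 : B * coeff s (Lam n ^ k) ≤ B' * coeff s (Lam n ^ k) :=
      mul_le_mul_of_nonneg_right hB ((NN.Lam).pow k s)
    exact h1.trans (mul_le_mul_of_nonneg_left (Lam_pow_mono hk s) hB0)
  int s := by
    obtain ⟨j, rfl⟩ := Nat.exists_eq_add_of_le hk
    have e : (D : K) ^ (k + j) * coeff s F = (D : K) ^ j * ((D : K) ^ k * coeff s F) := by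
      rw [pow_add]; ring
    rw [e]
    exact ((natCast_integral D).pow j).mul (h.int s)

theorem Good.dvd {D D' : ℕ} {F : MvPolynomial (Fin n) K} {B : ℝ} {k : ℕ}
    (h : Good D F B k) (hD : D ∣ D') : Good D' F B k where
  maj := h.maj
  int s := by
    obtain ⟨c, rfl⟩ := hD
    have e : ((D * c : ℕ) : K) ^ k * coeff s F = (c : K) ^ k * ((D : K) ^ k * coeff s F) := by
      push_cast
      rw [mul_pow]; ring
    rw [e]
    exact ((natCast_integral c).pow k).mul (h.int s)

theorem Good.add {D : ℕ} {F G : MvPolynomial (Fin n) K} {B B' : ℝ} {k : ℕ}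
    (h : Good D F B k) (h' : Good D G B' k) : Good D (F + G) (B + B') k where
  maj σ s := by
    rw [coeff_add, map_add, add_mul]
    exact (norm_add_le _ _).trans (add_le_add (h.maj σ s) (h'.maj σ s))
  int s := by
    rw [coeff_add, mul_add]
    exact (h.int s).add (h'.int s)

theorem Good.zero (D : ℕ) (k : ℕ) : Good D (0 : MvPolynomial (Fin n) K) 0 k where
  maj σ s := by simp
  int s := by simp [isIntegral_zero]

theorem Good.sum {κ : Type} (t : Finset κ) {D : ℕ} {F : κ → MvPolynomial (Fin n) K} {B : ℝ}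
    {k : ℕ} (h : ∀ i ∈ t, Good D (F i) B k) : Good D (∑ i ∈ t, F i) (t.card * B) k := by
  classical
  induction t using Finset.induction_on with
  | empty => simpa using Good.zero D k
  | insert a t ha ih =>
    rw [Finset.sum_insert ha, Finset.card_insert_of_notMem ha]
    have h1 := (h a (Finset.mem_insert_self a t)).add
      (ih fun i hi => h i (Finset.mem_insert_of_mem hi))
    have e : ((t.card + 1 : ℕ) : ℝ) * B = B + t.card * B := by push_cast; ring
    rw [e]
    exact h1

theorem Good.mul {D : ℕ} {F G : MvPolynomial (Fin n) K} {B B' : ℝ} {k k' : ℕ}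
    (h : Good D F B k) (h' : Good D G B' k') (hB : 0 ≤ B) :
    Good D (F * G) (B * B') (k + k') where
  maj σ s := by
    rw [coeff_mul, map_sum, pow_add, coeff_mul, Finset.mul_sum]
    refine norm_sum_le_of_le _ fun x _ => ?_
    rw [map_mul, norm_mul]
    calc ‖σ (coeff x.1 F)‖ * ‖σ (coeff x.2 G)‖
        ≤ (B * coeff x.1 (Lam n ^ k)) * (B' * coeff x.2 (Lam n ^ k')) :=
          mul_le_mul (h.maj σ _) (h'.maj σ _) (norm_nonneg _)
            (mul_nonneg hB ((NN.Lam).pow k _))
      _ = B * B' * (coeff x.1 (Lam n ^ k) * coeff x.2 (Lam n ^ k')) := by ring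
  int s := by
    rw [coeff_mul, Finset.mul_sum]
    refine IsIntegral.sum _ fun x _ => ?_
    have e : (D : K) ^ (k + k') * (coeff x.1 F * coeff x.2 G) =
        ((D : K) ^ k * coeff x.1 F) * ((D : K) ^ k' * coeff x.2 G) := by
      rw [pow_add]; ring
    rw [e]
    exact (h.int _).mul (h'.int _)

theorem Good.one (D : ℕ) : Good D (1 : MvPolynomial (Fin n) K) 1 0 where
  maj σ s := by
    rw [pow_zero, one_mul, coeff_one, coeff_one]
    split_ifs <;> simp
  int s := by
    rw [pow_zero, one_mul, coeff_one]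
    split_ifs
    · exact isIntegral_one
    · exact isIntegral_zero

theorem Good.pow {D : ℕ} {F : MvPolynomial (Fin n) K} {B : ℝ} {k : ℕ}
    (h : Good D F B k) (hB : 0 ≤ B) (e : ℕ) : Good D (F ^ e) (B ^ e) (k * e) := by
  induction e with
  | zero => simpa using Good.one D
  | succ e ih =>
    rw [pow_succ, pow_succ, Nat.mul_succ]
    exact ih.mul h (pow_nonneg hB e)

theorem Good.prod {D m : ℕ} {Q : Fin m → MvPolynomial (Fin n) K} {B : ℝ} {k : ℕ}
    (h : ∀ i, Good D (Q i) B k) (hB : 0 ≤ B) (e : Fin m → ℕ) (t : Finset (Fin m)) :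
    Good D (∏ i ∈ t, Q i ^ e i) (B ^ (∑ i ∈ t, e i)) (k * ∑ i ∈ t, e i) := by
  classical
  induction t using Finset.induction_on with
  | empty => simpa using Good.one D
  | insert a t ha ih =>
    rw [Finset.prod_insert ha, Finset.sum_insert ha, pow_add, Nat.mul_add]
    exact ((h a).pow hB (e a)).mul ih (pow_nonneg hB _)

theorem Good.pderiv {D : ℕ} {F : MvPolynomial (Fin n) K} {B : ℝ} {k : ℕ}
    (h : Good D F B k) (hB : 0 ≤ B) (i : Fin n) :
    Good D (MvPolynomial.pderiv i F) (B * k) k where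
  maj σ s := by
    rw [coeff_pderiv, map_mul, norm_mul]
    have e : ‖σ ((s i : K) + 1)‖ = (s i : ℝ) + 1 := by
      rw [map_add, map_natCast, map_one]
      have : ((s i : ℂ) + 1) = ((s i + 1 : ℕ) : ℂ) := by push_cast; rfl
      rw [this, Complex.norm_natCast]
      push_cast; rfl
    rw [e]
    calc ‖σ (coeff (s + Finsupp.single i 1) F)‖ * ((s i : ℝ) + 1)
        ≤ (B * coeff (s + Finsupp.single i 1) (Lam n ^ k)) * ((s i : ℝ) + 1) :=
          mul_le_mul_of_nonneg_right (h.maj σ _) (by positivity)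
      _ = B * (coeff (s + Finsupp.single i 1) (Lam n ^ k) * ((s i : ℝ) + 1)) := by ring
      _ ≤ B * (k * coeff s (Lam n ^ k)) :=
          mul_le_mul_of_nonneg_left (coeff_Lam_pderiv i k s) hB
      _ = B * k * coeff s (Lam n ^ k) := by ring
  int s := by
    rw [coeff_pderiv, ← mul_assoc]
    have e : (s i : K) + 1 = ((s i + 1 : ℕ) : K) := by push_cast; rfl
    rw [e]
    exact (h.int _).mul (natCast_integral _)

/-! ### Values -/

theorem eval_norm {D : ℕ} {F : MvPolynomial (Fin n) K} {B : ℝ} {k : ℕ}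
    (h : Good D F B k) (hB : 0 ≤ B) (a : Fin n → K) (A : ℝ) (hA : 0 ≤ A) (σ : K →+* ℂ)
    (ha : ∀ i, ‖σ (a i)‖ ≤ A) : ‖σ (eval a F)‖ ≤ B * (1 + n * A) ^ k := by
  have h1 : eval (fun _ => A) (Lam n ^ k) = (1 + n * A) ^ k := by
    rw [map_pow]
    congr 1
    unfold Lam
    simp
  rw [← h1, eval_eq', eval_eq', map_sum, Finset.mul_sum]
  have h2 : F.support ⊆ (Lam n ^ k).support := by
    intro s hs
    rw [mem_support_iff] at hs ⊢
    intro h0
    apply hs
    have h3 := h.maj σ s
    rw [h0, mul_zero] at h3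
    exact (map_eq_zero σ).mp (norm_le_zero_iff.mp h3)
  refine (norm_sum_le _ _).trans ?_
  calc ∑ s ∈ F.support, ‖σ (coeff s F * ∏ i, a i ^ s i)‖
      ≤ ∑ s ∈ F.support, B * (coeff s (Lam n ^ k) * ∏ i, A ^ s i) := by
        refine Finset.sum_le_sum fun s _ => ?_
        rw [map_mul, norm_mul, map_prod, norm_prod, ← mul_assoc]
        refine mul_le_mul (h.maj σ s) ?_ (Finset.prod_nonneg fun _ _ => norm_nonneg _)
          (mul_nonneg hB ((NN.Lam).pow k s))
        refine Finset.prod_le_prod (fun _ _ => norm_nonneg _) fun i _ => ?_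
        rw [map_pow, norm_pow]
        exact pow_le_pow_left₀ (norm_nonneg _) (ha i) _
    _ ≤ ∑ s ∈ (Lam n ^ k).support, B * (coeff s (Lam n ^ k) * ∏ i, A ^ s i) := by
        refine Finset.sum_le_sum_of_subset_of_nonneg h2 fun s _ _ => ?_
        exact mul_nonneg hB (mul_nonneg ((NN.Lam).pow k s)
          (Finset.prod_nonneg fun _ _ => pow_nonneg hA _))

theorem eval_int {D : ℕ} {F : MvPolynomial (Fin n) K} {B : ℝ} {k : ℕ}
    (h : Good D F B k) (a : Fin n → K) (σ : K →+* ℂ)
    (ha : ∀ i, IsIntegral ℤ ((D : K) * a i)) :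
    IsIntegral ℤ ((D : K) ^ (2 * k) * eval a F) := by
  rw [eval_eq', Finset.mul_sum]
  refine IsIntegral.sum _ fun s hs => ?_
  have hk : ∑ i, s i ≤ k := by
    by_contra hlt
    have h0 := coeff_Lam_eq_zero k s (not_le.mp hlt)
    have h3 := h.maj σ s
    rw [h0, mul_zero] at h3
    exact (mem_support_iff.mp hs) ((map_eq_zero σ).mp (norm_le_zero_iff.mp h3))
  obtain ⟨j, hj⟩ := Nat.exists_eq_add_of_le hk
  have e : (D : K) ^ (2 * k) * (coeff s F * ∏ i, a i ^ s i) =
      ((D : K) ^ k * coeff s F) * ((D : K) ^ j * ∏ i, ((D : K) * a i) ^ s i) := by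
    have e1 : ∏ i, ((D : K) * a i) ^ s i = (D : K) ^ (∑ i, s i) * ∏ i, a i ^ s i := by
      simp_rw [mul_pow]
      rw [Finset.prod_mul_distrib, Finset.prod_pow_eq_pow_sum]
    rw [e1, two_mul, pow_add]
    nth_rewrite 2 [hj]
    rw [pow_add]
    ring
  rw [e]
  refine (h.int s).mul (((natCast_integral D).pow j).mul ?_)
  exact IsIntegral.prod _ fun i _ => (ha i).pow _

/-! ### Iterated derivations -/

theorem good_dops {d D : ℕ} {P : Fin d → Fin n → MvPolynomial (Fin n) K} {B : ℝ} {k : ℕ}
    (hP : ∀ j i, Good D (P j i) B k) (hB : 1 ≤ B) {F : MvPolynomial (Fin n) K} {b : ℝ} {c : ℕ}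
    (hF : Good D F b c) (hb : 0 ≤ b) (l : List (Fin d)) :
    Good D (dops P l F) (b * (n * B * (c + k * l.length)) ^ l.length) (c + k * l.length) := by
  have hB0 : 0 ≤ B := zero_le_one.trans hB
  induction l with
  | nil => simpa using hF
  | cons j l ih =>
    rw [dops_cons]
    unfold dop
    set β : ℝ := b * (n * B * (c + k * l.length)) ^ l.length with hβ
    have hβ0 : 0 ≤ β := by positivity
    have h1 : ∀ i ∈ Finset.univ, Good D (P j i * MvPolynomial.pderiv i (dops P l F))
        (B * (β * ((c + k * l.length : ℕ) : ℝ))) (k + (c + k * l.length)) := by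
      intro i _
      exact (hP j i).mul (ih.pderiv hβ0 i) hB0
    have h2 := Good.sum Finset.univ h1
    rw [Finset.card_univ, Fintype.card_fin] at h2
    refine h2.mono ?_ (by positivity) (by rw [List.length_cons]; ring_nf; exact le_rfl)
    rw [List.length_cons, pow_succ, hβ]
    push_cast
    have h3 : (n * B * ((c : ℝ) + k * l.length)) ≤ n * B * (c + k * (l.length + 1)) := by
      have : (k : ℝ) * l.length ≤ k * (l.length + 1) :=
        mul_le_mul_of_nonneg_left (by linarith) (Nat.cast_nonneg k)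
      exact mul_le_mul_of_nonneg_left (by linarith) (by positivity)
    have h4 : (n * B * ((c : ℝ) + k * l.length)) ^ l.length ≤
        (n * B * (c + k * (l.length + 1))) ^ l.length :=
      pow_le_pow_left₀ (by positivity) h3 _
    calc (n : ℝ) * (B * (b * (n * B * (c + k * l.length)) ^ l.length * (c + k * l.length)))
        = b * ((n * B * (c + k * l.length)) ^ l.length * (n * B * (c + k * l.length))) := by ring
      _ ≤ b * ((n * B * (c + k * (l.length + 1))) ^ l.length *
            (n * B * (c + k * (l.length + 1)))) := by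
          refine mul_le_mul_of_nonneg_left ?_ hb
          exact mul_le_mul h4 h3 (by positivity) (by positivity)

/-! ### Existence of constants -/

section exist

variable [NumberField K]

theorem exists_good (F : MvPolynomial (Fin n) K) : ∃ (D : ℕ) (B : ℝ) (k : ℕ), 0 < D ∧ 1 ≤ B ∧
    1 ≤ k ∧ Good D F B k := by
  classical
  induction F using MvPolynomial.induction_on with
  | C c =>
    have halg : IsAlgebraic ℤ c :=
      (IsFractionRing.isAlgebraic_iff ℤ ℚ K).mpr (Algebra.IsAlgebraic.isAlgebraic c)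
    obtain ⟨y, hy, hint⟩ := halg.exists_integral_multiple
    refine ⟨y.natAbs, 1 + ∑ σ : K →+* ℂ, ‖σ c‖, 1, Int.natAbs_pos.mpr hy, ?_, le_rfl, ?_, ?_⟩
    · have : 0 ≤ ∑ σ : K →+* ℂ, ‖σ c‖ := Finset.sum_nonneg fun _ _ => norm_nonneg _
      linarith
    · intro σ s
      have h1 : ‖σ c‖ ≤ 1 + ∑ σ : K →+* ℂ, ‖σ c‖ := by
        have := Finset.single_le_sum (f := fun τ : K →+* ℂ => ‖τ c‖)
          (fun _ _ => norm_nonneg _) (Finset.mem_univ σ)
        linarith
      rw [coeff_C]
      split_ifs with h0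
      · have h2 : coeff s (Lam n ^ 1) = 1 := by
          rw [← h0]
          unfold Lam
          simp [coeff_one, coeff_sum]
        rw [h2, mul_one]
        exact h1
      · rw [map_zero, norm_zero]
        exact mul_nonneg ((norm_nonneg _).trans h1) ((NN.Lam).pow 1 s)
    · intro s
      rw [pow_one, coeff_C]
      split_ifs
      · rw [zsmul_eq_mul] at hint
        rcases Int.natAbs_eq y with h | h
        · have : ((y.natAbs : ℕ) : K) = (y : K) := by
            have h9 : ((y.natAbs : ℕ) : ℤ) = y := h.symm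
            have h10 := congrArg (Int.cast : ℤ → K) h9
            rwa [Int.cast_natCast] at h10
          rw [this]; exact hint
        · have : ((y.natAbs : ℕ) : K) = -(y : K) := by
            have h9 : ((y.natAbs : ℕ) : ℤ) = -y := by omega
            have h10 := congrArg (Int.cast : ℤ → K) h9
            rwa [Int.cast_natCast, Int.cast_neg] at h10
          rw [this, neg_mul]; exact hint.neg
      · rw [mul_zero]; exact isIntegral_zero
  | add F G hF hG =>
    obtain ⟨D, B, k, hD, hB, hk, h⟩ := hF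
    obtain ⟨D', B', k', hD', hB', hk', h'⟩ := hG
    refine ⟨D * D', B + B', max k k', Nat.mul_pos hD hD', by linarith,
      hk.trans (le_max_left _ _), ?_⟩
    exact ((h.dvd (Dvd.intro _ rfl)).mono le_rfl (by linarith) (le_max_left _ _)).add
      ((h'.dvd (Dvd.intro_left _ rfl)).mono le_rfl (by linarith) (le_max_right _ _))
  | mul_X F i hF =>
    obtain ⟨D, B, k, hD, hB, hk, h⟩ := hF
    have hX : Good D (X i : MvPolynomial (Fin n) K) 1 1 := by
      refine ⟨?_, ?_⟩
      · intro σ s
        rw [pow_one, one_mul]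
        have h1 : coeff s (Lam n) = (if (0 : Fin n →₀ ℕ) = s then 1 else 0) +
            ∑ j, (if Finsupp.single j 1 = s then (1 : ℝ) else 0) := by
          unfold Lam
          rw [coeff_add, coeff_one, coeff_sum]
          simp only [coeff_X']
        rw [h1, coeff_X']
        have h2 : (if Finsupp.single i 1 = s then (1 : ℝ) else 0) ≤
            ∑ j, (if Finsupp.single j 1 = s then (1 : ℝ) else 0) :=
          Finset.single_le_sum (f := fun j => (if Finsupp.single j 1 = s then (1 : ℝ) else 0))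
            (fun j _ => by split_ifs <;> norm_num) (Finset.mem_univ i)
        have h3 : (0 : ℝ) ≤ (if (0 : Fin n →₀ ℕ) = s then 1 else 0) := by
          split_ifs <;> norm_num
        have h4 : ‖σ (if Finsupp.single i 1 = s then (1 : K) else 0)‖ =
            (if Finsupp.single i 1 = s then (1 : ℝ) else 0) := by
          split_ifs <;> simp
        rw [h4]
        linarith
      · intro s
        rw [pow_one, coeff_X']
        split_ifs
        · rw [mul_one]; exact natCast_integral D
        · rw [mul_zero]; exact isIntegral_zero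
    refine ⟨D, B * 1, k + 1, hD, by linarith, by omega, ?_⟩
    exact h.mul hX (by linarith)

theorem exists_good_family {κ : Type} (t : Finset κ) (F : κ → MvPolynomial (Fin n) K) :
    ∃ (D : ℕ) (B : ℝ) (k : ℕ), 0 < D ∧ 1 ≤ B ∧ 1 ≤ k ∧ ∀ i ∈ t, Good D (F i) B k := by
  classical
  induction t using Finset.induction_on with
  | empty => exact ⟨1, 1, 1, one_pos, le_rfl, le_rfl, by simp⟩
  | insert a t ha ih =>
    obtain ⟨D, B, k, hD, hB, hk, h⟩ := ih
    obtain ⟨D', B', k', hD', hB', hk', h'⟩ := exists_good (F a)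
    refine ⟨D * D', B + B', max k k', Nat.mul_pos hD hD', by linarith,
      hk.trans (le_max_left _ _), ?_⟩
    intro i hi
    rcases Finset.mem_insert.mp hi with rfl | hi
    · exact (h'.dvd (Dvd.intro_left _ rfl)).mono (by linarith) (by linarith) (le_max_right _ _)
    · exact ((h i hi).dvd (Dvd.intro _ rfl)).mono (by linarith) (by linarith) (le_max_left _ _)

end exist

theorem thm_BOUND : Stmt_Bound := by
  intro d n m K hK P Q a
  haveI : NumberField K := { to_charZero := inferInstance, to_finiteDimensional := hK }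
  obtain ⟨D₁, B₁, k₁, hD₁, hB₁, hk₁, h₁⟩ :=
    exists_good_family (K := K) Finset.univ (fun x : Fin d × Fin n => P x.1 x.2)
  obtain ⟨D₂, B₂, k₂, hD₂, hB₂, hk₂, h₂⟩ :=
    exists_good_family (K := K) Finset.univ Q
  obtain ⟨D₃, B₃, k₃, hD₃, hB₃, hk₃, h₃⟩ :=
    exists_good_family (K := K) (n := n) Finset.univ (fun i => C (a i))
  set D : ℕ := D₁ * D₂ * D₃ ^ k₃ with hDdef
  have hD : 0 < D := by positivity
  set B : ℝ := B₁ + B₂ with hBdef
  have hB : 1 ≤ B := by linarith
  set k : ℕ := k₁ + k₂ with hkdef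
  have hP : ∀ j i, Good D (P j i) B k := fun j i =>
    ((h₁ (j, i) (Finset.mem_univ _)).dvd (by
      rw [hDdef, mul_assoc]; exact Dvd.intro _ rfl)).mono (by linarith) (by linarith) (by omega)
  have hQ : ∀ i, Good D (Q i) B k := fun i =>
    ((h₂ i (Finset.mem_univ _)).dvd (by
      rw [hDdef]; exact ⟨D₁ * D₃ ^ k₃, by ring⟩)).mono (by linarith) (by linarith) (by omega)
  -- the point `a`
  set A : ℝ := 1 + ∑ σ : K →+* ℂ, ∑ i, ‖σ (a i)‖ with hA
  have hA0 : 0 ≤ A := by
    have : 0 ≤ ∑ σ : K →+* ℂ, ∑ i, ‖σ (a i)‖ :=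
      Finset.sum_nonneg fun _ _ => Finset.sum_nonneg fun _ _ => norm_nonneg _
    linarith
  have haA : ∀ (σ : K →+* ℂ) (i : Fin n), ‖σ (a i)‖ ≤ A := by
    intro σ i
    have h4 : ‖σ (a i)‖ ≤ ∑ i, ‖σ (a i)‖ :=
      Finset.single_le_sum (f := fun i => ‖σ (a i)‖) (fun _ _ => norm_nonneg _)
        (Finset.mem_univ i)
    have h5 : ∑ i, ‖σ (a i)‖ ≤ ∑ τ : K →+* ℂ, ∑ i, ‖τ (a i)‖ :=
      Finset.single_le_sum (f := fun τ : K →+* ℂ => ∑ i, ‖τ (a i)‖)
        (fun _ _ => Finset.sum_nonneg fun _ _ => norm_nonneg _) (Finset.mem_univ σ)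
    linarith
  have haI : ∀ i, IsIntegral ℤ ((D : K) * a i) := by
    intro i
    have h4 := (h₃ i (Finset.mem_univ _)).int 0
    rw [coeff_C, if_pos rfl] at h4
    have e : (D : K) * a i = ((D₁ * D₂ : ℕ) : K) * ((D₃ : K) ^ k₃ * a i) := by
      rw [hDdef]; push_cast; ring
    rw [e]
    exact (natCast_integral _).mul h4
  -- the constants
  set E : ℝ := (n + 1) * B * (2 * k) with hE
  have hk1 : (1 : ℝ) ≤ k := by
    have : 1 ≤ k := by omega
    exact_mod_cast this
  have hE1 : 1 ≤ E := by
    have h4 : (1 : ℝ) ≤ (n + 1) := by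
      have : (0 : ℝ) ≤ n := Nat.cast_nonneg n
      linarith
    have h5 : (1 : ℝ) ≤ (n + 1) * B := one_le_mul_of_one_le_of_one_le h4 hB
    exact one_le_mul_of_one_le_of_one_le h5 (by linarith)
  have hnA : 1 ≤ 1 + n * A := by
    have : 0 ≤ n * A := mul_nonneg (Nat.cast_nonneg n) hA0
    linarith
  refine ⟨B * E * (1 + n * A) ^ (2 * k), D ^ (4 * k), ?_, by positivity, ?_⟩
  · have h4 : 1 ≤ B * E := one_le_mul_of_one_le_of_one_le hB hE1
    exact one_le_mul_of_one_le_of_one_le h4 (one_le_pow₀ hnA)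
  intro l e S he hl hS
  have hB0 : 0 ≤ B := by linarith
  have hF0 : Good D (∏ i, Q i ^ e i) (B ^ S) (k * S) :=
    (Good.prod hQ hB0 e Finset.univ).mono (pow_le_pow_right₀ hB he) (by positivity)
      (Nat.mul_le_mul_left k he)
  have hF := good_dops hP hB hF0 (by positivity) l
  have hSr : (1 : ℝ) ≤ S := by exact_mod_cast hS
  have hlr : (l.length : ℝ) ≤ S := by exact_mod_cast hl
  -- a simpler majoration
  have hF' : Good D (dops P l (∏ i, Q i ^ e i)) (B ^ S * (E * S) ^ l.length) (2 * k * S) := by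
    refine hF.mono ?_ (by positivity) ?_
    · refine mul_le_mul_of_nonneg_left ?_ (by positivity)
      refine pow_le_pow_left₀ (by positivity) ?_ _
      have h4 : (((k * S : ℕ) : ℝ) + k * l.length) ≤ 2 * k * S := by
        push_cast
        have : (k : ℝ) * l.length ≤ k * S := mul_le_mul_of_nonneg_left hlr (by positivity)
        linarith
      have h5 : (n : ℝ) * B ≤ (n + 1) * B := by
        have : (n : ℝ) ≤ n + 1 := by linarith
        exact mul_le_mul_of_nonneg_right this hB0
      calc (n : ℝ) * B * (((k * S : ℕ) : ℝ) + k * l.length)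
          ≤ ((n + 1) * B) * (2 * k * S) := by
            refine mul_le_mul h5 h4 (by positivity) (by positivity)
        _ = E * S := by rw [hE]; ring
    · have : k * l.length ≤ k * S := Nat.mul_le_mul_left k hl
      nlinarith
  constructor
  · intro σ
    have h4 := eval_norm hF' (by positivity) a A hA0 σ (haA σ)
    refine h4.trans ?_
    rw [mul_pow E, mul_pow (B * E), mul_pow B, ← pow_mul]
    have h5 : E ^ l.length ≤ E ^ S := pow_le_pow_right₀ hE1 hl
    have h6 : (0 : ℝ) ≤ (S : ℝ) ^ l.length := by positivity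
    calc B ^ S * (E ^ l.length * (S : ℝ) ^ l.length) * (1 + n * A) ^ (2 * k * S)
        = (E ^ l.length) * (B ^ S * (S : ℝ) ^ l.length * (1 + n * A) ^ (2 * k * S)) := by ring
      _ ≤ (E ^ S) * (B ^ S * (S : ℝ) ^ l.length * (1 + n * A) ^ (2 * k * S)) := by
          refine mul_le_mul_of_nonneg_right h5 (by positivity)
      _ = B ^ S * E ^ S * (1 + n * A) ^ (2 * k * S) * (S : ℝ) ^ l.length := by ring
  · have h4 := eval_int hF' a (K.val : K →+* ℂ) haI
    have e4 : ((D ^ (4 * k) : ℕ) : K) ^ S = (D : K) ^ (2 * (2 * k * S)) := by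
      push_cast
      rw [← pow_mul]
      congr 1
      ring
    rw [e4]
    exact h4

end

end Pool.Agent.FDR.SL.BOUND
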