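import Pool.Agent.FDR.SL.Defs

/-!
# FDR / SL, module DAEV
-/

open scoped BigOperators Topology
open Metric Filter

namespace Pool.Agent.FDR.SL.DAEV

variable {d n : ℕ} {K : Type} [Field K]

theorem dop_add (P : Fin d → Fin n → MvPolynomial (Fin n) K) (j : Fin d)
    (Q R : MvPolynomial (Fin n) K) : dop P j (Q + R) = dop P j Q + dop P j R := by
  simp only [dop, map_add, mul_add, Finset.sum_add_distrib]

theorem dop_C (P : Fin d → Fin n → MvPolynomial (Fin n) K) (j : Fin d) (a : K) :
    dop P j (MvPolynomial.C a) = 0 := by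
  simp only [dop, MvPolynomial.pderiv_C, mul_zero, Finset.sum_const_zero]

theorem dop_mul_X (P : Fin d → Fin n → MvPolynomial (Fin n) K) (j : Fin d)
    (Q : MvPolynomial (Fin n) K) (i : Fin n) :
    dop P j (Q * MvPolynomial.X i) = dop P j Q * MvPolynomial.X i + Q * P j i := by
  classical
  simp only [dop, MvPolynomial.pderiv_mul, MvPolynomial.pderiv_X, mul_add,
    Finset.sum_add_distrib, Finset.sum_mul]
  congr 1
  · refine Finset.sum_congr rfl fun k _ => ?_
    ring
  · rw [Finset.sum_eq_single i]
    · simp [mul_comm]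
    · intro k _ hk
      simp [hk.symm]
    · intro h
      exact absurd (Finset.mem_univ i) h

theorem step {d n : ℕ} (K : IntermediateField ℚ ℂ) (u : Fin d → ℂ)
    (H : (Fin d → ℂ) → (Fin n → ℂ)) (P : Fin d → Fin n → MvPolynomial (Fin n) K) (j : Fin d)
    (w : Fin d → ℂ) (hH : DifferentiableAt ℂ H w)
    (hode : ∀ i, fderiv ℂ (fun w => H w i) w u = MvPolynomial.aeval (H w) (P j i))
    (Q : MvPolynomial (Fin n) K) :
    DifferentiableAt ℂ (fun w => MvPolynomial.aeval (H w) Q) w ∧
      fderiv ℂ (fun w => MvPolynomial.aeval (H w) Q) w u =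
        MvPolynomial.aeval (H w) (dop P j Q) := by
  induction Q using MvPolynomial.induction_on with
  | C a =>
    refine ⟨?_, ?_⟩
    · simp only [MvPolynomial.aeval_C]
      exact differentiableAt_const _
    · rw [dop_C]
      simp only [MvPolynomial.aeval_C, map_zero]
      simp
  | add p q hp hq =>
    refine ⟨?_, ?_⟩
    · simp only [map_add]
      exact hp.1.add hq.1
    · simp only [map_add, dop_add]
      rw [fderiv_fun_add hp.1 hq.1]
      rw [← hp.2, ← hq.2]
      rfl
  | mul_X p i hp =>
    have hi : DifferentiableAt ℂ (fun w => H w i) w := differentiableAt_pi.1 hH i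
    refine ⟨?_, ?_⟩
    · simp only [map_mul, MvPolynomial.aeval_X]
      exact hp.1.mul hi
    · simp only [map_mul, MvPolynomial.aeval_X, dop_mul_X, map_add]
      rw [fderiv_fun_mul hp.1 hi]
      rw [← hp.2, ← hode i]
      simp only [FunLike.coe_add, FunLike.coe_smul, Pi.add_apply, Pi.smul_apply, smul_eq_mul]
      ring

theorem thm_DAEV : Stmt_DAev := by
  intro d n K v H P hH hode Q l
  have hall : ∀ᶠ w in 𝓝 (0 : Fin d → ℂ), ∀ j i,
      fderiv ℂ (fun w => H w i) w (v j) = MvPolynomial.aeval (H w) (P j i) := by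
    rw [eventually_all]
    intro j
    rw [eventually_all]
    exact hode j
  have hdiff : ∀ᶠ w in 𝓝 (0 : Fin d → ℂ), DifferentiableAt ℂ H w := by
    filter_upwards [hH.eventually_analyticAt] with w hw
    exact hw.differentiableAt
  induction l with
  | nil => exact Eventually.of_forall fun w => rfl
  | cons j l ih =>
    filter_upwards [ih.eventually_nhds, hall, hdiff] with w hw h1 h2
    simp only [List.map_cons, dir_cons, dops_cons]
    have e : dir (l.map v) (fun w => MvPolynomial.aeval (H w) Q) =ᶠ[𝓝 w]
        fun w => MvPolynomial.aeval (H w) (dops P l Q) := hw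
    rw [e.fderiv_eq]
    exact (step K (v j) H P j w h2 (h1 j) (dops P l Q)).2

end Pool.Agent.FDR.SL.DAEV
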