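import Pool.Agent.FDR.SL.Defs

open scoped BigOperators Polynomial Topology
open Metric Filter

namespace Pool.Agent.FDR.SL.DBASIS

noncomputable section

theorem eq_sum_stdv {d : ℕ} (u : Fin d → ℂ) : u = ∑ s, u s • stdv s := by
  funext i
  simp only [Finset.sum_apply, Pi.smul_apply, stdv, smul_eq_mul, Pi.single_apply]
  simp

theorem key {d : ℕ} (v : Fin d → (Fin d → ℂ)) {Φ : (Fin d → ℂ) → ℂ} (hΦ : AnalyticAt ℂ Φ 0)
    (l : List (Fin d)) (j : Fin d) :
    dir ((l ++ [j]).map v) Φ 0 =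
      ∑ s, v j s * dir (l.map v) (dir [stdv s] Φ) 0 := by
  have h1 : dir [v j] Φ = fun y => ∑ s, v j s * dir [stdv s] Φ y := by
    funext y
    conv_lhs => rw [eq_sum_stdv (v j)]
    exact dir_cons_sum Finset.univ (fun s => v j s) (fun s => stdv s) [] Φ y
  have h2 : ∀ s : Fin d, AnalyticAt ℂ (dir [stdv s] Φ) 0 := fun s => dir_analyticAt hΦ _
  have h3 := (dir_sum Finset.univ (Φ := fun s y => v j s * dir [stdv s] Φ y) (x := 0)
    (fun s _ => analyticAt_const.mul (h2 s)) (l.map v)).eq_of_nhds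
  rw [List.map_append, dir_append, List.map_singleton, h1, h3]
  apply Finset.sum_congr rfl
  intro s _
  exact (dir_const_mul (h2 s) (v j s) (l.map v)).eq_of_nhds

theorem thm_DBASIS : Stmt_DBasis := by
  intro d hd v
  have : Nonempty (Fin d) := ⟨⟨0, hd⟩⟩
  have hC0 : 0 ≤ ∑ j, ∑ s, ‖v j s‖ :=
    Finset.sum_nonneg fun j _ => Finset.sum_nonneg fun s _ => norm_nonneg _
  refine ⟨1 + ∑ j, ∑ s, ‖v j s‖, by linarith, ?_⟩
  intro Φ hΦ l
  induction l using List.reverseRecOn generalizing Φ with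
  | nil => exact ⟨[], rfl, by simp⟩
  | append_singleton l j ih =>
    obtain ⟨s, hs⟩ := Finite.exists_max (fun s : Fin d => ‖dir (l.map v) (dir [stdv s] Φ) 0‖)
    obtain ⟨l1, hl1, h1⟩ := ih (dir [stdv s] Φ) (dir_analyticAt hΦ _)
    refine ⟨l1 ++ [s], by simp [hl1], ?_⟩
    rw [key v hΦ, List.map_append, dir_append (l1.map stdv), List.map_singleton,
      List.length_append, List.length_singleton, pow_succ]
    set C : ℝ := 1 + ∑ j, ∑ s, ‖v j s‖ with hC
    have hCj : ∑ s, ‖v j s‖ ≤ C := by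
      have h2 : ∑ s, ‖v j s‖ ≤ ∑ j, ∑ s, ‖v j s‖ :=
        Finset.single_le_sum (f := fun j => ∑ s, ‖v j s‖)
          (fun j _ => Finset.sum_nonneg fun s _ => norm_nonneg _) (Finset.mem_univ j)
      linarith
    calc ‖∑ s', v j s' * dir (l.map v) (dir [stdv s'] Φ) 0‖
        ≤ ∑ s', ‖v j s' * dir (l.map v) (dir [stdv s'] Φ) 0‖ := norm_sum_le _ _
      _ ≤ ∑ s', ‖v j s'‖ * ‖dir (l.map v) (dir [stdv s] Φ) 0‖ := by
        apply Finset.sum_le_sum
        intro s' _
        rw [norm_mul]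
        exact mul_le_mul_of_nonneg_left (hs s') (norm_nonneg _)
      _ = (∑ s', ‖v j s'‖) * ‖dir (l.map v) (dir [stdv s] Φ) 0‖ := by
        rw [Finset.sum_mul]
      _ ≤ C * (C ^ l.length * ‖dir (l1.map stdv) (dir [stdv s] Φ) 0‖) := by
        apply mul_le_mul hCj h1 (norm_nonneg _)
        linarith
      _ = C ^ l.length * C * ‖dir (l1.map stdv) (dir [stdv s] Φ) 0‖ := by ring

end

end Pool.Agent.FDR.SL.DBASIS
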