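import Pool.Agent.FDR.SL.Defs

/-!
# FDR / SL / DCAU: Cauchy estimates for iterated directional derivatives
-/

open scoped BigOperators Polynomial Topology
open Metric Filter

namespace Pool.Agent.FDR.SL.DCAU

open Pool.Agent.FDR

noncomputable section

theorem norm_stdv_le {d : ℕ} (s : Fin d) : ‖stdv s‖ ≤ 1 := by
  rw [pi_norm_le_iff_of_nonneg zero_le_one]
  intro i
  unfold stdv
  by_cases h : i = s
  · subst h
    simp
  · rw [Pi.single_eq_of_ne h]
    simp

theorem step {d : ℕ} {R B : ℝ} {Ψ : (Fin d → ℂ) → ℂ}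
    (hΨ : AnalyticOnNhd ℂ Ψ (ball 0 R)) (hB : ∀ z ∈ ball (0 : Fin d → ℂ) R, ‖Ψ z‖ ≤ B)
    {r : ℝ} (hr : r + 1 ≤ R) {m : ℕ} (hm : 0 < m) :
    ∀ l : List (Fin d), l.length ≤ m → ∀ z : Fin d → ℂ, ‖z‖ < r + 1 - (l.length : ℝ) / m →
      ‖dir (l.map stdv) Ψ z‖ ≤ (m : ℝ) ^ l.length * B := by
  have hm' : (0 : ℝ) < m := by exact_mod_cast hm
  intro l
  induction l with
  | nil =>
    intro _ z hz
    simp only [List.map_nil, dir_nil, List.length_nil, pow_zero, one_mul]
    apply hB
    rw [mem_ball_zero_iff]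
    simp only [List.length_nil, Nat.cast_zero, zero_div, sub_zero] at hz
    linarith
  | cons s l ih =>
    intro hlen z hz
    simp only [List.length_cons] at hlen hz ⊢
    have ih' := ih (by omega)
    have hzz : ‖z‖ + 1 / (m : ℝ) < r + 1 - (l.length : ℝ) / m := by
      have : ((l.length + 1 : ℕ) : ℝ) / m = (l.length : ℝ) / m + 1 / m := by
        push_cast
        rw [add_div]
      rw [this] at hz
      linarith
    have hball : ∀ t : ℂ, ‖t‖ ≤ 1 / (m : ℝ) → ‖z + t • stdv s‖ < r + 1 - (l.length : ℝ) / m := by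
      intro t ht
      have h1 : ‖z + t • stdv s‖ ≤ ‖z‖ + ‖t • stdv s‖ := norm_add_le _ _
      have h2 : ‖t • stdv s‖ ≤ 1 / (m : ℝ) := by
        rw [norm_smul]
        calc ‖t‖ * ‖stdv s‖ ≤ ‖t‖ * 1 := by
              apply mul_le_mul_of_nonneg_left (norm_stdv_le s) (norm_nonneg _)
          _ = ‖t‖ := mul_one _
          _ ≤ _ := ht
      linarith
    have hlm : (0 : ℝ) ≤ (l.length : ℝ) / m := by positivity
    have hdiff : ∀ t : ℂ, ‖t‖ ≤ 1 / (m : ℝ) →
        DifferentiableAt ℂ (fun t : ℂ => dir (l.map stdv) Ψ (z + t • stdv s)) t := by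
      intro t ht
      have h1 : AnalyticAt ℂ (dir (l.map stdv) Ψ) (z + t • stdv s) := by
        apply dir_analyticAt
        apply hΨ
        rw [mem_ball_zero_iff]
        have := hball t ht
        linarith
      have h2 : DifferentiableAt ℂ (fun t : ℂ => z + t • stdv s) t := by fun_prop
      exact h1.differentiableAt.comp t h2
    have hpos : (0 : ℝ) < 1 / m := by positivity
    have hder : deriv (fun t : ℂ => dir (l.map stdv) Ψ (z + t • stdv s)) 0 =
        fderiv ℂ (dir (l.map stdv) Ψ) z (stdv s) := by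
      have h1 : AnalyticAt ℂ (dir (l.map stdv) Ψ) z := by
        apply dir_analyticAt
        apply hΨ
        rw [mem_ball_zero_iff]
        linarith
      have h2 : HasDerivAt (fun t : ℂ => z + t • stdv s) (stdv s) 0 := by
        have h3 : HasDerivAt (fun t : ℂ => t • stdv s) ((1 : ℂ) • stdv s) 0 :=
          (hasDerivAt_id (0 : ℂ)).smul_const (stdv s)
        rw [one_smul] at h3
        exact h3.const_add z
      have h4 : HasFDerivAt (dir (l.map stdv) Ψ) (fderiv ℂ (dir (l.map stdv) Ψ) z)
          (z + (0 : ℂ) • stdv s) := by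
        rw [zero_smul, add_zero]
        exact h1.differentiableAt.hasFDerivAt
      exact (h4.comp_hasDerivAt (0 : ℂ) h2).deriv
    have hcau := Complex.norm_deriv_le_of_forall_mem_sphere_norm_le (c := (0 : ℂ))
      (R := 1 / (m : ℝ)) (C := (m : ℝ) ^ l.length * B)
      (f := fun t : ℂ => dir (l.map stdv) Ψ (z + t • stdv s)) hpos ?_ ?_
    · rw [hder] at hcau
      simp only [List.map_cons, dir_cons]
      refine hcau.trans (le_of_eq ?_)
      rw [pow_succ]
      field_simp
    · apply DifferentiableOn.diffContOnCl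
      rw [closure_ball _ hpos.ne']
      intro t ht
      apply (hdiff t ?_).differentiableWithinAt
      simpa using ht
    · intro t ht
      apply ih'
      apply hball
      rw [mem_sphere_zero_iff_norm] at ht
      exact ht.le

theorem thm_DCAU : Stmt_DCau := by
  intro d R B Ψ hΨ hB l r hr z hz
  rw [mem_ball_zero_iff] at hz
  rcases Nat.eq_zero_or_pos l.length with h0 | hpos
  · have hl : l = [] := List.length_eq_zero_iff.mp h0
    subst hl
    simp only [List.map_nil, dir_nil, List.length_nil, pow_zero, one_mul]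
    apply hB
    rw [mem_ball_zero_iff]
    linarith
  · have hm' : (l.length : ℝ) ≠ 0 := by
      have : (0 : ℝ) < l.length := by exact_mod_cast hpos
      exact this.ne'
    apply step hΨ hB hr hpos l le_rfl z
    rw [div_self hm']
    linarith

end

end Pool.Agent.FDR.SL.DCAU
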