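import Pool.Agent.FDR.SL.Defs

/-! Module SL_DLINE. -/

set_option autoImplicit false

open scoped BigOperators Polynomial Topology
open Metric Filter

namespace Pool.Agent.FDR.SL.DLINE

theorem line_tendsto {E : Type} [NormedAddCommGroup E] [NormedSpace ℂ E] (x u : E) :
    Tendsto (fun t : ℂ => x + t • u) (𝓝 0) (𝓝 x) := by
  have h : Continuous fun t : ℂ => x + t • u := by fun_prop
  have h2 := h.tendsto 0
  simpa using h2

theorem line_eventually {E : Type} [NormedAddCommGroup E] [NormedSpace ℂ E]
    {Φ : E → ℂ} {x : E} (u : E) (h : AnalyticAt ℂ Φ x) (k : ℕ) :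
    (iteratedDeriv k fun t : ℂ => Φ (x + t • u)) =ᶠ[𝓝 0]
      fun t => dir (List.replicate k u) Φ (x + t • u) := by
  induction k with
  | zero => simp [iteratedDeriv_zero]
  | succ k ih =>
    rw [iteratedDeriv_succ]
    have h1 : ∀ᶠ t : ℂ in 𝓝 0, AnalyticAt ℂ (dir (List.replicate k u) Φ) (x + t • u) :=
      (line_tendsto x u).eventually (dir_analyticAt h _).eventually_analyticAt
    filter_upwards [ih.eventuallyEq_nhds, h1] with t ht h1
    rw [ht.deriv_eq, List.replicate_succ, dir_cons]
    have h2 : HasDerivAt (fun s : ℂ => x + s • u) u t := by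
      have := ((hasDerivAt_id t).smul_const u).const_add x
      simpa using this
    have h3 := h1.differentiableAt.hasFDerivAt.comp_hasDerivAt t h2
    exact h3.deriv

theorem thm_DLINE : Stmt_DLine := by
  intro E _ _ Φ x u h k
  have := (line_eventually u h k).eq_of_nhds
  simpa using this

end Pool.Agent.FDR.SL.DLINE
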