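import Pool.Agent.FDR.SL.Defs

/-! Module SL_DORDA. -/

set_option autoImplicit false

open scoped BigOperators Polynomial Topology
open Metric Filter

namespace Pool.Agent.FDR.SL.DORDA

section general

variable {E : Type} [NormedAddCommGroup E] [NormedSpace ℂ E]

theorem dir_eq_iteratedFDeriv {Φ : E → ℂ} {x : E} (h : AnalyticAt ℂ Φ x) (l : List E) :
    ∀ᶠ y in 𝓝 x, dir l Φ y = iteratedFDeriv ℂ l.length Φ y l.get := by
  induction l with
  | nil =>
    refine Eventually.of_forall fun y => ?_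
    simp
  | cons u l ih =>
    have ih' : dir l Φ =ᶠ[𝓝 x] fun y => iteratedFDeriv ℂ l.length Φ y l.get := ih
    filter_upwards [ih'.eventuallyEq_nhds, h.eventually_analyticAt] with y hy hΦ
    rw [dir_cons, hy.fderiv_eq]
    have h1 : DifferentiableAt ℂ (iteratedFDeriv ℂ l.length Φ) y :=
      (hΦ.contDiffAt (n := (⊤ : WithTop ℕ∞))).differentiableAt_iteratedFDeriv (WithTop.coe_lt_top _)
    have h2 := h1.iteratedFDeriv_succ_apply_left' (m := (u :: l).get)
    exact h2.symm

theorem dir_eq {Φ : E → ℂ} {x : E} (h : AnalyticAt ℂ Φ x) {n : ℕ} (m : Fin n → E) :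
    dir (List.ofFn m) Φ x = iteratedFDeriv ℂ n Φ x m := by
  have h1 := (dir_eq_iteratedFDeriv h (List.ofFn m)).self_of_nhds
  rw [h1]
  have key : ∀ (k : ℕ) (hk : k = n) (m' : Fin k → E),
      (∀ i : Fin k, m' i = m (Fin.cast hk i)) →
      iteratedFDeriv ℂ k Φ x m' = iteratedFDeriv ℂ n Φ x m := by
    intro k hk m' hm
    subst hk
    congr 1
    funext i
    exact hm i
  refine key _ List.length_ofFn _ fun i => ?_
  simp only [List.get_ofFn]

end general

theorem iterated_zero {d : ℕ} {v : Fin d → (Fin d → ℂ)} (hv : LinearIndependent ℂ v)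
    {Φ : (Fin d → ℂ) → ℂ} {x : Fin d → ℂ} (h : AnalyticAt ℂ Φ x) (k : ℕ)
    (h0 : ∀ l : List (Fin d), l.length = k → dir (l.map v) Φ x = 0) :
    ∀ y : Fin d → ℂ, iteratedFDeriv ℂ k Φ x (fun _ => y) = 0 := by
  rcases Nat.eq_zero_or_pos d with hd | hd
  · subst hd
    intro y
    rcases Nat.eq_zero_or_pos k with hk | hk
    · subst hk
      have h1 := h0 [] rfl
      simpa using h1
    · exact (iteratedFDeriv ℂ k Φ x).map_coord_zero ⟨0, hk⟩ (Subsingleton.elim _ _)
  · have : Nonempty (Fin d) := ⟨⟨0, hd⟩⟩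
    let B : Module.Basis (Fin d) ℂ (Fin d → ℂ) :=
      basisOfLinearIndependentOfCardEqFinrank hv (by simp)
    have hB : ∀ i, B i = v i := fun i => by
      simp [B]
    have h2 : (iteratedFDeriv ℂ k Φ x).toMultilinearMap = 0 := by
      refine Module.Basis.ext_multilinear (fun _ => B) fun w => ?_
      have h3 := h0 (List.ofFn w) List.length_ofFn
      have h4 : (List.ofFn w).map v = List.ofFn fun i => v (w i) := by
        rw [List.map_ofFn]
        rfl
      rw [h4, dir_eq h] at h3
      simp only [hB]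
      exact h3
    intro y
    have h5 := congrArg (fun F => F (fun _ => y)) h2
    exact h5

theorem thm_DORDA : Stmt_DOrdA := by
  intro d v hv Φ x h M h0
  obtain ⟨p, hp⟩ := h
  have hp0 : ∀ k < M, ∀ y, p k (fun _ => y) = 0 := by
    intro k hk y
    obtain ⟨r, hr⟩ := hp
    have h1 := hr.factorial_smul (y := y) k
    rw [iterated_zero hv ⟨p, r, hr⟩ k (fun l hl => h0 l (by omega)) y] at h1
    rw [nsmul_eq_mul] at h1
    exact (mul_eq_zero.mp h1).resolve_left (by exact_mod_cast k.factorial_ne_zero)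
  have h2 := hp.isBigO_sub_partialSum_pow M
  refine h2.congr_left fun y => ?_
  rw [FormalMultilinearSeries.partialSum, Finset.sum_eq_zero, sub_zero]
  intro k hk
  exact hp0 k (Finset.mem_range.mp hk) y

end Pool.Agent.FDR.SL.DORDA
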