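import Pool.Agent.FDR.SL.DORDA

/-! Module SL_DORDB. -/

set_option autoImplicit false

open scoped BigOperators Polynomial Topology
open Metric Filter

namespace Pool.Agent.FDR.SL.DORDB

theorem thm_DORDB : Stmt_DOrdB := by
  intro d v hv Φ x h h0
  obtain ⟨p, r, hr⟩ := h
  have h1 : ∀ k y, iteratedFDeriv ℂ k Φ x (fun _ => y) = 0 := fun k =>
    DORDA.iterated_zero hv ⟨p, r, hr⟩ k (fun l _ => h0 l)
  have h2 : ∀ᶠ y in 𝓝 x, y ∈ Metric.eball x r := Metric.eball_mem_nhds x hr.r_pos
  filter_upwards [h2] with y hy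
  have h3 : y - x ∈ Metric.eball (0 : Fin d → ℂ) r := by
    simpa [edist_eq_enorm_sub] using hy
  have h4 := hr.hasSum_iteratedFDeriv h3
  simp only [h1, smul_zero] at h4
  have h5 := h4.unique hasSum_zero
  simpa using h5

end Pool.Agent.FDR.SL.DORDB
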