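import Pool.Agent.FDR.SL.Defs

/-!
FDR/SL/DORDC (helper92): derivatives lower the order of vanishing at most by one.
-/

open scoped BigOperators Polynomial Topology
open Metric Filter Asymptotics

namespace Pool.Agent.FDR.SL.DORDC

variable {E : Type} [NormedAddCommGroup E] [NormedSpace ℂ E]

theorem cauchy (Φ : E → ℂ) (x u : E) (C δ : ℝ) (M : ℕ) (hC : 0 ≤ C)
    (h : ∀ w ∈ ball (0 : E) δ, ‖Φ (x + w)‖ ≤ C * ‖w‖ ^ M ∧ AnalyticAt ℂ Φ (x + w))
    (w : E) (ρ : ℝ) (hρ : 0 < ρ) (hw : ‖w‖ + ρ * ‖u‖ < δ) :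
    ‖fderiv ℂ Φ (x + w) u‖ ≤ C * (‖w‖ + ρ * ‖u‖) ^ M / ρ := by
  have hmem : ∀ t : ℂ, ‖t‖ ≤ ρ → ‖w + t • u‖ ≤ ‖w‖ + ρ * ‖u‖ := by
    intro t ht
    refine (norm_add_le _ _).trans ?_
    rw [norm_smul]
    gcongr
  have hball : ∀ t : ℂ, ‖t‖ ≤ ρ → w + t • u ∈ ball (0 : E) δ := by
    intro t ht
    simpa using lt_of_le_of_lt (hmem t ht) hw
  have hline : ∀ t : ℂ, HasDerivAt (fun t : ℂ => x + (w + t • u)) u t := by
    intro t
    have h1 : HasDerivAt (fun t : ℂ => t • u) ((1 : ℂ) • u) t := (hasDerivAt_id t).smul_const u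
    rw [one_smul] at h1
    exact (h1.const_add w).const_add x
  have hder : ∀ t : ℂ, ‖t‖ ≤ ρ →
      HasDerivAt (fun t : ℂ => Φ (x + (w + t • u))) (fderiv ℂ Φ (x + (w + t • u)) u) t := by
    intro t ht
    have h2 := (h _ (hball t ht)).2.differentiableAt.hasFDerivAt
    exact h2.comp_hasDerivAt t (hline t)
  have hdiff : DiffContOnCl ℂ (fun t : ℂ => Φ (x + (w + t • u))) (ball 0 ρ) := by
    refine DifferentiableOn.diffContOnCl ?_
    intro t ht
    have ht' : ‖t‖ ≤ ρ := by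
      have := closure_ball_subset_closedBall ht
      simpa using this
    exact (hder t ht').differentiableAt.differentiableWithinAt
  have hd0 := hder 0 (by simpa using hρ.le)
  rw [zero_smul, add_zero] at hd0
  have key := Complex.norm_deriv_le_of_forall_mem_sphere_norm_le hρ hdiff
    (C := C * (‖w‖ + ρ * ‖u‖) ^ M) ?_
  · rw [hd0.deriv] at key
    exact key
  · intro t ht
    have ht' : ‖t‖ = ρ := by simpa using ht
    refine (h _ (hball t ht'.le)).1.trans ?_
    gcongr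
    exact hmem t ht'.le

theorem step (Φ : E → ℂ) (x u : E) (hΦ : AnalyticAt ℂ Φ x) (M : ℕ)
    (h : (fun w => Φ (x + w)) =O[𝓝 0] (fun w => ‖w‖ ^ M)) :
    (fun w => fderiv ℂ Φ (x + w) u) =O[𝓝 0] (fun w => ‖w‖ ^ (M - 1)) := by
  have hx : Tendsto (fun w : E => x + w) (𝓝 0) (𝓝 x) := by
    have : Tendsto (fun w : E => x + w) (𝓝 0) (𝓝 (x + 0)) :=
      (continuous_const.add continuous_id).tendsto 0
    simpa using this
  rcases Nat.lt_or_ge 1 M with hM | hM
  · obtain ⟨C, hC, hCw⟩ := h.exists_pos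
    have h1 := hCw.bound
    have h2 := hx.eventually hΦ.eventually_analyticAt
    obtain ⟨δ, hδ, hδ'⟩ := Metric.eventually_nhds_iff_ball.1 (h1.and h2)
    have hh : ∀ w ∈ ball (0 : E) δ, ‖Φ (x + w)‖ ≤ C * ‖w‖ ^ M ∧ AnalyticAt ℂ Φ (x + w) := by
      intro w hw
      refine ⟨?_, (hδ' w hw).2⟩
      simpa using (hδ' w hw).1
    have hcau := cauchy Φ x u C δ M hC.le hh
    refine IsBigO.of_bound (C * 2 ^ M * (1 + ‖u‖)) ?_
    have hsmall : ∀ᶠ w in 𝓝 (0 : E), ‖w‖ < δ / 2 := by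
      have : ∀ᶠ w in 𝓝 (0 : E), w ∈ ball (0 : E) (δ / 2) := ball_mem_nhds _ (by linarith)
      filter_upwards [this] with w hw
      simpa using hw
    filter_upwards [hsmall] with w hw
    have hu : (0 : ℝ) ≤ ‖u‖ := norm_nonneg u
    rcases eq_or_ne w 0 with rfl | hw0
    · -- the value at the centre vanishes
      have hzero : ‖fderiv ℂ Φ (x + 0) u‖ ≤ 0 := by
        have hlim : Tendsto (fun ρ : ℝ => C * ‖u‖ ^ M * ρ ^ (M - 1)) (𝓝[>] 0) (𝓝 0) := by
          have h3 : Tendsto (fun ρ : ℝ => C * ‖u‖ ^ M * ρ ^ (M - 1)) (𝓝 0)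
              (𝓝 (C * ‖u‖ ^ M * 0 ^ (M - 1))) :=
            (continuous_const.mul (continuous_id.pow (M - 1))).tendsto 0
          rw [zero_pow (by omega), mul_zero] at h3
          exact h3.mono_left nhdsWithin_le_nhds
        refine ge_of_tendsto hlim ?_
        have h4 : ∀ᶠ ρ in 𝓝[>] (0 : ℝ), ρ * ‖u‖ < δ := by
          have h5 : Tendsto (fun ρ : ℝ => ρ * ‖u‖) (𝓝 0) (𝓝 (0 * ‖u‖)) :=
            (continuous_id.mul continuous_const).tendsto 0
          rw [zero_mul] at h5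
          exact (h5.eventually (gt_mem_nhds hδ)).filter_mono nhdsWithin_le_nhds
        filter_upwards [h4, self_mem_nhdsWithin] with ρ hρ1 hρ2
        have hρ2' : (0 : ℝ) < ρ := hρ2
        have h6 := hcau 0 ρ hρ2' (by simpa using hρ1)
        refine h6.trans (le_of_eq ?_)
        rw [norm_zero, zero_add, mul_pow]
        obtain ⟨m, rfl⟩ : ∃ m, M = m + 1 := ⟨M - 1, by omega⟩
        rw [Nat.add_sub_cancel]
        field_simp
        ring
      have h7 : ‖fderiv ℂ Φ (x + 0) u‖ = 0 := le_antisymm hzero (norm_nonneg _)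
      rw [h7]
      positivity
    · have hwp : 0 < ‖w‖ := norm_pos_iff.2 hw0
      have h1u : 0 < 1 + ‖u‖ := by linarith
      have hρ : 0 < ‖w‖ / (1 + ‖u‖) := div_pos hwp h1u
      have hρu : ‖w‖ / (1 + ‖u‖) * ‖u‖ ≤ ‖w‖ := by
        rw [div_mul_eq_mul_div, div_le_iff₀ h1u]
        nlinarith
      have h8 := hcau w _ hρ (by linarith)
      refine h8.trans ?_
      have h9 : C * (‖w‖ + ‖w‖ / (1 + ‖u‖) * ‖u‖) ^ M / (‖w‖ / (1 + ‖u‖))
          ≤ C * (2 * ‖w‖) ^ M / (‖w‖ / (1 + ‖u‖)) := by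
        gcongr
        linarith
      refine h9.trans (le_of_eq ?_)
      rw [norm_pow, norm_norm]
      obtain ⟨m, rfl⟩ : ∃ m, M = m + 1 := ⟨M - 1, by omega⟩
      rw [Nat.add_sub_cancel]
      field_simp
      ring
  · have hM0 : M - 1 = 0 := by omega
    rw [hM0]
    simp only [pow_zero]
    have hcont : ContinuousAt (fun y => fderiv ℂ Φ y u) x := by
      have h1 : ContinuousAt (fderiv ℂ Φ) x := hΦ.fderiv.continuousAt
      exact h1.clm_apply continuousAt_const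
    have h2 : Tendsto (fun w => fderiv ℂ Φ (x + w) u) (𝓝 0) (𝓝 (fderiv ℂ Φ x u)) :=
      hcont.tendsto.comp hx
    exact h2.isBigO_one ℝ

theorem thm_DORDC : Stmt_DOrdC := by
  intro E _ _ Φ x hΦ M h l
  induction l with
  | nil => simpa using h
  | cons u l ih =>
    have h1 := step (dir l Φ) x u (dir_analyticAt hΦ l) (M - l.length) ih
    have h2 : M - (u :: l).length = M - l.length - 1 := by
      rw [List.length_cons]; omega
    rw [h2]
    exact h1

end Pool.Agent.FDR.SL.DORDC
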