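import Pool.Agent.FDR.SL.Defs

/-! Module SL_DPERM. -/

set_option autoImplicit false

open scoped BigOperators Polynomial Topology
open Metric Filter

namespace Pool.Agent.FDR.SL.DPERM

theorem fderiv_fderiv_apply {E : Type} [NormedAddCommGroup E] [NormedSpace ℂ E] {Φ : E → ℂ}
    {x : E} (h : AnalyticAt ℂ Φ x) (u v : E) :
    fderiv ℂ (fun y => fderiv ℂ Φ y v) x u = fderiv ℂ (fderiv ℂ Φ) x u v := by
  have h1 : DifferentiableAt ℂ (fderiv ℂ Φ) x := h.fderiv.differentiableAt
  rw [fderiv_clm_apply h1 (differentiableAt_const v)]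
  simp

theorem swap {E : Type} [NormedAddCommGroup E] [NormedSpace ℂ E] {Φ : E → ℂ}
    {x : E} (h : AnalyticAt ℂ Φ x) (u v : E) (l : List E) :
    dir (u :: v :: l) Φ x = dir (v :: u :: l) Φ x := by
  have h1 := dir_analyticAt h l
  have h2 : ∀ a b : E, dir (a :: b :: l) Φ x = fderiv ℂ (fderiv ℂ (dir l Φ)) x a b := by
    intro a b
    exact fderiv_fderiv_apply h1 a b
  rw [h2, h2]
  have h3 : IsSymmSndFDerivAt ℂ (dir l Φ) x :=
    ContDiffAt.isSymmSndFDerivAt (n := 2) h1.contDiffAt (by simp)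
  exact h3 u v

theorem perm_eventually {E : Type} [NormedAddCommGroup E] [NormedSpace ℂ E] {Φ : E → ℂ}
    {x : E} (h : AnalyticAt ℂ Φ x) {l l' : List E} (hp : l.Perm l') :
    dir l Φ =ᶠ[𝓝 x] dir l' Φ := by
  induction hp with
  | nil => exact EventuallyEq.rfl
  | cons u _ ih =>
    filter_upwards [ih.eventuallyEq_nhds] with y hy
    rw [dir_cons, dir_cons, hy.fderiv_eq]
  | swap u v l =>
    filter_upwards [h.eventually_analyticAt] with y hy
    exact swap hy _ _ _
  | trans _ _ ih1 ih2 => exact ih1.trans ih2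

theorem thm_DPERM : Stmt_DPerm := by
  intro E _ _ Φ x h l l' hp
  exact (perm_eventually h hp).eq_of_nhds

end Pool.Agent.FDR.SL.DPERM
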