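import Pool.Agent.FDR.SL.Defs

open scoped BigOperators

namespace Pool.Agent.FDR.SL.LIOU

theorem one_le_norm {L : Type} [Field L] [NumberField L] {α : L} (hα : α ≠ 0)
    (hi : IsIntegral ℤ α) : 1 ≤ ‖Algebra.norm ℚ α‖ := by
  have hint : IsIntegral ℤ (Algebra.norm ℚ α) := Algebra.isIntegral_norm ℚ hi
  obtain ⟨z, hz⟩ := IsIntegrallyClosed.isIntegral_iff.mp hint
  have h0 : Algebra.norm ℚ α ≠ 0 := Algebra.norm_ne_zero_iff.mpr hα
  have hz0 : z ≠ 0 := by
    rintro rfl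
    exact h0 (by rw [← hz, map_zero])
  rw [← hz, eq_intCast, Int.norm_cast_rat, Int.norm_eq_abs]
  exact_mod_cast Int.one_le_abs hz0

theorem low {L : Type} [Field L] [NumberField L] (φ : L →+* ℂ) (ξ : L) (n : ℕ) (H : ℝ)
    (hξ : ξ ≠ 0) (hn : 1 ≤ n) (hi : IsIntegral ℤ ((n : L) * ξ))
    (hh : NumberField.house ξ ≤ H) (hH : 1 ≤ H) :
    1 ≤ ‖φ ξ‖ * ((n : ℝ) * H) ^ (Module.finrank ℚ L) := by
  have hnL : (n : L) ≠ 0 := by
    have : n ≠ 0 := by omega
    exact_mod_cast this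
  have h1 := one_le_norm (mul_ne_zero hnL hξ) hi
  have h2 := NumberField.norm_norm_le_norm_mul_house_pow ((n : L) * ξ) φ
  have h3 : ‖φ ((n : L) * ξ)‖ = n * ‖φ ξ‖ := by
    rw [map_mul, map_natCast, norm_mul, Complex.norm_natCast]
  have h4 : NumberField.house ((n : L) * ξ) ≤ n * H := by
    rw [NumberField.house_nat_mul]
    exact mul_le_mul_of_nonneg_left hh (Nat.cast_nonneg n)
  have h5 : (0 : ℝ) ≤ NumberField.house ((n : L) * ξ) := NumberField.house_nonneg _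
  have hf : 0 < Module.finrank ℚ L := Module.finrank_pos
  have hn1 : (1 : ℝ) ≤ n := by exact_mod_cast hn
  have h6 : NumberField.house ((n : L) * ξ) ^ (Module.finrank ℚ L - 1) ≤
      ((n : ℝ) * H) ^ (Module.finrank ℚ L - 1) := pow_le_pow_left₀ h5 h4 _
  calc (1 : ℝ) ≤ ‖φ ((n : L) * ξ)‖ * NumberField.house ((n : L) * ξ) ^
        (Module.finrank ℚ L - 1) := h1.trans h2
    _ ≤ (n * ‖φ ξ‖) * ((n : ℝ) * H) ^ (Module.finrank ℚ L - 1) := by
        rw [h3]
        exact mul_le_mul_of_nonneg_left h6 (by positivity)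
    _ ≤ (n * H * ‖φ ξ‖) * ((n : ℝ) * H) ^ (Module.finrank ℚ L - 1) := by
        refine mul_le_mul_of_nonneg_right ?_ (by positivity)
        refine mul_le_mul_of_nonneg_right ?_ (norm_nonneg _)
        nlinarith
    _ = ‖φ ξ‖ * ((n : ℝ) * H) ^ (Module.finrank ℚ L) := by
        obtain ⟨k, hk⟩ := Nat.exists_eq_succ_of_ne_zero hf.ne'
        rw [hk, Nat.succ_sub_one, pow_succ]
        ring

theorem house_le {L : Type} [Field L] [NumberField L] {ξ : L} {A : ℝ} (hA : 0 ≤ A)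
    (h : ∀ σ : L →+* ℂ, ‖σ ξ‖ ≤ A) : NumberField.house ξ ≤ A := by
  rw [NumberField.house_eq_sup']
  have : (Finset.univ.sup' Finset.univ_nonempty (fun φ : L →+* ℂ => ‖φ ξ‖₊)) ≤
      (⟨A, hA⟩ : NNReal) := Finset.sup'_le _ _ fun σ _ => h σ
  exact_mod_cast this

theorem thm_LIOU : Stmt_Liou := by
  intro K hK x hx A D hA hD hi hσ
  have : NumberField K := ⟨⟩
  have h := low (algebraMap K ℂ) x D A hx hD hi (house_le (by linarith) hσ) hA
  rw [mul_comm]
  exact h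

end Pool.Agent.FDR.SL.LIOU
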