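import Pool.Agent.FDR.SL.Defs

open scoped BigOperators

namespace Pool.Agent.FDR.SL.SIEG

theorem house_le {L : Type} [Field L] [NumberField L] {ξ : L} {A : ℝ} (hA : 0 ≤ A)
    (h : ∀ σ : L →+* ℂ, ‖σ ξ‖ ≤ A) : NumberField.house ξ ≤ A := by
  rw [NumberField.house_eq_sup']
  have : (Finset.univ.sup' Finset.univ_nonempty (fun φ : L →+* ℂ => ‖φ ξ‖₊)) ≤
      (⟨A, hA⟩ : NNReal) := Finset.sup'_le _ _ fun σ _ => h σ
  exact_mod_cast this

theorem raw (L : Type) [Field L] [NumberField L] : ∃ c : ℝ,
    ∀ (α β : Type) [Fintype α] [Fintype β] (M : Matrix α β (NumberField.RingOfIntegers L))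
    (A : ℝ) (p q : ℕ), Fintype.card α = p → Fintype.card β = q → 0 < p → p < q → M ≠ 0 →
    (∀ i j, NumberField.house (algebraMap (NumberField.RingOfIntegers L) L (M i j)) ≤ A) →
    ∃ x : β → NumberField.RingOfIntegers L, x ≠ 0 ∧ Matrix.mulVec M x = 0 ∧
      ∀ j, NumberField.house (x j).1 ≤ c * ((c * q * A) ^ ((p : ℝ) / (q - p))) := by
  classical
  refine ⟨?c, ?h⟩
  case h =>
    intro α β _ _ M A p q hp hq h0 hpq hM hA
    exact NumberField.house.exists_ne_zero_int_vec_house_le L M hM h0 hpq hq hA hp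

theorem sieg (L : Type) [Field L] [NumberField L] : ∃ C : ℝ, 1 ≤ C ∧
    ∀ (α β : Type) [Fintype α] [Fintype β] (M : α → β → NumberField.RingOfIntegers L) (A : ℝ),
    1 ≤ A → 0 < Fintype.card β → 2 * Fintype.card α ≤ Fintype.card β →
    (∀ i j, NumberField.house (M i j : L) ≤ A) →
    ∃ x : β → NumberField.RingOfIntegers L, x ≠ 0 ∧ (∀ i, ∑ j, M i j * x j = 0) ∧
      ∀ j, NumberField.house (x j : L) ≤ C * Fintype.card β * A := by
  classical
  obtain ⟨c₀, hraw⟩ := raw L
  set c : ℝ := max 1 |c₀| with hc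
  have hc1 : 1 ≤ c := le_max_left _ _
  have hcc : |c₀| ≤ c := le_max_right _ _
  refine ⟨c * c, by nlinarith, ?_⟩
  intro α β _ _ M A hA hβ hαβ hM
  have hβR : (1 : ℝ) ≤ Fintype.card β := by exact_mod_cast hβ
  obtain ⟨j0⟩ := Fintype.card_pos_iff.mp hβ
  by_cases hM0 : M = 0
  · refine ⟨fun _ => 1, ?_, ?_, ?_⟩
    · intro h
      have h1 := congrFun h j0
      simp only [Pi.zero_apply] at h1
      exact one_ne_zero h1
    · intro i
      simp [hM0]
    · intro j
      have h1 : NumberField.house ((1 : NumberField.RingOfIntegers L) : L) ≤ 1 := by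
        refine house_le zero_le_one fun σ => ?_
        simp
      refine h1.trans ?_
      have : 1 ≤ c * c := by nlinarith
      calc (1 : ℝ) ≤ c * c * 1 * 1 := by linarith
        _ ≤ c * c * Fintype.card β * A := by
            refine mul_le_mul (mul_le_mul_of_nonneg_left hβR (by positivity)) hA zero_le_one
              (by positivity)
  · have hα0 : 0 < Fintype.card α := by
      rw [Fintype.card_pos_iff]
      by_contra hne
      rw [not_nonempty_iff] at hne
      exact hM0 (funext fun i => hne.elim i)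
    have hlt : Fintype.card α < Fintype.card β := by omega
    obtain ⟨ξ, hξ0, hξ1, hξ2⟩ := hraw α β M A _ _ rfl rfl hα0 hlt hM0 hM
    refine ⟨ξ, hξ0, ?_, ?_⟩
    · intro i
      have := congrFun hξ1 i
      simpa [Matrix.mulVec, dotProduct] using this
    · intro l
      refine (hξ2 l).trans ?_
      set q : ℝ := (Fintype.card β : ℝ) with hq
      set p : ℝ := (Fintype.card α : ℝ) with hp
      have hp0 : 0 < p := by
        rw [hp]
        exact_mod_cast hα0
      have hpq : p < q := by
        rw [hp, hq]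
        exact_mod_cast hlt
      have h2pq : 2 * p ≤ q := by
        rw [hp, hq]
        exact_mod_cast hαβ
      have hq0 : 0 < q := by linarith
      have he1 : p / (q - p) ≤ 1 := by
        rw [div_le_one (by linarith)]
        linarith
      have he0 : 0 ≤ p / (q - p) := div_nonneg hp0.le (by linarith)
      have h3 : |c₀ * q * A| ≤ c * q * A := by
        rw [abs_mul, abs_mul, abs_of_pos hq0, abs_of_pos (by linarith : (0 : ℝ) < A)]
        exact mul_le_mul_of_nonneg_right (mul_le_mul_of_nonneg_right hcc hq0.le) (by linarith)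
      have h4 : 1 ≤ c * q * A := by
        have h5 : 1 ≤ c * q := by nlinarith
        nlinarith
      calc c₀ * (c₀ * q * A) ^ (p / (q - p)) ≤ |c₀ * (c₀ * q * A) ^ (p / (q - p))| :=
            le_abs_self _
        _ = |c₀| * |(c₀ * q * A) ^ (p / (q - p))| := abs_mul _ _
        _ ≤ |c₀| * |c₀ * q * A| ^ (p / (q - p)) :=
            mul_le_mul_of_nonneg_left (Real.abs_rpow_le_abs_rpow _ _) (abs_nonneg _)
        _ ≤ c * (c * q * A) ^ (p / (q - p)) :=
            mul_le_mul hcc (Real.rpow_le_rpow (abs_nonneg _) h3 he0)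
              (Real.rpow_nonneg (abs_nonneg _) _) (by linarith)
        _ ≤ c * (c * q * A) ^ (1 : ℝ) :=
            mul_le_mul_of_nonneg_left (Real.rpow_le_rpow_of_exponent_le h4 he1) (by linarith)
        _ = c * c * q * A := by rw [Real.rpow_one]; ring

theorem thm_SIEG : Stmt_Sieg := by
  intro K hK
  have : NumberField K := ⟨⟩
  obtain ⟨C, hC, h⟩ := sieg K
  refine ⟨C, hC, ?_⟩
  intro α β _ _ M A hA hβ hαβ hint hM
  obtain ⟨x, hx0, hx1, hx2⟩ := h α β (fun i j => ⟨M i j, hint i j⟩) A hA hβ hαβ
    (fun i j => house_le (by linarith) (hM i j))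
  refine ⟨fun j => (x j : K), ?_, fun j => (x j).2, ?_, ?_⟩
  · intro h0
    apply hx0
    funext j
    have h1 := congrFun h0 j
    simp only [Pi.zero_apply] at h1 ⊢
    exact_mod_cast h1
  · intro i
    have h1 := congrArg (algebraMap (NumberField.RingOfIntegers K) K) (hx1 i)
    rw [map_sum, map_zero] at h1
    simp only [map_mul] at h1
    exact h1
  · intro j σ
    exact (NumberField.norm_embedding_le_house _ σ).trans (hx2 j)

end Pool.Agent.FDR.SL.SIEG
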