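import Pool.Agent.FDR.SL.Defs

/-!
FDR/SL/DLEAD (helper92): the leading coefficient of a product.
-/

open scoped BigOperators Polynomial Topology
open Metric Filter Asymptotics

namespace Pool.Agent.FDR.SL.DLEAD

theorem thm_DLEAD (hC : Stmt_DOrdC) : Stmt_DLead := by
  intro E _ _ Φ Ψ G hΦ hΨ hG hprod M hO l hl
  set Θ : E → ℂ := fun w => (G w - G 0) * Φ w with hΘ
  have hΘan : AnalyticAt ℂ Θ 0 := (hG.sub analyticAt_const).mul hΦ
  have hGO : (fun w => G w - G 0) =O[𝓝 0] fun w : E => ‖w‖ ^ 1 := by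
    have h1 := hG.differentiableAt.isBigO_sub
    simp only [sub_zero] at h1
    simpa using h1.norm_right
  have hΘO : (fun w => Θ (0 + w)) =O[𝓝 0] fun w : E => ‖w‖ ^ (M + 1) := by
    have h2 := hGO.mul hO
    simp only [zero_add, hΘ]
    refine h2.congr_right ?_
    intro w
    ring
  have h3 := hC E Θ 0 hΘan (M + 1) hΘO l
  have h4 : dir l Θ 0 = 0 := by
    rw [hl, Nat.add_sub_cancel_left] at h3
    obtain ⟨c, hc⟩ := h3.bound
    have h5 := hc.self_of_nhds
    simp only [add_zero, norm_zero, pow_one, mul_zero] at h5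
    exact norm_le_zero_iff.1 h5
  have h6 : Ψ =ᶠ[𝓝 0] fun w => G 0 * Φ w + Θ w := by
    filter_upwards [hprod] with w hw
    rw [hw, hΘ]
    ring
  have h7 := (dir_congr h6 l).eq_of_nhds
  have hcm : AnalyticAt ℂ (fun y => G 0 * Φ y) 0 := analyticAt_const.mul hΦ
  have h8 := (dir_add hcm hΘan l).eq_of_nhds
  have h9 := (dir_const_mul hΦ (G 0) l).eq_of_nhds
  rw [h7, h8, h9, h4, add_zero]

end Pool.Agent.FDR.SL.DLEAD
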