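import Pool.Agent.FDR.SL.Defs

/-!
# FDR / SL / GAPP: growth and periodicity for a polynomial in the functions `f`
-/

open scoped BigOperators Polynomial Topology
open Metric Filter

namespace Pool.Agent.FDR.SL.GAPP

noncomputable section

/-- the homogenised sum of monomials -/
def Psi {d L : ℕ} (N : ℕ) (p : (Fin (d + 1) → Fin L) → ℂ) (G : Fin (d + 1) → ℂ) (G0 : ℂ) : ℂ :=
  ∑ e, p e * ((∏ i, G i ^ (e i : ℕ)) * G0 ^ (N - ∑ i, (e i : ℕ)))

theorem sum_le {d L : ℕ} (e : Fin (d + 1) → Fin L) : ∑ i, (e i : ℕ) ≤ (d + 1) * L := by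
  calc ∑ i, (e i : ℕ) ≤ ∑ _i : Fin (d + 1), L := Finset.sum_le_sum fun i _ => (e i).2.le
    _ = (d + 1) * L := by simp

theorem Psi_eq {d L : ℕ} (p : (Fin (d + 1) → Fin L) → ℂ) (G f : Fin (d + 1) → ℂ) (G0 : ℂ)
    (h : ∀ i, G i = f i * G0) :
    Psi ((d + 1) * L) p G G0 = G0 ^ ((d + 1) * L) * ∑ e, p e * ∏ i, f i ^ (e i : ℕ) := by
  unfold Psi
  rw [Finset.mul_sum]
  refine Finset.sum_congr rfl fun e _ => ?_
  have h1 : ∏ i, G i ^ (e i : ℕ) = (∏ i, f i ^ (e i : ℕ)) * G0 ^ (∑ i, (e i : ℕ)) := by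
    rw [← Finset.prod_pow_eq_pow_sum, ← Finset.prod_mul_distrib]
    refine Finset.prod_congr rfl fun i _ => ?_
    rw [h i, mul_pow]
  have h2 : G0 ^ (∑ i, (e i : ℕ)) * G0 ^ ((d + 1) * L - ∑ i, (e i : ℕ))
      = G0 ^ ((d + 1) * L) := by
    rw [← pow_add, Nat.add_sub_cancel' (sum_le e)]
  rw [h1, mul_assoc, h2]
  ring

theorem Psi_norm {d L : ℕ} (p : (Fin (d + 1) → Fin L) → ℂ) (G : Fin (d + 1) → ℂ) (G0 : ℂ)
    (B A : ℝ) (hA : 0 ≤ A) (hp : ∀ e, ‖p e‖ ≤ B) (hB : 0 ≤ B) (h0 : ‖G0‖ ≤ A)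
    (h : ∀ i, ‖G i‖ ≤ A) :
    ‖Psi ((d + 1) * L) p G G0‖ ≤ (L : ℝ) ^ (d + 1) * B * A ^ ((d + 1) * L) := by
  unfold Psi
  calc ‖∑ e, p e * ((∏ i, G i ^ (e i : ℕ)) * G0 ^ ((d + 1) * L - ∑ i, (e i : ℕ)))‖
      ≤ ∑ e, ‖p e * ((∏ i, G i ^ (e i : ℕ)) * G0 ^ ((d + 1) * L - ∑ i, (e i : ℕ)))‖ :=
        norm_sum_le _ _
    _ ≤ ∑ _e : Fin (d + 1) → Fin L, B * A ^ ((d + 1) * L) := by
        refine Finset.sum_le_sum fun e _ => ?_
        rw [norm_mul, norm_mul, norm_pow, norm_prod]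
        have h3 : ∏ i, ‖G i ^ (e i : ℕ)‖ ≤ A ^ (∑ i, (e i : ℕ)) := by
          rw [← Finset.prod_pow_eq_pow_sum]
          refine Finset.prod_le_prod (fun i _ => norm_nonneg _) fun i _ => ?_
          rw [norm_pow]
          exact pow_le_pow_left₀ (norm_nonneg _) (h i) _
        have h4 : ‖G0‖ ^ ((d + 1) * L - ∑ i, (e i : ℕ)) ≤ A ^ ((d + 1) * L - ∑ i, (e i : ℕ)) :=
          pow_le_pow_left₀ (norm_nonneg _) h0 _
        have h5 : A ^ (∑ i, (e i : ℕ)) * A ^ ((d + 1) * L - ∑ i, (e i : ℕ))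
            = A ^ ((d + 1) * L) := by
          rw [← pow_add, Nat.add_sub_cancel' (sum_le e)]
        rw [← h5]
        gcongr
        exact hp e
    _ = (L : ℝ) ^ (d + 1) * B * A ^ ((d + 1) * L) := by
        rw [Finset.sum_const, Finset.card_univ, Fintype.card_fun, Fintype.card_fin,
          Fintype.card_fin, nsmul_eq_mul]
        push_cast
        ring

/-- integer multiples of periods are periods -/
theorem per_int (hg : Stmt_PerGroup) {E ι : Type} [NormedAddCommGroup E] [NormedSpace ℂ E]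
    [Fintype ι] (F : E → ι → ℂ) (hF : HasGrowth F) (γ : E) (h : IsPer F γ) (m : ℤ) :
    IsPer F ((m : ℂ) • γ) := by
  obtain ⟨h0, hadd, hneg⟩ := hg E ι F hF
  have hnat : ∀ k : ℕ, IsPer F ((k : ℂ) • γ) := by
    intro k
    induction k with
    | zero => simpa using h0
    | succ k ih =>
      have := hadd _ _ ih h
      have e : ((k + 1 : ℕ) : ℂ) • γ = (k : ℂ) • γ + γ := by
        push_cast
        rw [add_smul, one_smul]
      rw [e]
      exact this
  obtain ⟨k, hk | hk⟩ := Int.eq_nat_or_neg m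
  · rw [hk]
    exact_mod_cast hnat k
  · rw [hk]
    have := hneg _ (hnat k)
    push_cast
    rw [neg_smul]
    exact this

theorem thm_GAPP (hPA : Stmt_PerAny) (hPG : Stmt_PerGroup) : Stmt_GApp := by
  intro d hd f hf hg hper
  obtain ⟨C, ρ, hC, hρ, hrep⟩ := hg
  have hg' : HasGrowth f := ⟨C, ρ, hC, hρ, hrep⟩
  refine ⟨C * (d + 1), ρ, by positivity, hρ, fun L hL p B hB hp R hR => ?_⟩
  obtain ⟨r, hr1, hr2⟩ := hrep R hR
  set N : ℕ := (d + 1) * L with hN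
  have hR0 : (0 : ℝ) < R := by linarith
  have hexp : Real.exp (C * R ^ ρ) ^ N = Real.exp (C * (d + 1) * L * R ^ ρ) := by
    rw [← Real.exp_nat_mul, hN]
    congr 1
    push_cast
    ring
  have hexp2 : Real.exp (-(C * R ^ ρ)) ^ N = Real.exp (-(C * (d + 1) * L * R ^ ρ)) := by
    rw [← Real.exp_nat_mul, hN]
    congr 1
    push_cast
    ring
  refine ⟨fun z => Psi N p (fun i => r.G i z) (r.G0 z), fun z => r.G0 z ^ N, ?_, ?_, ?_, ?_,
    ?_, ?_⟩
  · intro z hz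
    unfold Psi
    refine Finset.analyticAt_fun_sum _ fun e _ => ?_
    refine analyticAt_const.mul ?_
    refine AnalyticAt.mul ?_ ((r.an0 z hz).pow _)
    exact Finset.analyticAt_fun_prod _ fun i _ => (r.an i z hz).pow _
  · exact (r.an0 0 (mem_ball_self hR0)).pow _
  · show Real.exp (-(C * (d + 1) * L * R ^ ρ)) ≤ ‖r.G0 0 ^ N‖
    rw [norm_pow, ← hexp2]
    exact pow_le_pow_left₀ (Real.exp_pos _).le hr2 _
  · filter_upwards [r.eq] with w hw
    exact Psi_eq p (fun i => r.G i w) (f w) (r.G0 w) hw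
  · intro z hz
    rw [← hexp]
    exact Psi_norm p _ _ B _ (Real.exp_pos _).le hp hB (hr1 z hz).1 (hr1 z hz).2
  · intro i m hm
    have hp1 : IsPer f ((m : ℂ) • stdv i) := per_int hPG f hg' _ (hper i) m
    have hnorm : ‖(m : ℂ) • (stdv i : Fin d → ℂ)‖ = (|m| : ℝ) := by
      rw [norm_smul]
      have h1 : ‖(stdv i : Fin d → ℂ)‖ = 1 := by
        unfold stdv
        rw [Pi.norm_single]
        simp
      rw [h1, mul_one]
      simp
    have hlt : ‖(m : ℂ) • (stdv i : Fin d → ℂ)‖ < R := by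
      rw [hnorm]
      exact hm
    obtain ⟨h1, -⟩ := hPA _ _ f _ hp1 R hlt r
    have h2 : (fun w : Fin d → ℂ => Psi N p (fun j => r.G j ((m : ℂ) • stdv i + w))
          (r.G0 ((m : ℂ) • stdv i + w)))
        =ᶠ[𝓝 0] fun w => r.G0 ((m : ℂ) • stdv i + w) ^ N * ∑ e, p e * ∏ j, f w j ^ (e j : ℕ) := by
      filter_upwards [h1] with w hw
      exact Psi_eq p _ (f w) _ hw
    have h3 : (fun w : Fin d → ℂ => r.G0 ((m : ℂ) • stdv i + w) ^ N)
        =O[𝓝 0] (fun _ => (1 : ℂ)) := by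
      have hc : ContinuousAt (fun w : Fin d → ℂ => r.G0 ((m : ℂ) • stdv i + w) ^ N) 0 := by
        have hz : (m : ℂ) • stdv i + (0 : Fin d → ℂ) ∈ ball (0 : Fin d → ℂ) R := by
          rw [add_zero, mem_ball_zero_iff]
          exact hlt
        have ha := (r.an0 _ hz).continuousAt
        have hb : ContinuousAt (fun w : Fin d → ℂ => (m : ℂ) • (stdv i : Fin d → ℂ) + w) 0 :=
          (continuous_const.add continuous_id).continuousAt
        exact (ContinuousAt.comp (f := fun w : Fin d → ℂ => (m : ℂ) • (stdv i : Fin d → ℂ) + w)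
          (g := r.G0) ha hb).pow N
      exact hc.tendsto.isBigO_one ℂ
    have h4 := h3.mul (Asymptotics.isBigO_refl
      (fun w : Fin d → ℂ => ∑ e, p e * ∏ j, f w j ^ (e j : ℕ)) (𝓝 0))
    simp only [one_mul] at h4
    exact h4.congr' h2.symm EventuallyEq.rfl

end

end Pool.Agent.FDR.SL.GAPP
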