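import Pool.Agent.FDR.SL.Defs

/-!
# FDR / SL: assembly of the periodic Schneider-Lang theorem
-/

open scoped BigOperators Polynomial Topology
open Metric Filter

namespace Pool.Agent.FDR.SL.MAIN

open Pool.Agent.FDR

theorem sum_count {d : ℕ} (l : List (Fin d)) : ∑ i : Fin d, l.count i = l.length := by
  induction l with
  | nil => simp
  | cons a l ih =>
    simp only [List.count_cons, Finset.sum_add_distrib, ih, List.length_cons]
    simp

theorem pigeon {d : ℕ} (hd : 0 < d) (l : List (Fin d)) : ∃ i, l.length ≤ d * l.count i := by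
  by_contra h
  push Not at h
  have h1 := sum_count l
  have : Nonempty (Fin d) := ⟨⟨0, hd⟩⟩
  have h2 : ∑ i : Fin d, d * l.count i < ∑ _i : Fin d, l.length :=
    Finset.sum_lt_sum_of_nonempty Finset.univ_nonempty (fun i _ => h i)
  rw [← Finset.mul_sum, h1] at h2
  simp at h2

theorem split_perm {d : ℕ} (i : Fin d) (l : List (Fin d)) :
    l.Perm (List.replicate (l.count i) i ++ l.filter (fun j => !(j == i))) := by
  have h := List.filter_append_perm (fun j => j == i) l
  rw [List.filter_beq] at h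
  exact h.symm

theorem thm_SL (hPerm : Stmt_DPerm) (hAev : Stmt_DAev) (hLine : Stmt_DLine)
    (hBas : Stmt_DBasis) (hOA : Stmt_DOrdA) (hOB : Stmt_DOrdB) (hOC : Stmt_DOrdC)
    (hLead : Stmt_DLead) (hCau : Stmt_DCau) (hSchw : Stmt_Schw) (hAux : Stmt_SLAux)
    (hG : Stmt_GApp) (hNum : Stmt_SLNum) : Stmt_SL := by
  intro d n hd K hK v hv H hH hHK hD f hf hgr hper hind
  choose P hP using hD
  choose Q hQ using hf
  set a : Fin n → K := fun i => ⟨H 0 i, hHK i⟩ with ha
  have haev : ∀ R : MvPolynomial (Fin n) K,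
      MvPolynomial.aeval (H 0) R = ((MvPolynomial.eval a R : K) : ℂ) := by
    intro R
    have h1 : H 0 = fun i => algebraMap K ℂ (a i) := by
      funext i
      rfl
    rw [h1]
    have h2 := MvPolynomial.aeval_algebraMap_apply (B := ℂ) a R
    exact h2
  have hHan : ∀ i, AnalyticAt ℂ (fun w => H w i) 0 := fun i => by
    have := (ContinuousLinearMap.proj (R := ℂ) (φ := fun _ : Fin n => ℂ) i).analyticAt (H 0)
    exact this.comp hH
  have hAevAn : ∀ R : MvPolynomial (Fin n) K,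
      AnalyticAt ℂ (fun w => MvPolynomial.aeval (H w) R) 0 := by
    intro R
    induction R using MvPolynomial.induction_on with
    | C c =>
      simp only [MvPolynomial.aeval_C]
      exact analyticAt_const
    | add p q hp hq =>
      simp only [map_add]
      exact hp.add hq
    | mul_X p i hp =>
      simp only [map_mul, MvPolynomial.aeval_X]
      exact hp.mul (hHan i)
  have hfan : ∀ i, AnalyticAt ℂ (fun w => f w i) 0 := fun i =>
    (hAevAn (Q i)).congr ((hQ i).mono fun w hw => hw.symm)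
  -- value of derivatives
  have hval : ∀ (R : MvPolynomial (Fin n) K) (l : List (Fin d)),
      dir (l.map v) (fun w => MvPolynomial.aeval (H w) R) 0 =
        ((MvPolynomial.eval a (dops P l R) : K) : ℂ) := by
    intro R l
    rw [← haev]
    exact (hAev d n K v H P hH hP R l).self_of_nhds
  have hcomm : ∀ l l' : List (Fin d), l.Perm l' → ∀ R : MvPolynomial (Fin n) K,
      MvPolynomial.eval a (dops P l R) = MvPolynomial.eval a (dops P l' R) := by
    intro l l' hl R
    have h1 := hPerm _ _ _ (hAevAn R) _ _ (hl.map v)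
    rw [hval, hval] at h1
    exact_mod_cast h1
  obtain ⟨C1, hC1, hAux⟩ := hAux d n hd K hK P Q a hcomm
  obtain ⟨C2, hC2, hBas⟩ := hBas d hd v
  obtain ⟨C3, ρ, hC3, hρ, hG⟩ := hG d hd f hfan hgr hper
  set C : ℝ := max C1 (max C2 C3) with hC
  have hC1C : C1 ≤ C := le_max_left _ _
  have hC2C : C2 ≤ C := (le_max_left _ _).trans (le_max_right _ _)
  have hC3C : C3 ≤ C := (le_max_right _ _).trans (le_max_right _ _)
  have hCone : 1 ≤ C := hC1.trans hC1C
  obtain ⟨U, hU2, hNum⟩ := hNum d hd C ρ hCone hρ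
  have hAuxU := hAux U hU2
  generalize hL : 2 * U ^ d = L at hAuxU hNum
  obtain ⟨p, hp0, hpb, hvan, hliou⟩ := hAuxU
  have hLpos : 0 < L := by
    rw [← hL]
    positivity
  set Φ : (Fin d → ℂ) → ℂ := fun w => ∑ e, (p e : ℂ) * ∏ i, f w i ^ (e i : ℕ) with hΦ
  have hΦan : AnalyticAt ℂ Φ 0 := by
    refine Finset.analyticAt_fun_sum _ fun e _ => analyticAt_const.mul ?_
    exact Finset.analyticAt_fun_prod _ fun i _ => (hfan i).pow _
  -- `Φ` as a polynomial in `H`
  have hΦH : ∀ᶠ w in 𝓝 (0 : Fin d → ℂ), Φ w =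
      ∑ e, (p e : ℂ) * MvPolynomial.aeval (H w) (∏ i, Q i ^ (e i : ℕ)) := by
    have h1 : ∀ᶠ w in 𝓝 (0 : Fin d → ℂ), ∀ i, f w i = MvPolynomial.aeval (H w) (Q i) :=
      eventually_all.2 hQ
    filter_upwards [h1] with w hw
    simp only [hΦ, map_prod, map_pow, hw]
  have hdir : ∀ l : List (Fin d), dir (l.map v) Φ 0 =
      ((∑ e, p e * MvPolynomial.eval a (dops P l (∏ i, Q i ^ (e i : ℕ))) : K) : ℂ) := by
    intro l
    rw [(dir_congr hΦH (l.map v)).self_of_nhds]
    rw [(dir_sum Finset.univ (Φ := fun (e : Fin (d + 1) → Fin L) w =>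
      (p e : ℂ) * MvPolynomial.aeval (H w) (∏ i, Q i ^ (e i : ℕ)))
      (fun e _ => analyticAt_const.mul (hAevAn (∏ i, Q i ^ (e i : ℕ))))
      (l.map v)).self_of_nhds]
    push_cast
    refine Finset.sum_congr rfl fun e _ => ?_
    rw [(dir_const_mul (hAevAn (∏ i, Q i ^ (e i : ℕ))) (p e : ℂ) (l.map v)).self_of_nhds]
    simp only [hval]
  -- `Φ` is not zero near `0`
  have hne : ∃ l : List (Fin d), dir (l.map v) Φ 0 ≠ 0 := by
    by_contra hcon
    push Not at hcon
    have h1 := hOB d v hv Φ 0 hΦan hcon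
    set PP : MvPolynomial (Fin (d + 1)) ℂ :=
      ∑ e, MvPolynomial.monomial (Finsupp.equivFunOnFinite.symm fun i => (e i : ℕ)) (p e : ℂ)
      with hPP
    have h2 : ∀ x : Fin (d + 1) → ℂ, MvPolynomial.eval x PP =
        ∑ e, (p e : ℂ) * ∏ i, x i ^ (e i : ℕ) := by
      intro x
      rw [hPP, map_sum]
      refine Finset.sum_congr rfl fun e _ => ?_
      rw [MvPolynomial.eval_monomial, Finsupp.prod_fintype _ _ (fun i => pow_zero _)]
      rfl
    have h3 : PP = 0 := by
      apply hind PP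
      filter_upwards [h1] with w hw
      rw [h2]
      exact hw
    apply hp0
    funext e
    have h4 : MvPolynomial.coeff (Finsupp.equivFunOnFinite.symm fun i => (e i : ℕ)) PP =
        (p e : ℂ) := by
      rw [hPP, MvPolynomial.coeff_sum, Finset.sum_eq_single e]
      · rw [MvPolynomial.coeff_monomial, if_pos rfl]
      · intro e' _ hne
        rw [MvPolynomial.coeff_monomial, if_neg]
        intro heq
        apply hne
        have := Finsupp.equivFunOnFinite.symm.injective heq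
        funext i
        exact Fin.ext (congrFun this i)
      · intro h
        exact absurd (Finset.mem_univ e) h
    rw [h3, MvPolynomial.coeff_zero] at h4
    have h5 : p e = 0 := by exact_mod_cast h4.symm
    exact h5
  -- minimal order
  have hex : ∃ M : ℕ, ∃ l : List (Fin d), l.length = M ∧ dir (l.map v) Φ 0 ≠ 0 := by
    obtain ⟨l, hl⟩ := hne
    exact ⟨l.length, l, rfl, hl⟩
  classical
  set M := Nat.find hex with hM
  obtain ⟨l, hlM, hl0⟩ := Nat.find_spec hex
  have hmin : ∀ l' : List (Fin d), l'.length < M → dir (l'.map v) Φ 0 = 0 := by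
    intro l' hl'
    by_contra hcon
    exact Nat.find_min hex hl' ⟨l', rfl, hcon⟩
  have hTM : U ^ (d + 1) ≤ M := by
    by_contra hcon
    push Not at hcon
    apply hl0
    rw [hdir, hvan l (by rw [hlM]; exact hcon)]
    rfl
  have hMpos : 0 < M := lt_of_lt_of_le (by positivity) hTM
  have hord : (fun w => Φ (0 + w)) =O[𝓝 0] (fun w : Fin d → ℂ => ‖w‖ ^ M) :=
    hOA d v hv Φ 0 hΦan M hmin
  have hord' : Φ =O[𝓝 0] (fun w : Fin d → ℂ => ‖w‖ ^ M) := by simpa using hord
  -- Liouville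
  have hlow : Real.exp (-(C * M * Real.log M)) ≤ ‖dir (l.map v) Φ 0‖ := by
    have h1 : ∑ e, p e * MvPolynomial.eval a (dops P l (∏ i, Q i ^ (e i : ℕ))) ≠ 0 := by
      intro h
      apply hl0
      rw [hdir, h]
      rfl
    have h2 := hliou l (by rw [hlM]; exact hTM) h1
    rw [hdir]
    refine le_trans (Real.exp_le_exp.2 ?_) h2
    rw [hlM]
    have h3 : 0 ≤ (M : ℝ) * Real.log M :=
      mul_nonneg (Nat.cast_nonneg _) (Real.log_nonneg (by exact_mod_cast hMpos))
    have h4 : C1 * (M * Real.log M) ≤ C * (M * Real.log M) :=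
      mul_le_mul_of_nonneg_right hC1C h3
    rw [← hM]
    linarith
  -- change of basis
  obtain ⟨l', hl'len, hl'⟩ := hBas Φ hΦan l
  obtain ⟨i, hi⟩ := pigeon hd l'
  set k := l'.count i with hk
  set l2 := l'.filter (fun j => !(j == i)) with hl2
  have hperm := split_perm i l'
  rw [← hk, ← hl2] at hperm
  have hlen : k + l2.length = M := by
    have h1 := hperm.length_eq
    rw [List.length_append, List.length_replicate, hl'len, hlM] at h1
    exact h1.symm
  -- the numerical choice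
  obtain ⟨N, hN⟩ := hNum M hTM
  set B : ℝ := Real.exp (C * (U ^ (d + 1) : ℕ) * Real.log U) with hB
  have hBpos : 0 < B := Real.exp_pos _
  have hpB : ∀ e, ‖((p e : K) : ℂ)‖ ≤ B := by
    intro e
    refine (hpb e).trans (Real.exp_le_exp.2 ?_)
    have h1 : 0 ≤ ((U ^ (d + 1) : ℕ) : ℝ) * Real.log U :=
      mul_nonneg (Nat.cast_nonneg _) (Real.log_nonneg (by exact_mod_cast (by omega : 1 ≤ U)))
    have h2 : C1 * (((U ^ (d + 1) : ℕ) : ℝ) * Real.log U) ≤
        C * (((U ^ (d + 1) : ℕ) : ℝ) * Real.log U) := mul_le_mul_of_nonneg_right hC1C h1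
    linarith
  have hN0 : (0 : ℝ) ≤ N := Nat.cast_nonneg _
  have hR1 : (1 : ℝ) ≤ 4 * N + 2 := by linarith
  obtain ⟨Ψ, G, hΨan, hGan, hGlow, hΨG, hΨb, hΨz⟩ :=
    hG L hLpos (fun e => ((p e : K) : ℂ)) B hBpos.le hpB (4 * N + 2) hR1
  set E1 : ℝ := Real.exp (C3 * L * (4 * N + 2 : ℝ) ^ ρ) with hE1
  have hΨ0 : AnalyticAt ℂ Ψ 0 := hΨan 0 (by simp; linarith)
  -- the leading coefficient
  have hlead : dir (l'.map stdv) Ψ 0 = G 0 * dir (l'.map stdv) Φ 0 :=
    hLead _ Φ Ψ G hΦan hΨ0 hGan hΨG M hord' _ (by rw [List.length_map, hl'len, hlM])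
  -- the function on the line
  set g : ℂ → ℂ := fun t => dir (l2.map stdv) Ψ (t • (stdv i : Fin d → ℂ)) with hg
  have hnorm : ∀ t : ℂ, ‖t • (stdv i : Fin d → ℂ)‖ = ‖t‖ := by
    intro t
    rw [norm_smul]
    have : ‖(stdv i : Fin d → ℂ)‖ = 1 := by
      unfold stdv
      rw [Pi.norm_single, norm_one]
    rw [this, mul_one]
  have hgan : AnalyticOnNhd ℂ g (ball 0 (4 * N + 1)) := by
    intro t ht
    have h1 : t • (stdv i : Fin d → ℂ) ∈ ball (0 : Fin d → ℂ) (4 * N + 2) := by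
      rw [mem_ball_zero_iff, hnorm]
      rw [mem_ball_zero_iff] at ht
      linarith
    have h2 := dir_analyticAt (hΨan _ h1) (l2.map stdv)
    have h3 : AnalyticAt ℂ (fun t : ℂ => t • (stdv i : Fin d → ℂ)) t := by
      fun_prop
    exact AnalyticAt.fun_comp h2 h3
  have hgb : ∀ t ∈ ball (0 : ℂ) (4 * N + 1), ‖g t‖ ≤
      (l2.length : ℝ) ^ l2.length * ((L : ℝ) ^ (d + 1) * B * E1) := by
    intro t ht
    refine hCau d (4 * N + 2) _ Ψ hΨan hΨb l2 (4 * N + 1) (by linarith) _ ?_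
    rw [mem_ball_zero_iff, hnorm]
    rwa [mem_ball_zero_iff] at ht
  have hgz : ∀ m : ℤ, |m| ≤ N →
      (fun t : ℂ => g (m + t)) =O[𝓝 0] (fun t => ‖t‖ ^ k) := by
    intro m hm
    have hmR : (|m| : ℝ) < 4 * N + 2 := by
      have : (|m| : ℝ) ≤ N := by exact_mod_cast hm
      linarith
    have h1 := hΨz i m hmR
    have h2 : (fun w => Ψ ((m : ℂ) • stdv i + w)) =O[𝓝 (0 : Fin d → ℂ)]
        (fun w => ‖w‖ ^ M) := h1.trans hord'
    have hx : (m : ℂ) • (stdv i : Fin d → ℂ) ∈ ball (0 : Fin d → ℂ) (4 * N + 2) := by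
      rw [mem_ball_zero_iff, hnorm, Complex.norm_intCast]
      exact hmR
    have h3 := hOC _ Ψ _ (hΨan _ hx) M h2 (l2.map stdv)
    have h4 : M - (l2.map (stdv : Fin d → (Fin d → ℂ))).length = k := by
      rw [List.length_map]
      omega
    rw [h4] at h3
    have h5 : Tendsto (fun t : ℂ => t • (stdv i : Fin d → ℂ)) (𝓝 0) (𝓝 0) := by
      have : Continuous (fun t : ℂ => t • (stdv i : Fin d → ℂ)) := by fun_prop
      have h6 := this.tendsto 0
      simpa using h6
    have h6 := h3.comp_tendsto h5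
    refine h6.congr ?_ ?_
    · intro t
      simp only [Function.comp, hg]
      rw [add_smul]
    · intro t
      simp only [Function.comp]
      rw [hnorm]
  have hS := hSchw g N k _ hgan hgb hgz
  -- the derivative of `g`
  have hgder : iteratedDeriv k g 0 = dir (l'.map stdv) Ψ 0 := by
    have h1 := hLine _ (dir (l2.map stdv) Ψ) 0 (stdv i) (dir_analyticAt hΨ0 _) k
    simp only [zero_add] at h1
    rw [← dir_append] at h1
    have h2 := hPerm _ Ψ 0 hΨ0 _ _ (hperm.map stdv)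
    rw [List.map_append, List.map_replicate] at h2
    rw [h2, ← h1]
  -- final computation
  rw [hgder, hlead, norm_mul] at hS
  have hkM : (k : ℝ) ≤ M := by exact_mod_cast (by omega : k ≤ M)
  have hl2M : (l2.length : ℝ) ≤ M := by exact_mod_cast (by omega : l2.length ≤ M)
  have hMd : (M : ℝ) / d ≤ k := by
    rw [div_le_iff₀ (by exact_mod_cast hd)]
    rw [hl'len, hlM] at hi
    have : ((M : ℕ) : ℝ) ≤ ((d * k : ℕ) : ℝ) := by exact_mod_cast hi
    rw [Nat.cast_mul] at this
    linarith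
  have hM1 : (1 : ℝ) ≤ M := by exact_mod_cast hMpos
  have hk1 : ((k.factorial : ℕ) : ℝ) ≤ (M : ℝ) ^ M := by
    have h1 : k.factorial ≤ k ^ k := Nat.factorial_le_pow k
    have h2 : ((k.factorial : ℕ) : ℝ) ≤ (k : ℝ) ^ k := by exact_mod_cast h1
    refine h2.trans ?_
    refine (pow_le_pow_left₀ (Nat.cast_nonneg _) hkM k).trans ?_
    exact pow_le_pow_right₀ hM1 (by omega)
  have hk2 : (l2.length : ℝ) ^ l2.length ≤ (M : ℝ) ^ M := by
    refine (pow_le_pow_left₀ (Nat.cast_nonneg _) hl2M _).trans ?_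
    exact pow_le_pow_right₀ hM1 (by omega)
  set E2 : ℝ := Real.exp (C * L * (4 * N + 2 : ℝ) ^ ρ) with hE2
  have hRρ : 0 ≤ (L : ℝ) * (4 * N + 2 : ℝ) ^ ρ := by positivity
  have hE12 : E1 ≤ E2 := by
    refine Real.exp_le_exp.2 ?_
    have := mul_le_mul_of_nonneg_right hC3C hRρ
    linarith
  have hG2 : E2⁻¹ ≤ ‖G 0‖ := by
    refine le_trans ?_ hGlow
    rw [hE2, ← Real.exp_neg]
    refine Real.exp_le_exp.2 ?_
    have := mul_le_mul_of_nonneg_right hC3C hRρ
    linarith
  have hE2pos : 0 < E2 := Real.exp_pos _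
  -- lower bound for the left hand side
  have hlhs : E2⁻¹ * ((C ^ M)⁻¹ * Real.exp (-(C * M * Real.log M))) ≤
      ‖G 0‖ * ‖dir (l'.map stdv) Φ 0‖ := by
    refine mul_le_mul hG2 ?_ (by positivity) (norm_nonneg _)
    have h1 := hlow.trans hl'
    rw [hlM, ← hM] at h1
    have h2 : C2 ^ M ≤ C ^ M := pow_le_pow_left₀ (by linarith) hC2C M
    have h3 : Real.exp (-(C * M * Real.log M)) ≤ C ^ M * ‖dir (l'.map stdv) Φ 0‖ :=
      h1.trans (mul_le_mul_of_nonneg_right h2 (norm_nonneg _))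
    rw [inv_mul_le_iff₀ (by positivity)]
    exact h3
  have hrhs : (k.factorial : ℝ) * ((l2.length : ℝ) ^ l2.length *
      ((L : ℝ) ^ (d + 1) * B * E1)) * Real.exp (-(2 * N * k)) ≤
      (M : ℝ) ^ (2 * M) * ((L : ℝ) ^ (d + 1) * B * E2) * (Real.exp (2 * N * (M / d : ℝ)))⁻¹ := by
    have h1 : Real.exp (-(2 * N * k)) ≤ (Real.exp (2 * N * (M / d : ℝ)))⁻¹ := by
      rw [← Real.exp_neg]
      refine Real.exp_le_exp.2 ?_
      have := mul_le_mul_of_nonneg_left hMd (by positivity : (0 : ℝ) ≤ 2 * N)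
      linarith
    have h2 : (k.factorial : ℝ) * ((l2.length : ℝ) ^ l2.length *
      ((L : ℝ) ^ (d + 1) * B * E1)) ≤ (M : ℝ) ^ (2 * M) * ((L : ℝ) ^ (d + 1) * B * E2) := by
      have h3 : (M : ℝ) ^ (2 * M) = (M : ℝ) ^ M * (M : ℝ) ^ M := by rw [two_mul, pow_add]
      rw [h3, mul_assoc ((M : ℝ) ^ M)]
      have hE1pos : 0 < E1 := Real.exp_pos _
      gcongr
    exact mul_le_mul h2 h1 (Real.exp_pos _).le (by positivity)
  have hfin := hlhs.trans (hS.trans hrhs)
  -- contradiction with the numerical statement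
  have hN' := hN
  have hE2sq : Real.exp (2 * (C * L * (4 * N + 2 : ℝ) ^ ρ)) = E2 * E2 := by
    rw [hE2, ← Real.exp_add]
    ring_nf
  rw [hE2sq] at hN'
  set X : ℝ := Real.exp (2 * N * (M / d : ℝ)) with hX
  set Y : ℝ := Real.exp (C * M * Real.log M) with hY
  have hXpos : 0 < X := Real.exp_pos _
  have hYpos : 0 < Y := Real.exp_pos _
  rw [Real.exp_neg, ← hY] at hfin
  have hCM : 0 < C ^ M := by positivity
  -- X ≤ M^(2M) L^(d+1) B E2 E2 C^M Y
  have key : X ≤ (M : ℝ) ^ (2 * M) * ((L : ℝ) ^ (d + 1) * B * E2) * (E2 * C ^ M * Y) := by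
    have h1 : E2⁻¹ * ((C ^ M)⁻¹ * Y⁻¹) = (E2 * C ^ M * Y)⁻¹ := by
      rw [mul_inv, mul_inv, mul_assoc]
    rw [h1] at hfin
    have h2 : 0 < E2 * C ^ M * Y := by positivity
    rw [inv_le_iff_one_le_mul₀ h2] at hfin
    have h3 := mul_le_mul_of_nonneg_left hfin hXpos.le
    rw [mul_one] at h3
    refine h3.trans (le_of_eq ?_)
    field_simp
  apply absurd hN'
  push Not
  refine key.trans (le_of_eq ?_)
  ring

end Pool.Agent.FDR.SL.MAIN
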