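import Pool.Agent.FDR.SL.Defs

/-!
# FDR / SL: the auxiliary polynomial
-/

open scoped BigOperators Polynomial Topology
open Metric Filter

namespace Pool.Agent.FDR.SLAUX

noncomputable section

/-! ## Words with given counts -/

/-- The word with `b i` letters `i`. -/
def lb {d : ℕ} (b : Fin d → ℕ) : List (Fin d) :=
  (List.ofFn (fun i : Fin d => List.replicate (b i) i)).flatten

theorem lb_length {d : ℕ} (b : Fin d → ℕ) : (lb b).length = ∑ i, b i := by
  unfold lb
  rw [List.length_flatten, List.map_ofFn, List.sum_ofFn]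
  simp

theorem lb_count {d : ℕ} (b : Fin d → ℕ) (a : Fin d) : (lb b).count a = b a := by
  unfold lb
  rw [List.count_flatten, List.map_ofFn, List.sum_ofFn]
  simp [List.count_replicate]

theorem perm_lb {d : ℕ} (l : List (Fin d)) : l.Perm (lb (fun i => l.count i)) := by
  rw [List.perm_iff_count]
  intro a
  rw [lb_count]

/-! ## Elementary inequalities -/

theorem pow_eq_exp {x : ℝ} (hx : 0 < x) (n : ℕ) : x ^ n = Real.exp (n * Real.log x) := by
  rw [Real.exp_nat_mul, Real.exp_log hx]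

theorem one_le_two_log {x : ℝ} (hx : 2 ≤ x) : 1 ≤ 2 * Real.log x := by
  have h1 : Real.log 2 ≤ Real.log x := Real.log_le_log (by norm_num) hx
  have h2 := Real.log_two_gt_d9
  linarith

theorem const_pow_le {c s X ℓ : ℝ} (hc : 1 ≤ c) (hX : 0 ≤ X) (hs : 0 ≤ s) (hℓ : 1 ≤ 2 * ℓ)
    {S : ℕ} (hS : (S : ℝ) ≤ s * X) : c ^ S ≤ Real.exp (2 * c * s * (X * ℓ)) := by
  have hc0 : 0 < c := by linarith
  rw [pow_eq_exp hc0]
  refine Real.exp_le_exp.2 ?_
  have h1 : Real.log c ≤ c := (Real.log_le_sub_one_of_pos hc0).trans (by linarith)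
  have h2 : (S : ℝ) * Real.log c ≤ s * X * c :=
    mul_le_mul hS h1 (Real.log_nonneg hc) (by positivity)
  have h3 : s * X * c ≤ s * X * c * (2 * ℓ) := le_mul_of_one_le_right (by positivity) hℓ
  calc (S : ℝ) * Real.log c ≤ s * X * c * (2 * ℓ) := h2.trans h3
    _ = 2 * c * s * (X * ℓ) := by ring

theorem const_le {c X ℓ : ℝ} (hc : 0 ≤ c) (hX : 1 ≤ X) (hℓ : 1 ≤ 2 * ℓ) :
    c ≤ Real.exp (2 * c * (X * ℓ)) := by
  have h1 : c ≤ Real.exp c := (by linarith [Real.add_one_le_exp c])
  refine h1.trans (Real.exp_le_exp.2 ?_)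
  have h2 : 1 ≤ X * (2 * ℓ) := by nlinarith
  calc c ≤ c * (X * (2 * ℓ)) := le_mul_of_one_le_right hc h2
    _ = 2 * c * (X * ℓ) := by ring

theorem fin_sum_le {m L : ℕ} (e : Fin m → Fin L) : ∑ i, (e i : ℕ) ≤ m * L := by
  calc ∑ i, (e i : ℕ) ≤ ∑ _i : Fin m, L := Finset.sum_le_sum (fun i _ => (e i).2.le)
    _ = m * L := by simp

theorem norm_sigma_natpow {K : IntermediateField ℚ ℂ} (σ : K →+* ℂ) (D S : ℕ) (x : K) :
    ‖σ ((D : K) ^ S * x)‖ = (D : ℝ) ^ S * ‖σ x‖ := by
  rw [map_mul, map_pow, map_natCast, norm_mul, norm_pow, Complex.norm_natCast]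

theorem thm_SLAUX (hBound : Stmt_Bound) (hSieg : Stmt_Sieg) (hLiou : Stmt_Liou) :
    Stmt_SLAux := by
  intro d n hd K hK P Q a hcomm
  obtain ⟨C1, D, hC1, hD, hB⟩ := hBound d n (d + 1) K hK P Q a
  obtain ⟨C2, hC2, hS⟩ := hSieg K hK
  have hDr : (1 : ℝ) ≤ D := by exact_mod_cast hD
  set c : ℝ := D * C1 with hc
  have hc1 : 1 ≤ c := by nlinarith
  set k : ℕ := Module.finrank ℚ K with hk
  set Cd : ℝ := 2 * c * (2 * d + 1) + d * (3 * d + 2) with hCd
  set Ca : ℝ := 2 * C2 + (d + 1) * (d + 1) + Cd with hCa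
  set Ce : ℝ := (d + 1) + Ca + 2 * C1 * (d + 2) + (2 * (d + 2) + 1) with hCe
  have hCd0 : 0 ≤ Cd := by positivity
  have hCa0 : 0 ≤ Ca := by positivity
  have hCe0 : 0 ≤ Ce := by positivity
  refine ⟨1 + Ca + k * (2 * D * (d + 2) + Ce), ?_, ?_⟩
  · have : (0 : ℝ) ≤ k * (2 * D * (d + 2) + Ce) := by positivity
    linarith
  intro U hU
  have hUr : (2 : ℝ) ≤ U := by exact_mod_cast hU
  have hℓ := one_le_two_log hUr
  have hlogU : 0 ≤ Real.log U := by linarith
  set L : ℕ := 2 * U ^ d with hL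
  set T : ℕ := U ^ (d + 1) with hT
  have hT1 : 1 ≤ T := Nat.one_le_pow _ _ (by omega)
  have hL1 : 1 ≤ L := by
    have : 1 ≤ U ^ d := Nat.one_le_pow _ _ (by omega)
    omega
  have hLT : L ≤ T := by
    rw [hL, hT, pow_succ, mul_comm]
    exact Nat.mul_le_mul_left _ hU
  have hT1r : (1 : ℝ) ≤ T := by exact_mod_cast hT1
  set S : ℕ := d * T + (d + 1) * L with hSdef
  have hS1 : 1 ≤ S := by
    have : 1 ≤ (d + 1) * L := Nat.mul_pos (by omega) hL1
    omega
  have hST : S ≤ (2 * d + 1) * T := by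
    calc S ≤ d * T + (d + 1) * T := Nat.add_le_add_left (Nat.mul_le_mul_left _ hLT) _
      _ = (2 * d + 1) * T := by ring
  have hSr : (S : ℝ) ≤ (2 * d + 1) * T := by exact_mod_cast hST
  have hSU : S ≤ U ^ (3 * d + 2) := by
    calc S ≤ (2 * d + 1) * T := hST
      _ ≤ U ^ (2 * d + 1) * T := by
        refine Nat.mul_le_mul_right _ ?_
        exact (Nat.lt_two_pow_self).le.trans (Nat.pow_le_pow_left hU _)
      _ = U ^ (3 * d + 2) := by rw [hT, ← pow_add]; congr 1; ring
  have hlogS : Real.log S ≤ (3 * d + 2) * Real.log U := by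
    have h1 : (S : ℝ) ≤ (U : ℝ) ^ (3 * d + 2) := by exact_mod_cast hSU
    have h2 := Real.log_le_log (by exact_mod_cast hS1) h1
    rw [Real.log_pow] at h2
    push_cast at h2
    exact h2
  have hSpos : (0 : ℝ) < S := by exact_mod_cast hS1
  have hS1r : (1 : ℝ) ≤ S := by exact_mod_cast hS1
  -- the Siegel system
  set A : ℝ := Real.exp (Cd * (T * Real.log U)) with hA
  have hTl : 0 ≤ (T : ℝ) * Real.log U := by positivity
  have hA1 : 1 ≤ A := Real.one_le_exp (mul_nonneg hCd0 hTl)
  have hrow : ∀ (b : Fin d → Fin T) (e : Fin (d + 1) → Fin L),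
      (∀ σ : K →+* ℂ, ‖σ ((D : K) ^ S * MvPolynomial.eval a
        (dops P (lb (fun i => (b i : ℕ))) (∏ i, Q i ^ (e i : ℕ))))‖ ≤ A) ∧
      IsIntegral ℤ ((D : K) ^ S * MvPolynomial.eval a
        (dops P (lb (fun i => (b i : ℕ))) (∏ i, Q i ^ (e i : ℕ)))) := by
    intro b e
    have hlen : (lb (fun i => (b i : ℕ))).length ≤ d * T := by
      rw [lb_length]
      exact fin_sum_le b
    have he := fin_sum_le e
    obtain ⟨h1, h2⟩ := hB (lb (fun i => (b i : ℕ))) (fun i => (e i : ℕ)) S
      (he.trans (by omega)) (hlen.trans (by omega)) hS1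
    refine ⟨fun σ => ?_, h2⟩
    rw [norm_sigma_natpow]
    have h3 : (S : ℝ) ^ (lb (fun i => (b i : ℕ))).length ≤ (S : ℝ) ^ (d * T) :=
      pow_le_pow_right₀ hS1r hlen
    have h4 : (S : ℝ) ^ (d * T) ≤ Real.exp (d * (3 * d + 2) * (T * Real.log U)) := by
      rw [pow_eq_exp hSpos]
      refine Real.exp_le_exp.2 ?_
      push_cast
      calc (d : ℝ) * T * Real.log S ≤ d * T * ((3 * d + 2) * Real.log U) :=
            mul_le_mul_of_nonneg_left hlogS (by positivity)
        _ = d * (3 * d + 2) * (T * Real.log U) := by ring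
    have h5 : c ^ S ≤ Real.exp (2 * c * (2 * d + 1) * (T * Real.log U)) :=
      const_pow_le hc1 (by positivity) (by positivity) hℓ hSr
    calc (D : ℝ) ^ S * ‖σ (MvPolynomial.eval a
          (dops P (lb (fun i => (b i : ℕ))) (∏ i, Q i ^ (e i : ℕ))))‖
        ≤ (D : ℝ) ^ S * (C1 ^ S * (S : ℝ) ^ (lb (fun i => (b i : ℕ))).length) :=
          mul_le_mul_of_nonneg_left (h1 σ) (by positivity)
      _ = c ^ S * (S : ℝ) ^ (lb (fun i => (b i : ℕ))).length := by rw [hc, mul_pow]; ring
      _ ≤ Real.exp (2 * c * (2 * d + 1) * (T * Real.log U)) *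
          Real.exp (d * (3 * d + 2) * (T * Real.log U)) :=
          mul_le_mul h5 (h3.trans h4) (by positivity) (by positivity)
      _ = A := by rw [← Real.exp_add, hA, hCd]; congr 1; ring
  obtain ⟨p, hp0, hpint, hpz, hpσ⟩ := hS (Fin d → Fin T) (Fin (d + 1) → Fin L)
    (fun b e => (D : K) ^ S * MvPolynomial.eval a
      (dops P (lb (fun i => (b i : ℕ))) (∏ i, Q i ^ (e i : ℕ)))) A hA1
    (by simp only [Fintype.card_fun, Fintype.card_fin]; exact Nat.pow_pos hL1)
    (by
      simp only [Fintype.card_fun, Fintype.card_fin]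
      rw [hT, hL, mul_pow, ← pow_mul, ← pow_mul, mul_comm (d + 1) d]
      refine Nat.mul_le_mul_right _ ?_
      calc 2 = 2 ^ 1 := by norm_num
        _ ≤ 2 ^ (d + 1) := Nat.pow_le_pow_right (by norm_num) (by omega))
    (fun b e => (hrow b e).2) (fun b e => (hrow b e).1)
  have hcardβ : ((Fintype.card (Fin (d + 1) → Fin L) : ℕ) : ℝ) = (L : ℝ) ^ (d + 1) := by
    simp [Fintype.card_fin]
  have hLU : (L : ℝ) ^ (d + 1) ≤ Real.exp ((d + 1) * (d + 1) * (T * Real.log U)) := by
    have h1 : (L : ℝ) ≤ (U : ℝ) ^ (d + 1) := by exact_mod_cast hLT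
    have h2 : (L : ℝ) ^ (d + 1) ≤ ((U : ℝ) ^ (d + 1)) ^ (d + 1) :=
      pow_le_pow_left₀ (by positivity) h1 _
    rw [← pow_mul, pow_eq_exp (x := (U : ℝ)) (by linarith)] at h2
    refine h2.trans (Real.exp_le_exp.2 ?_)
    push_cast
    refine mul_le_mul_of_nonneg_left ?_ (by positivity)
    exact le_mul_of_one_le_left hlogU hT1r
  have hpB : ∀ e, ∀ σ : K →+* ℂ, ‖σ (p e)‖ ≤ Real.exp (Ca * (T * Real.log U)) := by
    intro e σ
    refine (hpσ e σ).trans ?_
    rw [hcardβ]
    calc C2 * (L : ℝ) ^ (d + 1) * A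
        ≤ Real.exp (2 * C2 * (T * Real.log U)) *
          Real.exp ((d + 1) * (d + 1) * (T * Real.log U)) * A := by
          refine mul_le_mul_of_nonneg_right ?_ (by positivity)
          exact mul_le_mul (const_le (by linarith) hT1r hℓ) hLU (by positivity) (by positivity)
      _ = Real.exp (Ca * (T * Real.log U)) := by
          rw [hA, ← Real.exp_add, ← Real.exp_add, hCa]
          congr 1
          ring
  refine ⟨p, hp0, ?_, ?_, ?_⟩
  · intro e
    have h1 := hpB e (algebraMap K ℂ)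
    refine h1.trans (Real.exp_le_exp.2 ?_)
    have h2 : (0 : ℝ) ≤ k * (2 * D * (d + 2) + Ce) := by positivity
    rw [mul_assoc]
    exact mul_le_mul_of_nonneg_right (by linarith) hTl
  · intro l hl
    have hDK : (D : K) ≠ 0 := by exact_mod_cast (by omega : D ≠ 0)
    have h1 := hpz (fun i => ⟨l.count i, lt_of_le_of_lt List.count_le_length hl⟩)
    have h2 : (D : K) ^ S * ∑ e, p e * MvPolynomial.eval a
        (dops P l (∏ i, Q i ^ ((e i : ℕ)))) = 0 := by
      rw [← h1, Finset.mul_sum]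
      refine Finset.sum_congr rfl (fun e _ => ?_)
      rw [hcomm l (lb (fun i => l.count i)) (perm_lb l)]
      ring
    exact (mul_eq_zero.1 h2).resolve_left (pow_ne_zero _ hDK)
  · intro l hl hne
    set m : ℕ := l.length with hm
    have hmT : T ≤ m := hl
    have hUT : U ≤ T := by
      rw [hT]
      exact Nat.le_self_pow (by omega) U
    have hUm : U ≤ m := hUT.trans hmT
    have hm2 : (2 : ℝ) ≤ m := by exact_mod_cast hU.trans hUm
    have hℓm := one_le_two_log hm2
    have hlogm : 0 ≤ Real.log m := by linarith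
    have hm1 : (1 : ℝ) ≤ m := by linarith
    have hml : 0 ≤ (m : ℝ) * Real.log m := by positivity
    have hTm : (T : ℝ) * Real.log U ≤ m * Real.log m := by
      refine mul_le_mul (by exact_mod_cast hmT) (Real.log_le_log (by linarith)
        (by exact_mod_cast hUm)) hlogU (by linarith)
    set S' : ℕ := m + (d + 1) * L with hS'
    have hS'1 : 1 ≤ S' := by
      have : 1 ≤ m := by exact_mod_cast hm1
      omega
    have hS'm : S' ≤ (d + 2) * m := by
      calc S' ≤ m + (d + 1) * m := Nat.add_le_add_left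
            (Nat.mul_le_mul_left _ (hLT.trans hmT)) _
        _ = (d + 2) * m := by ring
    have hS'r : (S' : ℝ) ≤ (d + 2) * m := by exact_mod_cast hS'm
    have hS'pos : (0 : ℝ) < S' := by exact_mod_cast hS'1
    have hlogS' : Real.log S' ≤ (2 * (d + 2) + 1) * Real.log m := by
      have h1 := Real.log_le_log hS'pos hS'r
      rw [Real.log_mul (by positivity) (by positivity)] at h1
      have h2 : Real.log ((d : ℝ) + 2) ≤ d + 2 :=
        (Real.log_le_sub_one_of_pos (by positivity)).trans (by linarith)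
      have h3 : ((d : ℝ) + 2) ≤ (d + 2) * (2 * Real.log m) :=
        le_mul_of_one_le_right (by positivity) hℓm
      nlinarith
    have hbnd : ∀ e : Fin (d + 1) → Fin L, (∀ σ : K →+* ℂ, ‖σ (MvPolynomial.eval a
        (dops P l (∏ i, Q i ^ (e i : ℕ))))‖ ≤ C1 ^ S' * (S' : ℝ) ^ m) ∧
        IsIntegral ℤ ((D : K) ^ S' * MvPolynomial.eval a
          (dops P l (∏ i, Q i ^ (e i : ℕ)))) := by
      intro e
      exact hB l (fun i => (e i : ℕ)) S' ((fin_sum_le e).trans (by omega)) (by omega) hS'1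
    set y : K := ∑ e, p e * MvPolynomial.eval a (dops P l (∏ i, Q i ^ (e i : ℕ))) with hy
    have hyint : IsIntegral ℤ (((D ^ S' : ℕ) : K) * y) := by
      rw [hy, Finset.mul_sum]
      refine IsIntegral.sum _ (fun e _ => ?_)
      have h1 := (hpint e).mul (hbnd e).2
      have h2 : ((D ^ S' : ℕ) : K) * (p e * MvPolynomial.eval a
          (dops P l (∏ i, Q i ^ (e i : ℕ)))) = p e * ((D : K) ^ S' * MvPolynomial.eval a
          (dops P l (∏ i, Q i ^ (e i : ℕ)))) := by
        push_cast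
        ring
      rw [h2]
      exact h1
    have hyσ : ∀ σ : K →+* ℂ, ‖σ y‖ ≤ Real.exp (Ce * (m * Real.log m)) := by
      intro σ
      rw [hy, map_sum]
      have h1 : ∀ e ∈ (Finset.univ : Finset (Fin (d + 1) → Fin L)),
          ‖σ (p e * MvPolynomial.eval a (dops P l (∏ i, Q i ^ (e i : ℕ))))‖ ≤
          Real.exp (Ca * (m * Real.log m)) * (C1 ^ S' * (S' : ℝ) ^ m) := by
        intro e _
        rw [map_mul, norm_mul]
        refine mul_le_mul ((hpB e σ).trans (Real.exp_le_exp.2
          (mul_le_mul_of_nonneg_left hTm hCa0))) ((hbnd e).1 σ) (norm_nonneg _) (by positivity)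
      refine (norm_sum_le_of_le _ h1).trans ?_
      rw [Finset.sum_const, Finset.card_univ, nsmul_eq_mul, hcardβ]
      have h2 : (L : ℝ) ^ (d + 1) ≤ Real.exp ((d + 1) * (m * Real.log m)) := by
        have h3 : (L : ℝ) ≤ m := by exact_mod_cast hLT.trans hmT
        refine (pow_le_pow_left₀ (by positivity) h3 _).trans ?_
        rw [pow_eq_exp (by linarith)]
        refine Real.exp_le_exp.2 ?_
        push_cast
        refine mul_le_mul_of_nonneg_left ?_ (by positivity)
        exact le_mul_of_one_le_left hlogm hm1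
      have h4 : C1 ^ S' ≤ Real.exp (2 * C1 * (d + 2) * (m * Real.log m)) :=
        const_pow_le hC1 (by positivity) (by positivity) hℓm hS'r
      have h5 : (S' : ℝ) ^ m ≤ Real.exp ((2 * (d + 2) + 1) * (m * Real.log m)) := by
        rw [pow_eq_exp hS'pos]
        refine Real.exp_le_exp.2 ?_
        calc (m : ℝ) * Real.log S' ≤ m * ((2 * (d + 2) + 1) * Real.log m) :=
              mul_le_mul_of_nonneg_left hlogS' (by positivity)
          _ = (2 * (d + 2) + 1) * (m * Real.log m) := by ring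
      calc (L : ℝ) ^ (d + 1) * (Real.exp (Ca * (m * Real.log m)) * (C1 ^ S' * (S' : ℝ) ^ m))
          ≤ Real.exp ((d + 1) * (m * Real.log m)) * (Real.exp (Ca * (m * Real.log m)) *
            (Real.exp (2 * C1 * (d + 2) * (m * Real.log m)) *
              Real.exp ((2 * (d + 2) + 1) * (m * Real.log m)))) := by
            refine mul_le_mul h2 ?_ (by positivity) (by positivity)
            refine mul_le_mul_of_nonneg_left ?_ (by positivity)
            exact mul_le_mul h4 h5 (by positivity) (by positivity)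
        _ = Real.exp (Ce * (m * Real.log m)) := by
            rw [← Real.exp_add, ← Real.exp_add, ← Real.exp_add, hCe]
            congr 1
            ring
    have hL := hLiou K hK y hne (Real.exp (Ce * (m * Real.log m))) (D ^ S')
      (Real.one_le_exp (mul_nonneg hCe0 hml)) (Nat.pow_pos hD) hyint hyσ
    rw [← hk] at hL
    have h6 : (((D ^ S' : ℕ) : ℝ) * Real.exp (Ce * (m * Real.log m))) ^ k ≤
        Real.exp (k * (2 * D * (d + 2) + Ce) * (m * Real.log m)) := by
      have h7 : ((D ^ S' : ℕ) : ℝ) ≤ Real.exp (2 * D * (d + 2) * (m * Real.log m)) := by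
        push_cast
        exact const_pow_le hDr (by positivity) (by positivity) hℓm hS'r
      calc (((D ^ S' : ℕ) : ℝ) * Real.exp (Ce * (m * Real.log m))) ^ k
          ≤ (Real.exp (2 * D * (d + 2) * (m * Real.log m)) *
            Real.exp (Ce * (m * Real.log m))) ^ k := by
            refine pow_le_pow_left₀ (by positivity) ?_ _
            exact mul_le_mul_of_nonneg_right h7 (by positivity)
        _ = Real.exp (k * (2 * D * (d + 2) + Ce) * (m * Real.log m)) := by
            rw [← Real.exp_add, ← Real.exp_nat_mul]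
            congr 1
            ring
    have h8 : 1 ≤ Real.exp (k * (2 * D * (d + 2) + Ce) * (m * Real.log m)) * ‖(y : ℂ)‖ :=
      hL.trans (mul_le_mul_of_nonneg_right h6 (norm_nonneg _))
    have h9 : Real.exp (-(k * (2 * D * (d + 2) + Ce) * (m * Real.log m))) ≤ ‖(y : ℂ)‖ := by
      rw [Real.exp_neg, inv_le_iff_one_le_mul₀' (Real.exp_pos _)]
      exact h8
    refine le_trans (Real.exp_le_exp.2 ?_) h9
    have h10 : (k : ℝ) * (2 * D * (d + 2) + Ce) * (m * Real.log m) ≤
        (1 + Ca + k * (2 * D * (d + 2) + Ce)) * (m * Real.log m) :=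
      mul_le_mul_of_nonneg_right (by linarith) hml
    rw [mul_assoc]
    linarith

end

end Pool.Agent.FDR.SLAUX
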