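import Pool.Agent.FDR.SL.Defs

open scoped BigOperators Topology
open Filter Asymptotics

namespace Pool.Agent.FDR.SL.SLNUM

noncomputable section

theorem growth (d : ℕ) (hd : 0 < d) (C κ : ℝ) (hκ : 0 < κ) :
    ∃ M0 : ℕ, ∀ M : ℕ, M0 ≤ M → (2 + 2 * (d + 1) + 2 * C) * Real.log M + 5 * C < ((M : ℝ) ^ κ - 6) / (2 * d) := by
  have hd' : (0 : ℝ) < d := by exact_mod_cast hd
  set A : ℝ := |2 + 2 * (d + 1) + 2 * C| with hA
  have h1 : (fun x : ℝ => Real.log x) =o[atTop] fun x : ℝ => x ^ κ := isLittleO_log_rpow_atTop hκ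
  have h2 := h1.bound (c := 1 / (4 * d * (A + 1))) (by positivity)
  have h3 : ∀ᶠ x : ℝ in atTop, (4 * d) * (5 * C) + 12 < x ^ κ :=
    (tendsto_rpow_atTop hκ).eventually (eventually_gt_atTop _)
  have h4 : ∀ᶠ x : ℝ in atTop, (1 : ℝ) ≤ x := eventually_ge_atTop 1
  have h5 := (h2.and (h3.and h4))
  have h6 : ∀ᶠ M : ℕ in atTop, ‖Real.log (M : ℝ)‖ ≤ 1 / (4 * d * (A + 1)) * ‖(M : ℝ) ^ κ‖ ∧
      (4 * d) * (5 * C) + 12 < (M : ℝ) ^ κ ∧ (1 : ℝ) ≤ M :=
    tendsto_natCast_atTop_atTop.eventually h5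
  obtain ⟨M0, hM0⟩ := eventually_atTop.mp h6
  refine ⟨M0, fun M hM => ?_⟩
  obtain ⟨h7, h8, h9⟩ := hM0 M hM
  have hlog : 0 ≤ Real.log M := Real.log_nonneg h9
  have hp : 0 ≤ (M : ℝ) ^ κ := by positivity
  rw [Real.norm_of_nonneg hlog, Real.norm_of_nonneg hp] at h7
  have h10 : (2 + 2 * (d + 1) + 2 * C) * Real.log M ≤ (M : ℝ) ^ κ / (4 * d) := by
    calc (2 + 2 * (d + 1) + 2 * C) * Real.log M ≤ A * Real.log M :=
          mul_le_mul_of_nonneg_right (le_abs_self _) hlog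
      _ ≤ (A + 1) * Real.log M := by nlinarith
      _ ≤ (A + 1) * (1 / (4 * d * (A + 1)) * (M : ℝ) ^ κ) := by
          apply mul_le_mul_of_nonneg_left h7 (by positivity)
      _ = (M : ℝ) ^ κ / (4 * d) := by
          have : A + 1 ≠ 0 := by positivity
          field_simp
  rw [lt_div_iff₀ (by positivity)]
  have h11 : (2 + 2 * (d + 1) + 2 * C) * Real.log M * (2 * d) ≤ (M : ℝ) ^ κ / 2 := by
    calc (2 + 2 * (d + 1) + 2 * C) * Real.log M * (2 * d) ≤ (M : ℝ) ^ κ / (4 * d) * (2 * d) :=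
          mul_le_mul_of_nonneg_right h10 (by positivity)
      _ = (M : ℝ) ^ κ / 2 := by
        field_simp
        ring
  nlinarith

theorem thm_SLNUM : Stmt_SLNum := by
  intro d hd C ρ hC hρ
  have hd' : (0 : ℝ) < d := by exact_mod_cast hd
  set κ : ℝ := 1 / ((d + 1) * ρ) with hκ
  have hκ0 : 0 < κ := by positivity
  obtain ⟨M0, hM0⟩ := growth d hd C κ hκ0
  refine ⟨max 2 M0, le_max_left _ _, ?_⟩
  set U : ℕ := max 2 M0 with hU
  have hU2 : 2 ≤ U := le_max_left _ _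
  intro M hM
  have hUM : U ≤ M := by
    calc U = U ^ 1 := (pow_one U).symm
      _ ≤ U ^ (d + 1) := Nat.pow_le_pow_right (by omega) (by omega)
      _ ≤ M := hM
  have hUdM : U ^ d ≤ M := by
    calc U ^ d ≤ U ^ (d + 1) := Nat.pow_le_pow_right (by omega) (by omega)
      _ ≤ M := hM
  have hM2 : 2 ≤ M := hU2.trans hUM
  have hMr : (2 : ℝ) ≤ M := by exact_mod_cast hM2
  have hMpos : (0 : ℝ) < M := by linarith
  have hg := hM0 M ((le_max_right _ _).trans hUM)
  have hlog : 0 ≤ Real.log M := Real.log_nonneg (by linarith)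
  have hK6 : 6 < (M : ℝ) ^ κ := by
    by_contra hc
    push Not at hc
    have h1 : ((M : ℝ) ^ κ - 6) / (2 * d) ≤ 0 := div_nonpos_of_nonpos_of_nonneg (by linarith) (by positivity)
    have h2 : 0 ≤ (2 + 2 * (d + 1) + 2 * C) * Real.log M + 5 * C := by positivity
    linarith
  set N : ℕ := ⌊((M : ℝ) ^ κ - 2) / 4⌋₊ with hN
  refine ⟨N, ?_⟩
  have hN1 : (N : ℝ) ≤ ((M : ℝ) ^ κ - 2) / 4 := Nat.floor_le (by linarith)
  have hN2 : ((M : ℝ) ^ κ - 2) / 4 < N + 1 := Nat.lt_floor_add_one _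
  -- the root
  set y : ℝ := (M : ℝ) ^ (1 / ((d : ℝ) + 1)) with hy
  have hy0 : 0 < y := by positivity
  have hyM : y ^ (d + 1) = M := by
    rw [hy, ← Real.rpow_natCast, ← Real.rpow_mul hMpos.le]
    push_cast
    rw [one_div_mul_cancel (by positivity), Real.rpow_one]
  have hUy : (U : ℝ) ≤ y := by
    by_contra hc
    push Not at hc
    have h1 : y ^ (d + 1) < (U : ℝ) ^ (d + 1) := pow_lt_pow_left₀ hc hy0.le (by omega)
    rw [hyM] at h1
    have h2 : (U : ℝ) ^ (d + 1) ≤ M := by exact_mod_cast hM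
    linarith
  have hNy : (4 * (N : ℝ) + 2) ^ ρ ≤ y := by
    have h1 : 4 * (N : ℝ) + 2 ≤ (M : ℝ) ^ κ := by linarith
    calc (4 * (N : ℝ) + 2) ^ ρ ≤ ((M : ℝ) ^ κ) ^ ρ := Real.rpow_le_rpow (by positivity) h1 (by linarith)
      _ = y := by
        rw [← Real.rpow_mul hMpos.le, hy, hκ]
        congr 1
        field_simp
  have hprod : ((U : ℝ) ^ d) * (4 * (N : ℝ) + 2) ^ ρ ≤ M := by
    calc ((U : ℝ) ^ d) * (4 * (N : ℝ) + 2) ^ ρ ≤ y ^ d * y := by
          apply mul_le_mul _ hNy (by positivity) (by positivity)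
          exact pow_le_pow_left₀ (by positivity) hUy d
      _ = M := by rw [← pow_succ, hyM]
  -- factors
  have hf1 : (M : ℝ) ^ (2 * M) = Real.exp (2 * M * Real.log M) := by
    rw [← Real.rpow_natCast, Real.rpow_def_of_pos hMpos]
    congr 1
    push_cast
    ring
  have hf2 : ((2 * U ^ d : ℕ) : ℝ) ^ (d + 1) ≤ Real.exp (2 * (d + 1) * Real.log M) := by
    have h1 : ((2 * U ^ d : ℕ) : ℝ) ≤ (M : ℝ) ^ 2 := by
      have : 2 * U ^ d ≤ M ^ 2 := by
        rw [sq]
        exact Nat.mul_le_mul hM2 hUdM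
      exact_mod_cast this
    calc ((2 * U ^ d : ℕ) : ℝ) ^ (d + 1) ≤ ((M : ℝ) ^ 2) ^ (d + 1) := pow_le_pow_left₀ (by positivity) h1 _
      _ = Real.exp (2 * (d + 1) * Real.log M) := by
        rw [← pow_mul, ← Real.rpow_natCast, Real.rpow_def_of_pos hMpos]
        congr 1
        push_cast
        ring
  have hf3 : Real.exp (C * (U ^ (d + 1) : ℕ) * Real.log U) ≤ Real.exp (C * M * Real.log M) := by
    apply Real.exp_le_exp.mpr
    have h1 : ((U ^ (d + 1) : ℕ) : ℝ) ≤ M := by exact_mod_cast hM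
    have h2 : Real.log U ≤ Real.log M := by
      apply Real.log_le_log
      · have : 0 < U := by omega
        exact_mod_cast this
      · exact_mod_cast hUM
    have h3 : 0 ≤ Real.log U := Real.log_natCast_nonneg U
    gcongr
  have hf4 : Real.exp (2 * (C * (2 * U ^ d : ℕ) * (4 * N + 2 : ℝ) ^ ρ)) ≤ Real.exp (4 * C * M) := by
    apply Real.exp_le_exp.mpr
    have h1 : 2 * (C * (2 * U ^ d : ℕ) * (4 * N + 2 : ℝ) ^ ρ) = 4 * C * (((U : ℝ) ^ d) * (4 * (N : ℝ) + 2) ^ ρ) := by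
      push_cast
      ring
    rw [h1]
    exact mul_le_mul_of_nonneg_left hprod (by positivity)
  have hf5 : C ^ M ≤ Real.exp (C * M) := by
    have h1 : C ≤ Real.exp C := by
      have := Real.add_one_le_exp C
      linarith
    calc C ^ M ≤ (Real.exp C) ^ M := pow_le_pow_left₀ (by linarith) h1 M
      _ = Real.exp (C * M) := by rw [← Real.exp_nat_mul, mul_comm]
  calc (M : ℝ) ^ (2 * M) * ((2 * U ^ d : ℕ) : ℝ) ^ (d + 1) *
      Real.exp (C * (U ^ (d + 1) : ℕ) * Real.log U) *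
      Real.exp (2 * (C * (2 * U ^ d : ℕ) * (4 * N + 2 : ℝ) ^ ρ)) * C ^ M *
      Real.exp (C * M * Real.log M)
      ≤ Real.exp (2 * M * Real.log M) * Real.exp (2 * (d + 1) * Real.log M) *
      Real.exp (C * M * Real.log M) * Real.exp (4 * C * M) * Real.exp (C * M) *
      Real.exp (C * M * Real.log M) := by
        rw [hf1]
        gcongr
    _ = Real.exp (2 * M * Real.log M + 2 * (d + 1) * Real.log M + C * M * Real.log M + 4 * C * M
          + C * M + C * M * Real.log M) := by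
        simp only [Real.exp_add]
    _ < Real.exp (2 * N * (M / d : ℝ)) := by
        apply Real.exp_lt_exp.mpr
        have h1 : 2 * ((d : ℝ) + 1) * Real.log M ≤ 2 * ((d : ℝ) + 1) * Real.log M * M := by
          have : 0 ≤ 2 * ((d : ℝ) + 1) * Real.log M := by positivity
          nlinarith
        have h2 : ((2 + 2 * (d + 1) + 2 * C) * Real.log M + 5 * C) * M < 2 * N * (M / d : ℝ) := by
          have h3 : ((M : ℝ) ^ κ - 6) / (2 * d) ≤ 2 * N / d := by
            rw [div_le_div_iff₀ (by positivity) hd']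
            have : (M : ℝ) ^ κ - 6 ≤ 4 * N := by linarith
            nlinarith
          have h4 : (2 + 2 * (d + 1) + 2 * C) * Real.log M + 5 * C < 2 * N / d := lt_of_lt_of_le hg h3
          calc ((2 + 2 * (d + 1) + 2 * C) * Real.log M + 5 * C) * M < (2 * N / d) * M :=
                mul_lt_mul_of_pos_right h4 hMpos
            _ = 2 * N * (M / d : ℝ) := by ring
        refine lt_of_le_of_lt ?_ h2
        nlinarith

end

end Pool.Agent.FDR.SL.SLNUM
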