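import Pool.Agent.FDR.SL.Defs

/-!
# FDR / SL, module AIDIR: Dirichlet recurrence
-/

open scoped BigOperators Polynomial Topology
open Metric Filter

namespace Pool.Agent.FDR.SL.AIDIR

noncomputable section

theorem thm_AIDIR : Stmt_AIDir := by
  intro g Λ hspan x ε hε N
  have hx : x ∈ Submodule.span ℝ (Λ : Set (Fin g → ℂ)) := by rw [hspan]; trivial
  obtain ⟨r, c, l, hx⟩ := Submodule.mem_span_set'.mp hx
  -- fractional parts
  set u : ℕ → (Fin g → ℂ) := fun k => ∑ i, Int.fract (k * c i) • (l i : Fin g → ℂ) with hu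
  set v : ℕ → (Fin g → ℂ) := fun k => ∑ i, ⌊(k : ℝ) * c i⌋ • (l i : Fin g → ℂ) with hv
  have hvmem : ∀ k, v k ∈ Λ := fun k => by
    simp only [hv]
    exact AddSubgroup.sum_mem _ fun i _ => Λ.zsmul_mem (l i).2 _
  have huv : ∀ k : ℕ, (k : ℂ) • x = u k + v k := by
    intro k
    simp only [hu, hv]
    rw [← Finset.sum_add_distrib, ← hx, Finset.smul_sum]
    refine Finset.sum_congr rfl fun i _ => ?_
    rw [← Int.cast_smul_eq_zsmul ℝ, ← add_smul, Int.fract_add_floor]
    funext a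
    simp only [Pi.smul_apply, smul_eq_mul, Complex.real_smul]
    push_cast
    ring
  have hbd : ∀ k, u k ∈ closedBall (0 : Fin g → ℂ) (∑ i, ‖(l i : Fin g → ℂ)‖) := by
    intro k
    rw [mem_closedBall_zero_iff]
    simp only [hu]
    refine (norm_sum_le _ _).trans (Finset.sum_le_sum fun i _ => ?_)
    rw [norm_smul, Real.norm_eq_abs, abs_of_nonneg (Int.fract_nonneg _)]
    exact mul_le_of_le_one_left (norm_nonneg _) (Int.fract_lt_one _).le
  obtain ⟨a, -, φ, hφ, hlim⟩ := tendsto_subseq_of_bounded isBounded_closedBall hbd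
  rw [Metric.tendsto_atTop] at hlim
  obtain ⟨m, hm⟩ := hlim (ε / 2) (by positivity)
  have h1 := hm m le_rfl
  have hle : φ m + N ≤ φ (m + (φ m + N)) := by
    have := hφ.id_le (m + (φ m + N))
    simp only [id] at this
    omega
  have h2 := hm (m + (φ m + N)) (by omega)
  refine ⟨φ (m + (φ m + N)) - φ m, by omega, v (φ (m + (φ m + N))) - v (φ m),
    Λ.sub_mem (hvmem _) (hvmem _), ?_⟩
  have h3 : ((φ (m + (φ m + N)) - φ m : ℕ) : ℂ) • x - (v (φ (m + (φ m + N))) - v (φ m))
      = u (φ (m + (φ m + N))) - u (φ m) := by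
    rw [Nat.cast_sub (by omega), sub_smul, huv, huv]
    abel
  rw [h3, ← dist_eq_norm]
  calc dist (u (φ (m + (φ m + N)))) (u (φ m))
      ≤ dist (u (φ (m + (φ m + N)))) a + dist (u (φ m)) a := dist_triangle_right _ _ _
    _ < ε / 2 + ε / 2 := add_lt_add h2 h1
    _ = ε := by ring

end

end Pool.Agent.FDR.SL.AIDIR
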