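import Pool.Agent.FDR.SL.Defs

/-! Module SL/AILEAF: leaves accumulating to a linear image of `ℂ ^ d`. -/

set_option autoImplicit false

open scoped BigOperators Polynomial Topology
open Metric Filter

namespace Pool.Agent.FDR.SL.AILEAF

/-- a nonzero polynomial in `s` and `t` does not vanish somewhere with `s` near `s0` -/
theorem exists_point (d : ℕ) (Q : MvPolynomial (Fin (d + 1)) ℂ) (hQ : Q ≠ 0)
    (s0 : Fin d → ℂ) (N : Set (Fin d → ℂ)) (hN : N ∈ 𝓝 s0) :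
    ∃ s ∈ N, ∃ t : ℂ, MvPolynomial.eval (Fin.snoc s t : Fin (d + 1) → ℂ) Q ≠ 0 := by
  obtain ⟨r, hr, hball⟩ := Metric.mem_nhds_iff.mp hN
  by_contra hcon
  push Not at hcon
  apply hQ
  let c : Fin (d + 1) → ℂ := Fin.snoc s0 0
  refine MvPolynomial.funext_set (fun i => ball (c i) r) ?_ ?_
  · intro i
    exact infinite_of_mem_nhds (c i) (ball_mem_nhds _ hr)
  · intro x hx
    rw [map_zero]
    have h1 : x = (Fin.snoc (fun i : Fin d => x i.castSucc) (x (Fin.last d)) :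
        Fin (d + 1) → ℂ) := by
      funext i
      refine Fin.lastCases ?_ (fun j => ?_) i
      · simp
      · simp
    rw [h1]
    apply hcon
    apply hball
    rw [mem_ball, dist_pi_lt_iff hr]
    intro i
    have := hx i.castSucc (Set.mem_univ _)
    simpa [c] using this

/-- the roots in the last variable -/
theorem finite_roots (d : ℕ) (P : MvPolynomial (Fin (d + 1)) ℂ) (s : Fin d → ℂ) (t : ℂ)
    (h : MvPolynomial.eval (Fin.snoc s t : Fin (d + 1) → ℂ) P ≠ 0) :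
    {y : ℂ | MvPolynomial.eval (Fin.snoc s y : Fin (d + 1) → ℂ) P = 0}.Finite := by
  let R : ℂ[X] := MvPolynomial.aeval
    (Fin.snoc (fun i => Polynomial.C (s i)) Polynomial.X : Fin (d + 1) → ℂ[X]) P
  have hR : ∀ y : ℂ, R.eval y = MvPolynomial.eval (Fin.snoc s y : Fin (d + 1) → ℂ) P := by
    intro y
    have h1 : R.eval y = Polynomial.evalRingHom y R := rfl
    rw [h1]
    show Polynomial.evalRingHom y (MvPolynomial.aeval _ P) = _
    rw [MvPolynomial.aeval_def, MvPolynomial.hom_eval₂]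
    show MvPolynomial.eval₂ _ _ P = MvPolynomial.eval₂ (RingHom.id ℂ) _ P
    congr 1
    · ext z
      simp
    · funext i
      refine Fin.lastCases ?_ (fun j => ?_) i
      · simp
      · simp
  have hR0 : R ≠ 0 := by
    intro h0
    apply h
    rw [← hR, h0, Polynomial.eval_zero]
  have h2 := Polynomial.finite_setOfPred_isRoot hR0
  refine h2.subset ?_
  intro y hy
  show R.eval y = 0
  rw [hR]
  exact hy

theorem thm_AILEAF : Stmt_AILeaf := by
  intro g d U ε hε hU hinj A φ hAinj P hP S hS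
  -- strict derivatives
  have hUan : ∀ z ∈ ball (0 : Fin g → ℂ) ε, AnalyticAt ℂ U z := by
    intro z hz
    exact analyticAt_pi_iff.mpr (fun i => hU i z hz)
  have h0ball : (0 : Fin g → ℂ) ∈ ball (0 : Fin g → ℂ) ε := mem_ball_self hε
  have hUd : HasStrictFDerivAt U (fderiv ℂ U 0) 0 := (hUan 0 h0ball).hasStrictFDerivAt
  let e1 : (Fin g → ℂ) ≃L[ℂ] (Fin g → ℂ) :=
    (LinearEquiv.ofInjectiveEndo ((fderiv ℂ U 0 : (Fin g → ℂ) →L[ℂ] (Fin g → ℂ)) :
      (Fin g → ℂ) →ₗ[ℂ] (Fin g → ℂ)) hinj).toContinuousLinearEquiv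
  have he1 : ((e1 : (Fin g → ℂ) ≃L[ℂ] (Fin g → ℂ)) : (Fin g → ℂ) →L[ℂ] (Fin g → ℂ)) =
      fderiv ℂ U 0 := by
    ext1 v
    rfl
  have hUd1 : HasStrictFDerivAt U (e1 : (Fin g → ℂ) →L[ℂ] (Fin g → ℂ)) 0 := by
    rw [he1]
    exact hUd
  let H1 := hUd1.toOpenPartialHomeomorph U
  -- the map Θ
  let L : (Fin g → ℂ) →L[ℂ] (Fin d → ℂ) :=
    ContinuousLinearMap.pi (fun s => ContinuousLinearMap.proj (φ s))
  have hL : ∀ v s, L v s = v (φ s) := fun v s => rfl
  let T : (Fin g → ℂ) × (Fin d → ℂ) →L[ℂ] (Fin g → ℂ) :=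
    ContinuousLinearMap.fst ℂ _ _ + A ∘L ContinuousLinearMap.snd ℂ _ _
  have hT : ∀ p, T p = p.1 + A p.2 := fun p => rfl
  let Θ : (Fin g → ℂ) × (Fin d → ℂ) → (Fin g → ℂ) × (Fin d → ℂ) :=
    fun p => (p.1, L (U (T p)))
  have hT0 : T (0, 0) = 0 := by
    rw [hT]
    simp
  have hΘd : HasStrictFDerivAt Θ ((ContinuousLinearMap.fst ℂ (Fin g → ℂ) (Fin d → ℂ)).prod
      (L ∘L ((fderiv ℂ U 0) ∘L T))) ((0 : Fin g → ℂ), (0 : Fin d → ℂ)) := by
    apply HasStrictFDerivAt.prodMk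
    · exact hasStrictFDerivAt_fst
    · apply L.hasStrictFDerivAt.comp
      have : HasStrictFDerivAt U (fderiv ℂ U 0) (T (0, 0)) := by
        rw [hT0]
        exact hUd
      exact this.comp _ T.hasStrictFDerivAt
  have hΘinj : Function.Injective ((ContinuousLinearMap.fst ℂ (Fin g → ℂ) (Fin d → ℂ)).prod
      (L ∘L ((fderiv ℂ U 0) ∘L T))) := by
    rw [injective_iff_map_eq_zero]
    intro p hp
    have h1 : p.1 = 0 := congrArg Prod.fst hp
    have h2 : L (fderiv ℂ U 0 (T p)) = 0 := congrArg Prod.snd hp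
    have h3 : p.2 = 0 := by
      apply hAinj
      funext s
      have h4 := congrFun h2 s
      rw [hL, hT, h1, zero_add] at h4
      simp only [map_zero]
      exact h4
    exact Prod.ext h1 h3
  let e2 : ((Fin g → ℂ) × (Fin d → ℂ)) ≃L[ℂ] ((Fin g → ℂ) × (Fin d → ℂ)) :=
    (LinearEquiv.ofInjectiveEndo (((ContinuousLinearMap.fst ℂ (Fin g → ℂ) (Fin d → ℂ)).prod
      (L ∘L ((fderiv ℂ U 0) ∘L T)) :
        (Fin g → ℂ) × (Fin d → ℂ) →L[ℂ] (Fin g → ℂ) × (Fin d → ℂ)) :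
        (Fin g → ℂ) × (Fin d → ℂ) →ₗ[ℂ] (Fin g → ℂ) × (Fin d → ℂ))
        hΘinj).toContinuousLinearEquiv
  have hΘd2 : HasStrictFDerivAt Θ (e2 : (Fin g → ℂ) × (Fin d → ℂ) →L[ℂ]
      (Fin g → ℂ) × (Fin d → ℂ)) ((0 : Fin g → ℂ), (0 : Fin d → ℂ)) := by
    have : (e2 : (Fin g → ℂ) × (Fin d → ℂ) →L[ℂ] (Fin g → ℂ) × (Fin d → ℂ)) =
      ((ContinuousLinearMap.fst ℂ (Fin g → ℂ) (Fin d → ℂ)).prod
      (L ∘L ((fderiv ℂ U 0) ∘L T))) := by
      apply ContinuousLinearMap.ext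
      intro v
      rfl
    rw [this]
    exact hΘd
  let H2 := hΘd2.toOpenPartialHomeomorph Θ
  have hH2 : ∀ p, H2 p = Θ p := fun p => rfl
  have hsrc : ((0 : Fin g → ℂ), (0 : Fin d → ℂ)) ∈ H2.source :=
    hΘd2.mem_toOpenPartialHomeomorph_source
  set s0 : Fin d → ℂ := L (U 0) with hs0
  have hΘ0 : Θ (0, 0) = (0, s0) := by
    show ((0 : Fin g → ℂ), L (U (T (0, 0)))) = (0, s0)
    rw [hT0]
  have htgt : ((0 : Fin g → ℂ), s0) ∈ H2.target := by
    have := H2.map_source hsrc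
    rw [hH2, hΘ0] at this
    exact this
  have hsymm0 : H2.symm (0, s0) = (0, 0) := by
    have := H2.left_inv hsrc
    rw [hH2, hΘ0] at this
    exact this
  -- good open set
  let V : Set (Fin g → ℂ) := H1.source ∩ ball 0 ε
  have hVopen : IsOpen V := H1.open_source.inter isOpen_ball
  have hV0 : (0 : Fin g → ℂ) ∈ V := ⟨hUd1.mem_toOpenPartialHomeomorph_source, h0ball⟩
  have hVinj : Set.InjOn U V := by
    intro a ha b hb hab
    exact H1.injOn ha.1 hb.1 hab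
  -- conditions on s
  have hcs : ∀ᶠ s in 𝓝 s0, ((0 : Fin g → ℂ), s) ∈ H2.target ∧
      T (H2.symm (0, s)) ∈ V := by
    have hc1 : ContinuousAt (fun s : Fin d → ℂ => ((0 : Fin g → ℂ), s)) s0 :=
      (Continuous.prodMk_right (0 : Fin g → ℂ)).continuousAt
    have hc2 : ContinuousAt (fun s : Fin d → ℂ => T (H2.symm ((0 : Fin g → ℂ), s))) s0 := by
      have h1 : ContinuousAt H2.symm ((0 : Fin g → ℂ), s0) := H2.continuousAt_symm htgt
      have h2 : ContinuousAt (fun s : Fin d → ℂ => H2.symm ((0 : Fin g → ℂ), s)) s0 :=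
        ContinuousAt.comp (f := fun s : Fin d → ℂ => ((0 : Fin g → ℂ), s)) h1 hc1
      exact T.continuous.continuousAt.comp h2
    refine (hc1.eventually (H2.open_target.mem_nhds htgt)).and ?_
    apply hc2.eventually
    have h3 : (fun s : Fin d → ℂ => T (H2.symm ((0 : Fin g → ℂ), s))) s0 = 0 := by
      show T (H2.symm ((0 : Fin g → ℂ), s0)) = 0
      rw [hsymm0, hT0]
    rw [h3]
    exact hVopen.mem_nhds hV0
  have hQ : (∏ i, P i) ≠ 0 := Finset.prod_ne_zero_iff.mpr fun i _ => hP i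
  obtain ⟨s1, ⟨hs1t, hs1V⟩, t, ht⟩ := exists_point d (∏ i, P i) hQ s0 _ hcs
  have hPi : ∀ i, MvPolynomial.eval (Fin.snoc s1 t : Fin (d + 1) → ℂ) (P i) ≠ 0 := by
    intro i hi
    apply ht
    rw [map_prod]
    exact Finset.prod_eq_zero (Finset.mem_univ i) hi
  -- the curve of solutions
  let z : (Fin g → ℂ) → (Fin g → ℂ) := fun δ => T (H2.symm (δ, s1))
  have hzcont : ContinuousAt z 0 := by
    have h1 : ContinuousAt H2.symm ((0 : Fin g → ℂ), s1) := H2.continuousAt_symm hs1t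
    have h2 : ContinuousAt (fun δ : Fin g → ℂ => H2.symm (δ, s1)) 0 :=
      ContinuousAt.comp (f := fun δ : Fin g → ℂ => (δ, s1)) h1
        (Continuous.prodMk_left s1).continuousAt
    exact T.continuous.continuousAt.comp h2
  have hprop : ∀ δ : Fin g → ℂ, (δ, s1) ∈ H2.target →
      z δ = δ + A (H2.symm (δ, s1)).2 ∧ L (U (z δ)) = s1 := by
    intro δ hδ
    have h1 := H2.right_inv hδ
    rw [hH2] at h1
    have h2 : (H2.symm (δ, s1)).1 = δ := congrArg Prod.fst h1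
    have h3 : L (U (T (H2.symm (δ, s1)))) = s1 := congrArg Prod.snd h1
    refine ⟨?_, h3⟩
    show T (H2.symm (δ, s1)) = _
    rw [hT, h2]
  have hevt : ∀ᶠ δ in 𝓝 (0 : Fin g → ℂ), (δ, s1) ∈ H2.target :=
    (Continuous.prodMk_left s1).continuousAt.eventually (H2.open_target.mem_nhds hs1t)
  have hevV : ∀ᶠ δ in 𝓝 (0 : Fin g → ℂ), z δ ∈ V :=
    hzcont.eventually (hVopen.mem_nhds hs1V)
  have hevr : ∀ᶠ δ in 𝓝 (0 : Fin g → ℂ), ∀ i, U (z δ) i ∉
      {y : ℂ | MvPolynomial.eval (Fin.snoc s1 y : Fin (d + 1) → ℂ) (P i) = 0} \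
        {U (z 0) i} := by
    rw [eventually_all]
    intro i
    have hfin : ({y : ℂ | MvPolynomial.eval (Fin.snoc s1 y : Fin (d + 1) → ℂ) (P i) = 0} \
        {U (z 0) i}).Finite := (finite_roots d (P i) s1 t (hPi i)).sdiff
    have hcU : ContinuousAt (fun δ => U (z δ) i) 0 := by
      have h1 : ContinuousAt (fun y => U y i) (z 0) := (hU i (z 0) hs1V.2).continuousAt
      exact ContinuousAt.comp (f := z) h1 hzcont
    refine hcU.eventually (hfin.isClosed.isOpen_compl.mem_nhds ?_)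
    intro h
    exact h.2 rfl
  have hall : ∀ᶠ δ in 𝓝 (0 : Fin g → ℂ), δ ∈ S → ∃ w, δ = A w := by
    filter_upwards [hevt, hevV, hevr] with δ h1 h2 h3 hδS
    obtain ⟨hz1, hz2⟩ := hprop δ h1
    obtain ⟨hz3, hz4⟩ := hprop 0 hs1t
    have hUeq : U (z δ) = U (z 0) := by
      funext i
      by_contra hne
      apply h3 i
      refine ⟨?_, hne⟩
      have h4 := hS δ hδS (H2.symm (δ, s1)).2 (by rw [← hz1]; exact h2.2) i
      rw [← hz1] at h4
      have h5 : (fun s => U (z δ) (φ s)) = s1 := by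
        rw [← hz2]
        rfl
      rw [h5] at h4
      exact h4
    have hzeq : z δ = z 0 := hVinj h2 hs1V hUeq
    refine ⟨(H2.symm (0, s1)).2 - (H2.symm (δ, s1)).2, ?_⟩
    rw [map_sub]
    rw [hz1, hz3, zero_add] at hzeq
    rw [← hzeq]
    simp
  obtain ⟨η, hη, hb⟩ := Metric.eventually_nhds_iff.mp hall
  refine ⟨η, hη, ?_⟩
  intro δ hδ hn
  exact hb (by rwa [dist_zero_right]) hδ

end Pool.Agent.FDR.SL.AILEAF
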