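import Pool.Agent.FDR.SL.Defs

/-!
# FDR / SL module AITRANS
-/

open scoped BigOperators Topology
open Metric Filter

namespace Pool.Agent.FDR.SL.AITRANS

/-- homogenised evaluation -/
noncomputable def hom {κ : Type} [Fintype κ] (P : MvPolynomial κ ℂ) (y0 : ℂ) (y : κ → ℂ) : ℂ :=
  ∑ m ∈ P.support, MvPolynomial.coeff m P * (∏ i, y i ^ m i) * y0 ^ (P.totalDegree - ∑ i, m i)

lemma hom_eq {κ : Type} [Fintype κ] (P : MvPolynomial κ ℂ) (y0 : ℂ) (u : κ → ℂ) :
    hom P y0 (fun i => u i * y0) = y0 ^ P.totalDegree * MvPolynomial.eval u P := by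
  unfold hom
  rw [MvPolynomial.eval_eq', Finset.mul_sum]
  refine Finset.sum_congr rfl (fun m hm => ?_)
  have h1 : ∑ i, m i ≤ P.totalDegree := by
    have h2 := MvPolynomial.le_totalDegree hm
    rwa [Finsupp.sum_fintype _ _ (fun _ => rfl)] at h2
  have h3 : y0 ^ P.totalDegree = y0 ^ (∑ i, m i) * y0 ^ (P.totalDegree - ∑ i, m i) := by
    rw [← pow_add]; congr 1; omega
  have h4 : ∏ i, (u i * y0) ^ m i = (∏ i, u i ^ m i) * y0 ^ (∑ i, m i) := by
    rw [← Finset.prod_pow_eq_pow_sum, ← Finset.prod_mul_distrib]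
    exact Finset.prod_congr rfl (fun i _ => mul_pow _ _ _)
  rw [h3, h4]
  ring

lemma hom_analyticAt {κ E : Type} [Fintype κ] [NormedAddCommGroup E] [NormedSpace ℂ E]
    (P : MvPolynomial κ ℂ) (y0 : E → ℂ) (y : κ → E → ℂ) (x : E) (h0 : AnalyticAt ℂ y0 x)
    (h : ∀ i, AnalyticAt ℂ (y i) x) :
    AnalyticAt ℂ (fun z => hom P (y0 z) (fun i => y i z)) x := by
  unfold hom
  refine Finset.analyticAt_fun_sum _ (fun m _ => ?_)
  refine (analyticAt_const.mul ?_).mul (h0.pow _)
  exact Finset.analyticAt_fun_prod _ (fun i _ => (h i).pow _)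

/-- AITRANS -/
theorem thm_AITRANS (hPerAny : Stmt_PerAny) : Stmt_AITrans := by
  intro g d U hU A κ _ φ P hP ε hε γ hγ w z hz hw
  obtain ⟨C, ρ, hC, hρ, hrep⟩ := hU
  have hεpos : 0 < ε := lt_of_le_of_lt (dist_nonneg) (mem_ball.mp hz)
  set R : ℝ := ‖γ‖ + ε + 1 with hR
  have hγ0 := norm_nonneg γ
  obtain ⟨r, -, -⟩ := hrep R (by linarith)
  have hper := (hPerAny (Fin g → ℂ) (Fin g) U γ hγ R (by linarith) r).2 ε hε (by linarith)
  -- the convex open set
  set V : Set (Fin d → ℂ) := A ⁻¹' (ball 0 R) with hV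
  have hVconv : Convex ℝ V :=
    (convex_ball (0 : Fin g → ℂ) R).linear_preimage (A.toLinearMap.restrictScalars ℝ)
  have hVpre : IsPreconnected V := hVconv.isPreconnected
  have h0V : (0 : Fin d → ℂ) ∈ V := by
    rw [hV, Set.mem_preimage, map_zero]
    exact mem_ball_self (by linarith)
  have hwV : w ∈ V := by
    rw [hV, Set.mem_preimage, hw, mem_ball_zero_iff]
    have h1 : ‖z‖ < ε := mem_ball_zero_iff.mp hz
    have h2 := norm_add_le γ z
    linarith
  have hG0 : AnalyticOnNhd ℂ (fun w' => r.G0 (A w')) V := by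
    intro w' hw'
    exact AnalyticAt.comp (g := r.G0) (f := fun w' => A w') (r.an0 (A w') hw') (A.analyticAt w')
  have hG : ∀ i, AnalyticOnNhd ℂ (fun w' => r.G i (A w')) V := by
    intro i w' hw'
    exact AnalyticAt.comp (g := r.G i) (f := fun w' => A w') (r.an i (A w') hw') (A.analyticAt w')
  set Φ : (Fin d → ℂ) → ℂ := fun w' => hom P (r.G0 (A w')) (fun i => r.G (φ i) (A w')) with hΦ
  have hΦan : AnalyticOnNhd ℂ Φ V := by
    intro w' hw'
    exact hom_analyticAt P (fun w' => r.G0 (A w')) (fun i w' => r.G (φ i) (A w')) w'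
      (hG0 w' hw') (fun i => hG (φ i) w' hw')
  have hA0 : Tendsto (fun w' : Fin d → ℂ => A w') (𝓝 0) (𝓝 0) := by
    have := A.continuous.tendsto 0
    rwa [map_zero] at this
  have hΦ0 : Φ =ᶠ[𝓝 0] 0 := by
    filter_upwards [hP, hA0.eventually r.eq] with w' h1 h2
    have h3 : (fun i => r.G (φ i) (A w')) = fun i => U (A w') (φ i) * r.G0 (A w') := by
      funext i
      exact h2 (φ i)
    simp only [hΦ, h3, hom_eq, h1, mul_zero, Pi.zero_apply]
  have hΦV := hΦan.eqOn_zero_of_preconnected_of_eventuallyEq_zero hVpre h0V hΦ0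
  -- near `w`
  have hUcont : ContinuousAt (fun w' : Fin d → ℂ =>
      MvPolynomial.eval (fun i => U (A w' - γ) (φ i)) P) w := by
    have h1 : ContinuousAt (fun w' : Fin d → ℂ => A w' - γ) w :=
      (A.continuous.sub continuous_const).continuousAt
    have h2 : A w - γ = z := by rw [hw]; abel
    have h3 : ContinuousAt (fun w' : Fin d → ℂ => fun i => U (A w' - γ) (φ i)) w := by
      rw [continuousAt_pi]
      intro i
      have h4 : ContinuousAt (fun y => U y (φ i)) (A w - γ) := by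
        rw [h2]
        exact (hε (φ i) z hz).continuousAt
      exact ContinuousAt.comp (g := fun y => U y (φ i)) (f := fun w' : Fin d → ℂ => A w' - γ)
        h4 h1
    have h5 : Continuous (fun u : κ → ℂ => MvPolynomial.eval u P) :=
      MvPolynomial.continuous_eval P
    exact ContinuousAt.comp (g := fun u : κ → ℂ => MvPolynomial.eval u P)
      (f := fun w' : Fin d → ℂ => fun i => U (A w' - γ) (φ i)) h5.continuousAt h3
  by_contra hne
  have hzw : A w - γ = z := by rw [hw]; abel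
  have hne' : MvPolynomial.eval (fun i => U (A w - γ) (φ i)) P ≠ 0 := by rw [hzw]; exact hne
  have hev1 : ∀ᶠ w' in 𝓝 w, MvPolynomial.eval (fun i => U (A w' - γ) (φ i)) P ≠ 0 :=
    hUcont.eventually_ne hne'
  have hev2 : ∀ᶠ w' in 𝓝 w, A w' - γ ∈ ball (0 : Fin g → ℂ) ε := by
    have h1 : ContinuousAt (fun w' : Fin d → ℂ => A w' - γ) w :=
      (A.continuous.sub continuous_const).continuousAt
    exact h1.eventually_mem (isOpen_ball.mem_nhds (by rw [hzw]; exact hz))
  have hev3 : ∀ᶠ w' in 𝓝 w, w' ∈ V :=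
    ((isOpen_ball.preimage A.continuous).mem_nhds hwV)
  have hG0w : (fun w' => r.G0 (A w')) =ᶠ[𝓝 w] 0 := by
    filter_upwards [hev1, hev2, hev3] with w' h1 h2 h3
    have h4 := hΦV h3
    have h5 : (fun i => r.G (φ i) (A w')) = fun i => U (A w' - γ) (φ i) * r.G0 (A w') := by
      funext i
      have h6 := hper (A w' - γ) h2 (φ i)
      rwa [add_sub_cancel] at h6
    simp only [hΦ, h5, hom_eq, Pi.zero_apply, mul_eq_zero] at h4
    rcases h4 with h4 | h4
    · exact eq_zero_of_pow_eq_zero h4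
    · exact absurd h4 h1
  have hG0V := hG0.eqOn_zero_of_preconnected_of_eventuallyEq_zero hVpre hwV hG0w
  have := hG0V h0V
  simp only [map_zero, Pi.zero_apply] at this
  exact r.ne this

end Pool.Agent.FDR.SL.AITRANS
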