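import Pool.Agent.FDR.SL.Defs

/-!
# FDR / SL: assembly of the algebraic independence theorem
-/

open scoped BigOperators Polynomial Topology
open Metric Filter

namespace Pool.Agent.FDR.SL.AI

open Pool.Agent.FDR

theorem thm_AlgInd (hDir : Stmt_AIDir) (hTr : Stmt_AITrans) (hMin : Stmt_AIMinor)
    (hLeaf : Stmt_AILeaf) : Stmt_AlgInd := by
  intro g d hd U hU hUinj hgr Λ hΛ hspan e he heΛ hreal
  -- the linear map
  set A : (Fin d → ℂ) →L[ℂ] (Fin g → ℂ) :=
    ∑ s, (ContinuousLinearMap.proj (R := ℂ) (φ := fun _ : Fin d => ℂ) s).smulRight (e s) with hA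
  have hAapp : ∀ w, A w = ∑ s, w s • e s := by
    intro w
    simp [hA]
  have hAinj : Function.Injective A := by
    rw [injective_iff_map_eq_zero]
    intro w hw
    rw [hAapp] at hw
    funext s
    exact Fintype.linearIndependent_iff.1 he w hw s
  have hBinj : Function.Injective (((fderiv ℂ U 0).comp A : (Fin d → ℂ) →L[ℂ] (Fin g → ℂ)) :
      (Fin d → ℂ) →ₗ[ℂ] (Fin g → ℂ)) := by
    intro x y hxy
    exact hAinj (hUinj hxy)
  obtain ⟨φ, _, hφ⟩ := hMin g d _ hBinj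
  by_contra hcon
  push Not at hcon
  -- relations
  have hrel : ∀ i : Fin g, ∃ P : MvPolynomial (Fin (d + 1)) ℂ,
      (∀ᶠ w in 𝓝 (0 : Fin d → ℂ),
        MvPolynomial.eval (fun k => U (A w) ((Fin.snoc φ i : Fin (d + 1) → Fin g) k)) P = 0) ∧
      P ≠ 0 := by
    intro i
    obtain ⟨P, hP, hP0⟩ := hcon (Fin.snoc φ i : Fin (d + 1) → Fin g)
    refine ⟨P, ?_, hP0⟩
    filter_upwards [hP] with w hw
    rw [hAapp]
    exact hw
  choose P hP hP0 using hrel
  -- analyticity radius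
  have hUan : ∀ i, AnalyticAt ℂ (fun z => U z i) 0 := fun i => by
    have := (ContinuousLinearMap.proj (R := ℂ) (φ := fun _ : Fin g => ℂ) i).analyticAt (U 0)
    exact this.comp hU
  obtain ⟨ε, hε, hUε⟩ : ∃ ε : ℝ, 0 < ε ∧ ∀ i, AnalyticOnNhd ℂ (fun z => U z i) (ball 0 ε) := by
    have h1 : ∀ᶠ z in 𝓝 (0 : Fin g → ℂ), ∀ i, AnalyticAt ℂ (fun z => U z i) z :=
      eventually_all.2 fun i => (hUan i).eventually_analyticAt
    obtain ⟨ε, hε, h2⟩ := Metric.eventually_nhds_iff_ball.1 h1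
    exact ⟨ε, hε, fun i z hz => h2 z hz i⟩
  set S : Set (Fin g → ℂ) := {δ | ∃ γ ∈ Λ, ∃ w : Fin d → ℂ, A w = γ + δ} with hS
  have hφ' : Function.Injective (fun (w : Fin d → ℂ) (s : Fin d) => fderiv ℂ U 0 (A w) (φ s)) :=
    hφ
  obtain ⟨η, hη, hleaf⟩ := hLeaf g d U ε hε hUε hUinj A φ hφ' P hP0 S (by
    rintro δ ⟨γ, hγ, w0, hw0⟩ w hw i
    have h1 := hTr g d U hgr A (Fin (d + 1)) (Fin.snoc φ i : Fin (d + 1) → Fin g) (P i) (hP i)
      ε hUε γ (hΛ γ hγ) (w0 + w) (δ + A w) hw (by rw [map_add, hw0]; abel)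
    have h2 : (fun k => U (δ + A w) ((Fin.snoc φ i : Fin (d + 1) → Fin g) k)) =
        (Fin.snoc (fun s => U (δ + A w) (φ s)) (U (δ + A w) i) : Fin (d + 1) → ℂ) := by
      funext k
      refine Fin.lastCases ?_ (fun k => ?_) k
      · simp
      · simp
    rw [h2] at h1
    exact h1)
  -- lower bound for `A`
  obtain ⟨κ, hκ, hAlow⟩ : ∃ κ : ℝ, 0 < κ ∧ ∀ w, ‖w‖ ≤ κ * ‖A w‖ := by
    have h1 : A.ker = ⊥ := LinearMap.ker_eq_bot.2 hAinj
    obtain ⟨K, hK, h2⟩ := A.exists_antilipschitzWith h1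
    refine ⟨K, by exact_mod_cast hK, fun w => ?_⟩
    have h3 := h2.le_mul_dist w 0
    simpa [dist_eq_norm] using h3
  set s0 : Fin d := ⟨0, hd⟩ with hs0
  obtain ⟨n, hn, γ, hγ, hlt⟩ := hDir g Λ hspan (Complex.I • e s0) (min η (1 / (2 * κ)))
    (lt_min hη (by positivity)) 1
  set δ : Fin g → ℂ := (n : ℂ) • Complex.I • e s0 - γ with hδ
  have hAn : A ((n : ℂ) • Complex.I • (Pi.single s0 1 : Fin d → ℂ)) =
      (n : ℂ) • Complex.I • e s0 := by
    rw [map_smul, map_smul]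
    congr 2
    rw [hAapp, Finset.sum_eq_single s0]
    · simp
    · intro b _ hb
      simp [Pi.single_eq_of_ne hb]
    · intro h
      exact absurd (Finset.mem_univ _) h
  have hδS : δ ∈ S := ⟨γ, hγ, (n : ℂ) • Complex.I • (Pi.single s0 1 : Fin d → ℂ), by
    rw [hAn, hδ]
    abel⟩
  obtain ⟨w, hw⟩ := hleaf δ hδS (hlt.trans_le (min_le_left _ _))
  have hwsmall : ‖w‖ < 1 := by
    have h1 := hAlow w
    rw [← hw] at h1
    have h2 : κ * ‖δ‖ < κ * (1 / (2 * κ)) :=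
      mul_lt_mul_of_pos_left (hlt.trans_le (min_le_right _ _)) hκ
    have h3 : κ * (1 / (2 * κ)) = 1 / 2 := by field_simp
    linarith
  -- `γ` is in the complex span, hence in the real span
  set c : Fin d → ℂ := (n : ℂ) • Complex.I • (Pi.single s0 1 : Fin d → ℂ) - w with hc
  have hγc : γ = A c := by
    rw [hc, map_sub, hAn, ← hw, hδ]
    abel
  have hγC : γ ∈ Submodule.span ℂ (Set.range e) := by
    rw [hγc, hAapp]
    exact Submodule.sum_mem _ fun s _ => Submodule.smul_mem _ _ (Submodule.subset_span ⟨s, rfl⟩)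
  have hγR := hreal γ hγ hγC
  obtain ⟨r, hr⟩ := (Submodule.mem_span_range_iff_exists_fun ℝ).1 hγR
  have h1 : A (fun s => (r s : ℂ)) = A c := by
    rw [← hγc, ← hr, hAapp]
    refine Finset.sum_congr rfl fun s _ => ?_
    simp
  have h2 := congrFun (hAinj h1) s0
  have h3 : c s0 = n * Complex.I - w s0 := by
    simp [hc]
  rw [h3] at h2
  have h4 := congrArg Complex.im h2
  simp at h4
  have h5 : |(w s0).im| ≤ ‖w‖ := (Complex.abs_im_le_norm _).trans (norm_le_pi_norm w s0)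
  have h6 : (n : ℝ) = (w s0).im := by linarith
  have h7 : (1 : ℝ) ≤ n := by exact_mod_cast hn
  rw [h6] at h7
  have h8 := le_abs_self (w s0).im
  linarith

end Pool.Agent.FDR.SL.AI
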