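import Pool.Agent.FDR.Stmts

/-!
# FDR / SL: the periodic Schneider-Lang theorem, definitions and basic lemmas
-/

open scoped BigOperators Polynomial Topology
open Metric Filter

namespace Pool.Agent.FDR

noncomputable section

section dir

variable {E : Type} [NormedAddCommGroup E] [NormedSpace ℂ E]

/-- Iterated directional derivatives along the vectors of a list (the head is applied last). -/
def dir : List E → (E → ℂ) → (E → ℂ)
  | [], Φ => Φ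
  | u :: l, Φ => fun x => fderiv ℂ (dir l Φ) x u

@[simp] theorem dir_nil (Φ : E → ℂ) : dir [] Φ = Φ := rfl

theorem dir_cons (u : E) (l : List E) (Φ : E → ℂ) (x : E) :
    dir (u :: l) Φ x = fderiv ℂ (dir l Φ) x u := rfl

theorem dir_append (l l' : List E) (Φ : E → ℂ) : dir (l ++ l') Φ = dir l (dir l' Φ) := by
  induction l with
  | nil => rfl
  | cons u l ih =>
    funext x
    simp only [List.cons_append, dir_cons, ih]

theorem dir_analyticAt {Φ : E → ℂ} {x : E} (h : AnalyticAt ℂ Φ x) (l : List E) :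
    AnalyticAt ℂ (dir l Φ) x := by
  induction l with
  | nil => exact h
  | cons u l ih =>
    have h1 : AnalyticAt ℂ (fderiv ℂ (dir l Φ)) x := ih.fderiv
    have h2 := (ContinuousLinearMap.apply ℂ ℂ u).analyticAt (fderiv ℂ (dir l Φ) x)
    exact h2.comp h1

theorem dir_congr {Φ Φ' : E → ℂ} {x : E} (h : Φ =ᶠ[𝓝 x] Φ') (l : List E) :
    dir l Φ =ᶠ[𝓝 x] dir l Φ' := by
  induction l with
  | nil => exact h
  | cons u l ih =>
    filter_upwards [ih.eventuallyEq_nhds] with y hy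
    simp only [dir_cons]
    rw [hy.fderiv_eq]

theorem dir_add {Φ Φ' : E → ℂ} {x : E} (h : AnalyticAt ℂ Φ x) (h' : AnalyticAt ℂ Φ' x)
    (l : List E) : dir l (fun y => Φ y + Φ' y) =ᶠ[𝓝 x] fun y => dir l Φ y + dir l Φ' y := by
  induction l with
  | nil => exact EventuallyEq.rfl
  | cons u l ih =>
    filter_upwards [ih.eventuallyEq_nhds, (dir_analyticAt h l).eventually_analyticAt,
      (dir_analyticAt h' l).eventually_analyticAt] with y hy h1 h2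
    simp only [dir_cons]
    rw [hy.fderiv_eq, fderiv_fun_add h1.differentiableAt h2.differentiableAt]
    rfl

theorem dir_const_mul {Φ : E → ℂ} {x : E} (h : AnalyticAt ℂ Φ x) (c : ℂ)
    (l : List E) : dir l (fun y => c * Φ y) =ᶠ[𝓝 x] fun y => c * dir l Φ y := by
  induction l with
  | nil => exact EventuallyEq.rfl
  | cons u l ih =>
    filter_upwards [ih.eventuallyEq_nhds, (dir_analyticAt h l).eventually_analyticAt] with y hy h1
    simp only [dir_cons]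
    rw [hy.fderiv_eq, fderiv_const_mul h1.differentiableAt]
    rfl

theorem dir_zero (l : List E) : dir l (fun _ : E => (0 : ℂ)) = fun _ => 0 := by
  induction l with
  | nil => rfl
  | cons u l ih =>
    funext x
    simp only [dir_cons, ih]
    simp

theorem dir_sum {κ : Type} (s : Finset κ) {Φ : κ → E → ℂ} {x : E}
    (h : ∀ k ∈ s, AnalyticAt ℂ (Φ k) x) (l : List E) :
    dir l (fun y => ∑ k ∈ s, Φ k y) =ᶠ[𝓝 x] fun y => ∑ k ∈ s, dir l (Φ k) y := by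
  classical
  induction s using Finset.induction_on with
  | empty => simp [dir_zero]
  | insert a s ha ih =>
    have h1 : AnalyticAt ℂ (fun y => ∑ k ∈ s, Φ k y) x :=
      Finset.analyticAt_fun_sum s (fun k hk => h k (Finset.mem_insert_of_mem hk))
    have h2 := dir_add (h a (Finset.mem_insert_self a s)) h1 l
    have h3 := ih (fun k hk => h k (Finset.mem_insert_of_mem hk))
    simp only [Finset.sum_insert ha]
    filter_upwards [h2, h3] with y h2 h3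
    rw [h2, h3]

/-- Linearity in the direction. -/
theorem dir_cons_sum {κ : Type} (s : Finset κ) (c : κ → ℂ) (u : κ → E) (l : List E)
    (Φ : E → ℂ) (x : E) :
    dir ((∑ k ∈ s, c k • u k) :: l) Φ x = ∑ k ∈ s, c k * dir (u k :: l) Φ x := by
  simp only [dir_cons, map_sum, map_smul, smul_eq_mul]

end dir

/-- the standard basis vectors -/
def stdv {d : ℕ} (s : Fin d) : Fin d → ℂ := Pi.single s 1

section dop

variable {d n : ℕ} {K : Type} [Field K]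

/-- The polynomial derivation `∑ i, P j i * ∂/∂X i`. -/
def dop (P : Fin d → Fin n → MvPolynomial (Fin n) K) (j : Fin d) :
    MvPolynomial (Fin n) K → MvPolynomial (Fin n) K :=
  fun Q => ∑ i, P j i * MvPolynomial.pderiv i Q

/-- Iterated polynomial derivations (the head is applied last). -/
def dops (P : Fin d → Fin n → MvPolynomial (Fin n) K) :
    List (Fin d) → MvPolynomial (Fin n) K → MvPolynomial (Fin n) K
  | [], Q => Q
  | j :: l, Q => dop P j (dops P l Q)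

@[simp] theorem dops_nil (P : Fin d → Fin n → MvPolynomial (Fin n) K)
    (Q : MvPolynomial (Fin n) K) : dops P [] Q = Q := rfl

theorem dops_cons (P : Fin d → Fin n → MvPolynomial (Fin n) K) (j : Fin d) (l : List (Fin d))
    (Q : MvPolynomial (Fin n) K) : dops P (j :: l) Q = dop P j (dops P l Q) := rfl

end dop

/-! ## Module statements -/

/-- DPERM: iterated derivatives do not depend on the order. -/
def Stmt_DPerm : Prop := ∀ (E : Type) [NormedAddCommGroup E] [NormedSpace ℂ E]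
  (Φ : E → ℂ) (x : E), AnalyticAt ℂ Φ x → ∀ l l' : List E, l.Perm l' → dir l Φ x = dir l' Φ x

/-- DAEV: derivatives of polynomials in the solution `H` of a system of differential equations. -/
def Stmt_DAev : Prop := ∀ (d n : ℕ) (K : IntermediateField ℚ ℂ) (v : Fin d → (Fin d → ℂ))
  (H : (Fin d → ℂ) → (Fin n → ℂ)) (P : Fin d → Fin n → MvPolynomial (Fin n) K),
  AnalyticAt ℂ H 0 →
  (∀ j i, ∀ᶠ w in 𝓝 (0 : Fin d → ℂ),
    fderiv ℂ (fun w => H w i) w (v j) = MvPolynomial.aeval (H w) (P j i)) →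
  ∀ (Q : MvPolynomial (Fin n) K) (l : List (Fin d)),
    ∀ᶠ w in 𝓝 (0 : Fin d → ℂ),
      dir (l.map v) (fun w => MvPolynomial.aeval (H w) Q) w =
        MvPolynomial.aeval (H w) (dops P l Q)

/-- DLINE: derivatives along a line. -/
def Stmt_DLine : Prop := ∀ (E : Type) [NormedAddCommGroup E] [NormedSpace ℂ E]
  (Φ : E → ℂ) (x u : E), AnalyticAt ℂ Φ x → ∀ k : ℕ,
  iteratedDeriv k (fun t : ℂ => Φ (x + t • u)) 0 = dir (List.replicate k u) Φ x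

/-- DBASIS: passing from the directions `v` to the standard basis. -/
def Stmt_DBasis : Prop := ∀ (d : ℕ), 0 < d → ∀ (v : Fin d → (Fin d → ℂ)), ∃ C : ℝ, 1 ≤ C ∧
  ∀ Φ : (Fin d → ℂ) → ℂ, AnalyticAt ℂ Φ 0 → ∀ l : List (Fin d), ∃ l' : List (Fin d),
    l'.length = l.length ∧
    ‖dir (l.map v) Φ 0‖ ≤ C ^ l.length * ‖dir (l'.map stdv) Φ 0‖

/-- DORDA: vanishing of the derivatives along a basis of vectors implies vanishing of
order `M`. -/
def Stmt_DOrdA : Prop := ∀ (d : ℕ) (v : Fin d → (Fin d → ℂ)), LinearIndependent ℂ v →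
  ∀ (Φ : (Fin d → ℂ) → ℂ) (x : Fin d → ℂ), AnalyticAt ℂ Φ x → ∀ M : ℕ,
  (∀ l : List (Fin d), l.length < M → dir (l.map v) Φ x = 0) →
  (fun w => Φ (x + w)) =O[𝓝 0] (fun w => ‖w‖ ^ M)

/-- DORDB: if all derivatives vanish, the germ is zero. -/
def Stmt_DOrdB : Prop := ∀ (d : ℕ) (v : Fin d → (Fin d → ℂ)), LinearIndependent ℂ v →
  ∀ (Φ : (Fin d → ℂ) → ℂ) (x : Fin d → ℂ), AnalyticAt ℂ Φ x →
  (∀ l : List (Fin d), dir (l.map v) Φ x = 0) → ∀ᶠ y in 𝓝 x, Φ y = 0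

/-- DORDC: derivatives lower the order of vanishing at most by one. -/
def Stmt_DOrdC : Prop := ∀ (E : Type) [NormedAddCommGroup E] [NormedSpace ℂ E]
  (Φ : E → ℂ) (x : E), AnalyticAt ℂ Φ x → ∀ M : ℕ,
  (fun w => Φ (x + w)) =O[𝓝 0] (fun w => ‖w‖ ^ M) → ∀ l : List E,
  (fun w => dir l Φ (x + w)) =O[𝓝 0] (fun w => ‖w‖ ^ (M - l.length))

/-- DLEAD: the leading coefficient of a product. -/
def Stmt_DLead : Prop := ∀ (E : Type) [NormedAddCommGroup E] [NormedSpace ℂ E]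
  (Φ Ψ G : E → ℂ), AnalyticAt ℂ Φ 0 → AnalyticAt ℂ Ψ 0 → AnalyticAt ℂ G 0 →
  (∀ᶠ w in 𝓝 (0 : E), Ψ w = G w * Φ w) → ∀ M : ℕ, Φ =O[𝓝 0] (fun w => ‖w‖ ^ M) →
  ∀ l : List E, l.length = M → dir l Ψ 0 = G 0 * dir l Φ 0

/-- DCAU: Cauchy's estimate for iterated derivatives along the coordinate axes. -/
def Stmt_DCau : Prop := ∀ (d : ℕ) (R B : ℝ) (Ψ : (Fin d → ℂ) → ℂ),
  AnalyticOnNhd ℂ Ψ (ball 0 R) → (∀ z ∈ ball (0 : Fin d → ℂ) R, ‖Ψ z‖ ≤ B) →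
  ∀ (l : List (Fin d)) (r : ℝ), r + 1 ≤ R → ∀ z ∈ ball (0 : Fin d → ℂ) r,
    ‖dir (l.map stdv) Ψ z‖ ≤ (l.length : ℝ) ^ l.length * B

/-- SCHW: Schwarz's lemma for a function with zeros of order `k` at all integers of
absolute value at most `N`. -/
def Stmt_Schw : Prop := ∀ (g : ℂ → ℂ) (N k : ℕ) (B : ℝ),
  AnalyticOnNhd ℂ g (ball 0 (4 * N + 1)) → (∀ t ∈ ball (0 : ℂ) (4 * N + 1), ‖g t‖ ≤ B) →
  (∀ m : ℤ, |m| ≤ N → (fun t : ℂ => g (m + t)) =O[𝓝 0] (fun t => ‖t‖ ^ k)) →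
  ‖iteratedDeriv k g 0‖ ≤ k.factorial * B * Real.exp (-(2 * N * k))

/-- BOUND: conjugates and denominators of the values of iterated derivations of monomials. -/
def Stmt_Bound : Prop := ∀ (d n m : ℕ) (K : IntermediateField ℚ ℂ), FiniteDimensional ℚ K →
  ∀ (P : Fin d → Fin n → MvPolynomial (Fin n) K) (Q : Fin m → MvPolynomial (Fin n) K)
    (a : Fin n → K), ∃ (C : ℝ) (D : ℕ), 1 ≤ C ∧ 0 < D ∧
  ∀ (l : List (Fin d)) (e : Fin m → ℕ) (S : ℕ), ∑ i, e i ≤ S → l.length ≤ S → 1 ≤ S →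
    (∀ σ : K →+* ℂ, ‖σ (MvPolynomial.eval a (dops P l (∏ i, Q i ^ e i)))‖ ≤
      C ^ S * (S : ℝ) ^ l.length) ∧
    IsIntegral ℤ ((D : K) ^ S * MvPolynomial.eval a (dops P l (∏ i, Q i ^ e i)))

/-- SIEG: Siegel's lemma. -/
def Stmt_Sieg : Prop := ∀ (K : IntermediateField ℚ ℂ), FiniteDimensional ℚ K →
  ∃ C : ℝ, 1 ≤ C ∧ ∀ (α β : Type) [Fintype α] [Fintype β] (M : α → β → K) (A : ℝ), 1 ≤ A →
    0 < Fintype.card β → 2 * Fintype.card α ≤ Fintype.card β →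
    (∀ i j, IsIntegral ℤ (M i j)) → (∀ i j, ∀ σ : K →+* ℂ, ‖σ (M i j)‖ ≤ A) →
    ∃ x : β → K, x ≠ 0 ∧ (∀ j, IsIntegral ℤ (x j)) ∧ (∀ i, ∑ j, M i j * x j = 0) ∧
      ∀ j, ∀ σ : K →+* ℂ, ‖σ (x j)‖ ≤ C * Fintype.card β * A

/-- LIOU: Liouville's inequality. -/
def Stmt_Liou : Prop := ∀ (K : IntermediateField ℚ ℂ), FiniteDimensional ℚ K →
  ∀ (x : K), x ≠ 0 → ∀ (A : ℝ) (D : ℕ), 1 ≤ A → 0 < D → IsIntegral ℤ ((D : K) * x) →
  (∀ σ : K →+* ℂ, ‖σ x‖ ≤ A) → 1 ≤ (D * A) ^ Module.finrank ℚ K * ‖(x : ℂ)‖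

/-- SLAUX: the auxiliary polynomial, with the Liouville bound for its derivatives. -/
def Stmt_SLAux : Prop := ∀ (d n : ℕ), 0 < d → ∀ (K : IntermediateField ℚ ℂ),
  FiniteDimensional ℚ K → ∀ (P : Fin d → Fin n → MvPolynomial (Fin n) K)
    (Q : Fin (d + 1) → MvPolynomial (Fin n) K) (a : Fin n → K),
  (∀ l l' : List (Fin d), l.Perm l' → ∀ R : MvPolynomial (Fin n) K,
    MvPolynomial.eval a (dops P l R) = MvPolynomial.eval a (dops P l' R)) →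
  ∃ C : ℝ, 1 ≤ C ∧ ∀ U : ℕ, 2 ≤ U → ∃ p : (Fin (d + 1) → Fin (2 * U ^ d)) → K, p ≠ 0 ∧
    (∀ e, ‖(p e : ℂ)‖ ≤ Real.exp (C * (U ^ (d + 1) : ℕ) * Real.log U)) ∧
    (∀ l : List (Fin d), l.length < U ^ (d + 1) →
      ∑ e, p e * MvPolynomial.eval a (dops P l (∏ i, Q i ^ (e i : ℕ))) = 0) ∧
    ∀ l : List (Fin d), U ^ (d + 1) ≤ l.length →
      ∑ e, p e * MvPolynomial.eval a (dops P l (∏ i, Q i ^ (e i : ℕ))) ≠ 0 →
      Real.exp (-(C * l.length * Real.log l.length)) ≤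
        ‖((∑ e, p e * MvPolynomial.eval a (dops P l (∏ i, Q i ^ (e i : ℕ))) : K) : ℂ)‖

/-- GAPP: application of growth and periodicity to a polynomial in the functions `f`. -/
def Stmt_GApp : Prop := ∀ (d : ℕ), 0 < d → ∀ (f : (Fin d → ℂ) → Fin (d + 1) → ℂ),
  (∀ i, AnalyticAt ℂ (fun w => f w i) 0) → HasGrowth f →
  (∀ s : Fin d, IsPer f (Pi.single s 1)) →
  ∃ C ρ : ℝ, 0 < C ∧ 1 ≤ ρ ∧ ∀ (L : ℕ), 0 < L → ∀ (p : (Fin (d + 1) → Fin L) → ℂ) (B : ℝ),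
    0 ≤ B → (∀ e, ‖p e‖ ≤ B) → ∀ R : ℝ, 1 ≤ R →
    ∃ Ψ G : (Fin d → ℂ) → ℂ, AnalyticOnNhd ℂ Ψ (ball 0 R) ∧ AnalyticAt ℂ G 0 ∧
      Real.exp (-(C * L * R ^ ρ)) ≤ ‖G 0‖ ∧
      (∀ᶠ w in 𝓝 (0 : Fin d → ℂ), Ψ w = G w * ∑ e, p e * ∏ i, f w i ^ (e i : ℕ)) ∧
      (∀ z ∈ ball (0 : Fin d → ℂ) R, ‖Ψ z‖ ≤ (L : ℝ) ^ (d + 1) * B * Real.exp (C * L * R ^ ρ)) ∧
      ∀ (i : Fin d) (m : ℤ), (|m| : ℝ) < R →
        (fun w => Ψ ((m : ℂ) • stdv i + w)) =O[𝓝 (0 : Fin d → ℂ)]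
          (fun w => ∑ e, p e * ∏ i, f w i ^ (e i : ℕ))

/-- SLNUM: the final numerical contradiction. -/
def Stmt_SLNum : Prop := ∀ (d : ℕ), 0 < d → ∀ (C ρ : ℝ), 1 ≤ C → 1 ≤ ρ → ∃ U : ℕ, 2 ≤ U ∧
  ∀ M : ℕ, U ^ (d + 1) ≤ M → ∃ N : ℕ, 
    (M : ℝ) ^ (2 * M) * ((2 * U ^ d : ℕ) : ℝ) ^ (d + 1) *
      Real.exp (C * (U ^ (d + 1) : ℕ) * Real.log U) *
      Real.exp (2 * (C * (2 * U ^ d : ℕ) * (4 * N + 2 : ℝ) ^ ρ)) * C ^ M *
      Real.exp (C * M * Real.log M) < Real.exp (2 * N * (M / d : ℝ))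

/-! ### Algebraic independence -/

/-- AIDIR: Dirichlet recurrence modulo a subgroup spanning the space over `ℝ`. -/
def Stmt_AIDir : Prop := ∀ (g : ℕ) (Λ : AddSubgroup (Fin g → ℂ)),
  Submodule.span ℝ (Λ : Set (Fin g → ℂ)) = ⊤ → ∀ (x : Fin g → ℂ) (ε : ℝ), 0 < ε → ∀ N : ℕ,
  ∃ n : ℕ, N ≤ n ∧ ∃ γ ∈ Λ, ‖(n : ℂ) • x - γ‖ < ε

/-- AITRANS: a polynomial relation on the linear image `A` of `ℂ ^ d` holds on all its
translates by periods. -/
def Stmt_AITrans : Prop := ∀ (g d : ℕ) (U : (Fin g → ℂ) → (Fin g → ℂ)),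
  HasGrowth U → ∀ (A : (Fin d → ℂ) →L[ℂ] (Fin g → ℂ)) (κ : Type) [Fintype κ]
    (φ : κ → Fin g) (P : MvPolynomial κ ℂ),
  (∀ᶠ w in 𝓝 (0 : Fin d → ℂ), MvPolynomial.eval (fun i => U (A w) (φ i)) P = 0) →
  ∀ ε : ℝ, (∀ i, AnalyticOnNhd ℂ (fun z => U z i) (ball 0 ε)) →
  ∀ γ, IsPer U γ → ∀ w : Fin d → ℂ, ∀ z ∈ ball (0 : Fin g → ℂ) ε, A w = γ + z →
    MvPolynomial.eval (fun i => U z (φ i)) P = 0

/-- AIMINOR: a nonzero minor. -/
def Stmt_AIMinor : Prop := ∀ (g d : ℕ) (B : (Fin d → ℂ) →ₗ[ℂ] (Fin g → ℂ)),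
  Function.Injective B → ∃ φ : Fin d → Fin g, Function.Injective φ ∧
    Function.Injective (fun (w : Fin d → ℂ) (s : Fin d) => B w (φ s))

/-- AILEAF: the local argument: leaves accumulating to `A (ℂ ^ d)` inside an algebraic set of
dimension `d` are contained in it. -/
def Stmt_AILeaf : Prop := ∀ (g d : ℕ) (U : (Fin g → ℂ) → (Fin g → ℂ)) (ε : ℝ), 0 < ε →
  (∀ i, AnalyticOnNhd ℂ (fun z => U z i) (ball 0 ε)) → Function.Injective (fderiv ℂ U 0) →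
  ∀ (A : (Fin d → ℂ) →L[ℂ] (Fin g → ℂ)) (φ : Fin d → Fin g),
    Function.Injective (fun (w : Fin d → ℂ) (s : Fin d) => fderiv ℂ U 0 (A w) (φ s)) →
    ∀ P : Fin g → MvPolynomial (Fin (d + 1)) ℂ, (∀ i, P i ≠ 0) →
    ∀ S : Set (Fin g → ℂ),
    (∀ δ ∈ S, ∀ w : Fin d → ℂ, δ + A w ∈ ball (0 : Fin g → ℂ) ε → ∀ i,
      MvPolynomial.eval (Fin.snoc (fun s => U (δ + A w) (φ s)) (U (δ + A w) i) :
        Fin (d + 1) → ℂ) (P i) = 0) →
    ∃ η : ℝ, 0 < η ∧ ∀ δ ∈ S, ‖δ‖ < η → ∃ w, δ = A w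

end

end Pool.Agent.FDR
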